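import Mathlib

set_option autoImplicit false

namespace Pool.Agent.Lib.MP_f8d220_an

open MeasureTheory intervalIntegral Filter Topology

theorem gauss_tail (b : ℂ) (hb : 0 < b.re) (w R : ℝ) (hw : 0 < w) (hR : w ≤ R) :
    ‖∫ y in w..R, Complex.exp (-b * (y : ℂ) ^ 2)‖ ≤ 1 / (‖b‖ * w) := by
  have hb0 : b ≠ 0 := by
    intro h; rw [h] at hb; simp at hb
  have hbn : 0 < ‖b‖ := norm_pos_iff.mpr hb0
  set f : ℝ → ℂ := fun y => Complex.exp (-b * (y : ℂ) ^ 2) with hf
  set F : ℝ → ℂ := fun y => f y / (-2 * b * y) with hF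
  have hpos : ∀ y ∈ Set.uIcc w R, 0 < y := by
    intro y hy
    rw [Set.uIcc_of_le hR] at hy
    exact lt_of_lt_of_le hw hy.1
  have hfcont : Continuous f := by
    simp only [hf]; fun_prop
  have hfn : ∀ y : ℝ, ‖f y‖ ≤ 1 := by
    intro y
    simp only [hf]
    rw [Complex.norm_exp]
    have : (-b * (y : ℂ) ^ 2).re = - (b.re * y ^ 2) := by
      have h1 : ((y : ℂ) ^ 2) = ((y ^ 2 : ℝ) : ℂ) := by push_cast; ring
      rw [h1, Complex.re_mul_ofReal]; simp
    rw [this]
    rw [Real.exp_le_one_iff]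
    have : 0 ≤ b.re * y ^ 2 := by positivity
    linarith
  have hder : ∀ y ∈ Set.uIcc w R, HasDerivAt F (f y + f y / (2 * b * y ^ 2)) y := by
    intro y hy
    have hy0 : (y : ℂ) ≠ 0 := by exact_mod_cast (hpos y hy).ne'
    have hid : HasDerivAt (fun y : ℝ => (y : ℂ)) 1 y := by
      simpa using (hasDerivAt_id y).ofReal_comp
    have h1 : HasDerivAt f (f y * (-b * (2 * y))) y := by
      have h2 : HasDerivAt (fun y : ℝ => -b * (y : ℂ) ^ 2) (-b * (2 * y)) y := by
        have := (hid.pow 2).const_mul (-b)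
        simpa using this
      exact h2.cexp
    have h3 : HasDerivAt (fun y : ℝ => -2 * b * (y : ℂ)) (-2 * b) y := by
      have := hid.const_mul (-2 * b)
      simpa using this
    have h4 := h1.div h3 (by
      simp only [ne_eq, mul_eq_zero, hb0, hy0, neg_eq_zero, OfNat.ofNat_ne_zero, or_self, not_false_eq_true])
    refine h4.congr_deriv ?_
    field_simp
    ring
  have hint1 : IntervalIntegrable f volume w R := hfcont.intervalIntegrable _ _
  have hcont2 : ContinuousOn (fun y : ℝ => f y / (2 * b * (y : ℂ) ^ 2)) (Set.uIcc w R) := by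
    apply ContinuousOn.div hfcont.continuousOn
    · fun_prop
    · intro y hy
      have hy0 : (y : ℂ) ≠ 0 := by exact_mod_cast (hpos y hy).ne'
      simp [hb0, hy0]
  have hint2 : IntervalIntegrable (fun y : ℝ => f y / (2 * b * (y : ℂ) ^ 2)) volume w R :=
    hcont2.intervalIntegrable
  have hFTC : ∫ y in w..R, (f y + f y / (2 * b * (y : ℂ) ^ 2)) = F R - F w :=
    intervalIntegral.integral_eq_sub_of_hasDerivAt hder (hint1.add hint2)
  rw [intervalIntegral.integral_add hint1 hint2] at hFTC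
  have hkey : ∫ y in w..R, f y = F R - F w - ∫ y in w..R, f y / (2 * b * (y : ℂ) ^ 2) := by
    rw [← hFTC]; ring
  have hR0 : 0 < R := lt_of_lt_of_le hw hR
  have hFn : ∀ y : ℝ, 0 < y → ‖F y‖ ≤ 1 / (2 * ‖b‖) * (1 / y) := by
    intro y hy
    simp only [hF]
    rw [norm_div, norm_mul, norm_mul]
    have : ‖(y : ℂ)‖ = y := by rw [Complex.norm_real, Real.norm_of_nonneg hy.le]
    rw [this]
    simp only [norm_neg, Complex.norm_ofNat]
    rw [div_le_iff₀ (by positivity)]
    have h5 : 1 / (2 * ‖b‖) * (1 / y) * (2 * ‖b‖ * y) = 1 := by field_simp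
    rw [h5]; exact hfn y
  have hI : ‖∫ y in w..R, f y / (2 * b * (y : ℂ) ^ 2)‖ ≤ 1 / (2 * ‖b‖) * (1 / w - 1 / R) := by
    have h1 : ∀ y ∈ Set.Ioc w R, ‖f y / (2 * b * (y : ℂ) ^ 2)‖ ≤ 1 / (2 * ‖b‖) * (1 / y ^ 2) := by
      intro y hy
      have hy0 : 0 < y := lt_trans hw hy.1
      rw [norm_div, norm_mul, norm_mul, norm_pow]
      have : ‖(y : ℂ)‖ = y := by rw [Complex.norm_real, Real.norm_of_nonneg hy0.le]
      rw [this]
      simp only [Complex.norm_ofNat]
      rw [div_le_iff₀ (by positivity)]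
      have h5 : 1 / (2 * ‖b‖) * (1 / y ^ 2) * (2 * ‖b‖ * y ^ 2) = 1 := by field_simp
      rw [h5]; exact hfn y
    have hder2 : ∀ y ∈ Set.uIcc w R, HasDerivAt (fun y : ℝ => 1 / (2 * ‖b‖) * (- (1 / y))) (1 / (2 * ‖b‖) * (1 / y ^ 2)) y := by
      intro y hy
      have hy0 := (hpos y hy).ne'
      have h6 := ((hasDerivAt_inv hy0).neg).const_mul (1 / (2 * ‖b‖))
      simp only [one_div] at h6 ⊢
      refine h6.congr_deriv ?_
      simp
    have hint3 : IntervalIntegrable (fun y : ℝ => 1 / (2 * ‖b‖) * (1 / y ^ 2)) volume w R := by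
      apply ContinuousOn.intervalIntegrable
      apply ContinuousOn.mul continuousOn_const
      apply ContinuousOn.div continuousOn_const (by fun_prop)
      intro y hy
      have := (hpos y hy).ne'
      positivity
    calc ‖∫ y in w..R, f y / (2 * b * (y : ℂ) ^ 2)‖
        ≤ ∫ y in w..R, 1 / (2 * ‖b‖) * (1 / y ^ 2) :=
          intervalIntegral.norm_integral_le_of_norm_le hR
            (Filter.Eventually.of_forall fun y hy => h1 y hy) hint3
      _ = 1 / (2 * ‖b‖) * (1 / w - 1 / R) := by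
          rw [intervalIntegral.integral_eq_sub_of_hasDerivAt hder2 hint3]; ring
  rw [hkey]
  calc ‖F R - F w - ∫ y in w..R, f y / (2 * b * (y : ℂ) ^ 2)‖
      ≤ ‖F R‖ + ‖F w‖ + ‖∫ y in w..R, f y / (2 * b * (y : ℂ) ^ 2)‖ := by
        refine (norm_sub_le _ _).trans ?_
        gcongr
        exact norm_sub_le _ _
    _ ≤ 1 / (2 * ‖b‖) * (1 / R) + 1 / (2 * ‖b‖) * (1 / w) + 1 / (2 * ‖b‖) * (1 / w - 1 / R) := by
        gcongr
        · exact hFn R hR0
        · exact hFn w hw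
    _ = 1 / (‖b‖ * w) := by field_simp; ring

theorem gauss_window (b : ℂ) (hb : 0 < b.re) (w : ℝ) (hw : 0 < w) :
    ‖∫ y in (-w)..w, Complex.exp (-b * (y : ℂ) ^ 2)‖ ≤ √(Real.pi / ‖b‖) + 2 / (‖b‖ * w) := by
  have hb0 : b ≠ 0 := by
    intro h; rw [h] at hb; simp at hb
  set f : ℝ → ℂ := fun y => Complex.exp (-b * (y : ℂ) ^ 2) with hf
  have hfcont : Continuous f := by
    simp only [hf]; fun_prop
  have hlim : Tendsto (fun R : ℝ => ∫ y in (-R)..R, f y) atTop (𝓝 (∫ y : ℝ, f y)) :=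
    intervalIntegral_tendsto_integral (integrable_cexp_neg_mul_sq hb) tendsto_neg_atTop_atBot tendsto_id
  have hval : ‖∫ y : ℝ, f y‖ = √(Real.pi / ‖b‖) := by
    simp only [hf]
    rw [integral_gaussian_complex hb]
    have h1 : (1 / 2 : ℂ) = ((1 / 2 : ℝ) : ℂ) := by push_cast; ring
    rw [h1, Complex.norm_cpow_real, norm_div, Complex.norm_real,
      Real.norm_of_nonneg Real.pi_pos.le, Real.sqrt_eq_rpow]
  have hbn : 0 < ‖b‖ := norm_pos_iff.mpr hb0
  have hR : ∀ R : ℝ, w ≤ R → ‖∫ y in (-w)..w, f y‖ ≤ ‖∫ y in (-R)..R, f y‖ + 2 / (‖b‖ * w) := by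
    intro R hR
    have hii : ∀ a c : ℝ, IntervalIntegrable f volume a c := fun a c => hfcont.intervalIntegrable a c
    have h1 : ∫ y in (-R)..R, f y
        = (∫ y in (-R)..(-w), f y) + (∫ y in (-w)..w, f y) + ∫ y in w..R, f y := by
      rw [intervalIntegral.integral_add_adjacent_intervals (hii _ _) (hii _ _),
        intervalIntegral.integral_add_adjacent_intervals (hii _ _) (hii _ _)]
    have h2 : ∫ y in (-R)..(-w), f y = ∫ y in w..R, f y := by
      rw [← intervalIntegral.integral_comp_neg (a := w) (b := R)]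
      refine intervalIntegral.integral_congr fun y _ => ?_
      simp only [hf]
      congr 1
      push_cast; ring
    have h3 := gauss_tail b hb w R hw hR
    have h4 : ∫ y in (-w)..w, f y
        = (∫ y in (-R)..R, f y) - (∫ y in w..R, f y) - ∫ y in w..R, f y := by
      rw [h1, h2]; ring
    rw [h4]
    calc ‖(∫ y in (-R)..R, f y) - (∫ y in w..R, f y) - ∫ y in w..R, f y‖
        ≤ ‖∫ y in (-R)..R, f y‖ + ‖∫ y in w..R, f y‖ + ‖∫ y in w..R, f y‖ := by
          refine (norm_sub_le _ _).trans ?_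
          gcongr
          exact norm_sub_le _ _
      _ ≤ ‖∫ y in (-R)..R, f y‖ + 1 / (‖b‖ * w) + 1 / (‖b‖ * w) := by
          gcongr
      _ = ‖∫ y in (-R)..R, f y‖ + 2 / (‖b‖ * w) := by ring
  have hlim2 : Tendsto (fun R : ℝ => ‖∫ y in (-R)..R, f y‖ + 2 / (‖b‖ * w)) atTop
      (𝓝 (‖∫ y : ℝ, f y‖ + 2 / (‖b‖ * w))) := (hlim.norm).add_const _
  rw [← hval]
  refine ge_of_tendsto hlim2 ?_
  filter_upwards [Filter.eventually_ge_atTop w] with R hRw
  exact hR R hRw

/-- Truncated Fresnel integral, with the sharp leading constant. -/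
theorem fresnel_window (lam w : ℝ) (hlam : 0 < lam) (hw : 0 < w) :
    ‖∫ y in (-w)..w, Complex.exp (((Real.pi * lam * y ^ 2 : ℝ) : ℂ) * Complex.I)‖
      ≤ 1 / √lam + 2 / (Real.pi * lam * w) := by
  set G : ℝ → ℝ → ℂ := fun ε y =>
    Complex.exp (-((ε : ℂ) - ((Real.pi * lam : ℝ) : ℂ) * Complex.I) * (y : ℂ) ^ 2) with hG
  have hcont : Continuous (fun ε : ℝ => ∫ y in (-w)..w, G ε y) := by
    apply intervalIntegral.continuous_parametric_intervalIntegral_of_continuous'
    simp only [hG]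
    fun_prop
  have h0 : ∀ y : ℝ, Complex.exp (((Real.pi * lam * y ^ 2 : ℝ) : ℂ) * Complex.I) = G 0 y := by
    intro y
    simp only [hG]
    congr 1
    push_cast; ring
  have hle : ∀ ε : ℝ, 0 < ε → ‖∫ y in (-w)..w, G ε y‖ ≤ 1 / √lam + 2 / (Real.pi * lam * w) := by
    intro ε hε
    have hb : 0 < ((ε : ℂ) - ((Real.pi * lam : ℝ) : ℂ) * Complex.I).re := by simpa using hε
    have h1 := gauss_window _ hb w hw
    have hn : Real.pi * lam ≤ ‖(ε : ℂ) - ((Real.pi * lam : ℝ) : ℂ) * Complex.I‖ := by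
      have h2 := Complex.abs_im_le_norm ((ε : ℂ) - ((Real.pi * lam : ℝ) : ℂ) * Complex.I)
      have h3 : ((ε : ℂ) - ((Real.pi * lam : ℝ) : ℂ) * Complex.I).im = - (Real.pi * lam) := by
        simp
      rw [h3, abs_neg, abs_of_pos (by positivity)] at h2
      exact h2
    have hpl : 0 < Real.pi * lam := by positivity
    refine h1.trans ?_
    apply add_le_add
    · have h4 : Real.pi / ‖(ε : ℂ) - ((Real.pi * lam : ℝ) : ℂ) * Complex.I‖ ≤ 1 / lam := by
        calc Real.pi / ‖(ε : ℂ) - ((Real.pi * lam : ℝ) : ℂ) * Complex.I‖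
            ≤ Real.pi / (Real.pi * lam) := by gcongr
          _ = 1 / lam := by field_simp
      calc √(Real.pi / ‖(ε : ℂ) - ((Real.pi * lam : ℝ) : ℂ) * Complex.I‖)
          ≤ √(1 / lam) := Real.sqrt_le_sqrt h4
        _ = 1 / √lam := by rw [Real.sqrt_div' _ hlam.le, Real.sqrt_one]
    · gcongr
  have hlim : Tendsto (fun ε : ℝ => ‖∫ y in (-w)..w, G ε y‖) (𝓝[>] 0)
      (𝓝 ‖∫ y in (-w)..w, G 0 y‖) := by
    have := (hcont.norm).tendsto 0
    exact this.mono_left nhdsWithin_le_nhds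
  have hfin : ‖∫ y in (-w)..w, G 0 y‖ ≤ 1 / √lam + 2 / (Real.pi * lam * w) := by
    refine le_of_tendsto hlim ?_
    filter_upwards [self_mem_nhdsWithin] with ε hε
    exact hle ε hε
  simp only [h0]
  exact hfin

end Pool.Agent.Lib.MP_f8d220_an
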