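import Mathlib
import Pool.Agent.Lib.MP_f8d220_an.Fresnel

set_option autoImplicit false

namespace Pool.Agent.Lib.MP_f8d220_an

open MeasureTheory intervalIntegral Filter Topology

/-- the oscillating exponential `exp (2 π i ν φ)` -/
noncomputable def osc (ν : ℝ) (φ : ℝ → ℝ) (t : ℝ) : ℂ :=
  Complex.exp (((2 * Real.pi * ν * φ t : ℝ) : ℂ) * Complex.I)

theorem norm_osc (ν : ℝ) (φ : ℝ → ℝ) (t : ℝ) : ‖osc ν φ t‖ = 1 := by
  rw [osc, Complex.norm_exp_ofReal_mul_I]

theorem conj_osc (ν : ℝ) (φ : ℝ → ℝ) (t : ℝ) :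
    (starRingEnd ℂ) (osc ν φ t) = osc ν (fun s => - φ s) t := by
  rw [osc, osc, ← Complex.exp_conj]
  congr 1
  rw [map_mul, Complex.conj_I, Complex.conj_ofReal]
  push_cast; ring

theorem hasDerivAt_osc (ν : ℝ) (φ : ℝ → ℝ) (y t : ℝ) (h : HasDerivAt φ y t) :
    HasDerivAt (osc ν φ) (osc ν φ t * ((2 * Real.pi * ν * y : ℝ) * Complex.I)) t := by
  have h1 : HasDerivAt (fun s => 2 * Real.pi * ν * φ s) (2 * Real.pi * ν * y) t :=
    h.const_mul _
  have h2 := (h1.ofReal_comp.mul_const Complex.I).cexp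
  exact h2

theorem continuousOn_osc (ν : ℝ) (φ : ℝ → ℝ) (s : Set ℝ) (h : ContinuousOn φ s) :
    ContinuousOn (osc ν φ) s := by
  unfold osc
  fun_prop

theorem norm_integral_osc_neg (ν : ℝ) (φ : ℝ → ℝ) (a b : ℝ) :
    ‖∫ t in a..b, osc ν (fun s => - φ s) t‖ = ‖∫ t in a..b, osc ν φ t‖ := by
  have h : ∫ t in a..b, osc ν (fun s => - φ s) t = (starRingEnd ℂ) (∫ t in a..b, osc ν φ t) := by
    simp_rw [← conj_osc]
    rw [intervalIntegral.intervalIntegral_eq_integral_uIoc,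
      intervalIntegral.intervalIntegral_eq_integral_uIoc]
    rw [integral_conj]
    split_ifs <;> simp
  rw [h, RCLike.norm_conj]

/-- One integration by parts. -/
theorem osc_ibp (ν : ℝ) (hν : 0 < ν) (φ y y' : ℝ → ℝ) (a b : ℝ) (hab : a ≤ b)
    (hφ : ∀ t ∈ Set.Icc a b, HasDerivAt φ (y t) t)
    (hy : ∀ t ∈ Set.Icc a b, HasDerivAt y (y' t) t)
    (hy' : ContinuousOn y' (Set.Icc a b))
    (hne : ∀ t ∈ Set.Icc a b, y t ≠ 0) :
    ∫ t in a..b, osc ν φ t = (1 / ((2 * Real.pi * ν : ℝ) * Complex.I)) *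
      (osc ν φ b / (y b : ℂ) - osc ν φ a / (y a : ℂ)
        + ∫ t in a..b, osc ν φ t * ((y' t / (y t) ^ 2 : ℝ) : ℂ)) := by
  have hφc : ContinuousOn φ (Set.Icc a b) := fun t ht => (hφ t ht).continuousAt.continuousWithinAt
  have hyc : ContinuousOn y (Set.Icc a b) := fun t ht => (hy t ht).continuousAt.continuousWithinAt
  have hosc := continuousOn_osc ν φ _ hφc
  have hder : ∀ t ∈ Set.uIcc a b, HasDerivAt (fun t => osc ν φ t / (y t : ℂ))
      (osc ν φ t * ((2 * Real.pi * ν : ℝ) * Complex.I)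
        - osc ν φ t * ((y' t / (y t) ^ 2 : ℝ) : ℂ)) t := by
    intro t ht
    rw [Set.uIcc_of_le hab] at ht
    have h1 := (hasDerivAt_osc ν φ (y t) t (hφ t ht)).div ((hy t ht).ofReal_comp)
      (by exact_mod_cast hne t ht)
    refine h1.congr_deriv ?_
    have hyt : (y t : ℂ) ≠ 0 := by exact_mod_cast hne t ht
    push_cast
    field_simp
  have hc1 : ContinuousOn (fun t => osc ν φ t * ((2 * Real.pi * ν : ℝ) * Complex.I))
      (Set.uIcc a b) := by
    rw [Set.uIcc_of_le hab]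
    exact hosc.mul continuousOn_const
  have hc2 : ContinuousOn (fun t => osc ν φ t * ((y' t / (y t) ^ 2 : ℝ) : ℂ)) (Set.uIcc a b) := by
    rw [Set.uIcc_of_le hab]
    refine hosc.mul (Complex.continuous_ofReal.comp_continuousOn ?_)
    exact hy'.div (hyc.pow 2) fun t ht => pow_ne_zero 2 (hne t ht)
  have hi1 : IntervalIntegrable _ volume a b := hc1.intervalIntegrable
  have hi2 : IntervalIntegrable _ volume a b := hc2.intervalIntegrable
  have hFTC := intervalIntegral.integral_eq_sub_of_hasDerivAt hder (hi1.sub hi2)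
  rw [intervalIntegral.integral_sub hi1 hi2, intervalIntegral.integral_mul_const] at hFTC
  have hcne : (((2 * Real.pi * ν : ℝ) : ℂ) * Complex.I) ≠ 0 := by
    have : (2 * Real.pi * ν : ℝ) ≠ 0 := by positivity
    exact mul_ne_zero (by exact_mod_cast this) Complex.I_ne_zero
  rw [← hFTC, sub_add_cancel, one_div, mul_comm, mul_assoc, mul_inv_cancel₀ hcne, mul_one]

theorem norm_two_pi_I (ν : ℝ) (hν : 0 < ν) :
    ‖(1 / (((2 * Real.pi * ν : ℝ) : ℂ) * Complex.I))‖ = 1 / (2 * Real.pi * ν) := by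
  rw [norm_div, norm_mul, Complex.norm_I, mul_one, Complex.norm_real, norm_one,
    Real.norm_of_nonneg (by positivity)]

/-- First derivative test: `φ' = y ≥ w > 0`, `y` monotone or antitone. -/
theorem osc_first (ν : ℝ) (hν : 0 < ν) (φ y y' : ℝ → ℝ) (a b w : ℝ) (hab : a ≤ b) (hw : 0 < w)
    (hφ : ∀ t ∈ Set.Icc a b, HasDerivAt φ (y t) t)
    (hy : ∀ t ∈ Set.Icc a b, HasDerivAt y (y' t) t)
    (hy' : ContinuousOn y' (Set.Icc a b))
    (hsign : (∀ t ∈ Set.Icc a b, 0 ≤ y' t) ∨ (∀ t ∈ Set.Icc a b, y' t ≤ 0))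
    (hyw : ∀ t ∈ Set.Icc a b, w ≤ y t) :
    ‖∫ t in a..b, osc ν φ t‖ ≤ 1 / (Real.pi * ν * w) := by
  have hypos : ∀ t ∈ Set.Icc a b, 0 < y t := fun t ht => lt_of_lt_of_le hw (hyw t ht)
  have hne : ∀ t ∈ Set.Icc a b, y t ≠ 0 := fun t ht => (hypos t ht).ne'
  have hyc : ContinuousOn y (Set.Icc a b) := fun t ht => (hy t ht).continuousAt.continuousWithinAt
  have ha : a ∈ Set.Icc a b := ⟨le_rfl, hab⟩
  have hb : b ∈ Set.Icc a b := ⟨hab, le_rfl⟩
  rw [osc_ibp ν hν φ y y' a b hab hφ hy hy' hne, norm_mul, norm_two_pi_I ν hν]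
  have hcont : ContinuousOn (fun t => y' t / (y t) ^ 2) (Set.uIcc a b) := by
    rw [Set.uIcc_of_le hab]
    exact hy'.div (hyc.pow 2) fun t ht => pow_ne_zero 2 (hne t ht)
  have hder : ∀ t ∈ Set.uIcc a b, HasDerivAt (fun t => - (1 / y t)) (y' t / (y t) ^ 2) t := by
    intro t ht
    rw [Set.uIcc_of_le hab] at ht
    have := ((hy t ht).inv (hne t ht)).neg
    simp only [one_div]
    refine this.congr_deriv ?_
    ring
  have hint : ∫ t in a..b, y' t / (y t) ^ 2 = 1 / y a - 1 / y b := by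
    rw [intervalIntegral.integral_eq_sub_of_hasDerivAt hder hcont.intervalIntegrable]; ring
  have hI : ‖∫ t in a..b, osc ν φ t * ((y' t / (y t) ^ 2 : ℝ) : ℂ)‖ ≤ |1 / y a - 1 / y b| := by
    have h1 : ‖∫ t in a..b, osc ν φ t * ((y' t / (y t) ^ 2 : ℝ) : ℂ)‖
        ≤ ∫ t in a..b, |y' t / (y t) ^ 2| := by
      refine intervalIntegral.norm_integral_le_of_norm_le hab
        (Filter.Eventually.of_forall fun t _ => ?_) hcont.abs.intervalIntegrable
      rw [norm_mul, norm_osc, one_mul, Complex.norm_real, Real.norm_eq_abs]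
    refine h1.trans ?_
    rcases hsign with hs | hs
    · have h2 : ∫ t in a..b, |y' t / (y t) ^ 2| = ∫ t in a..b, y' t / (y t) ^ 2 := by
        refine intervalIntegral.integral_congr fun t ht => ?_
        rw [Set.uIcc_of_le hab] at ht
        exact abs_of_nonneg (div_nonneg (hs t ht) (by positivity))
      rw [h2, hint]
      exact le_abs_self _
    · have h2 : ∫ t in a..b, |y' t / (y t) ^ 2| = ∫ t in a..b, - (y' t / (y t) ^ 2) := by
        refine intervalIntegral.integral_congr fun t ht => ?_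
        rw [Set.uIcc_of_le hab] at ht
        exact abs_of_nonpos (div_nonpos_of_nonpos_of_nonneg (hs t ht) (by positivity))
      rw [h2, intervalIntegral.integral_neg, hint]
      exact neg_le_abs _
  have hya := hyw a ha
  have hyb := hyw b hb
  have hya' : 1 / y a ≤ 1 / w := one_div_le_one_div_of_le hw hya
  have hyb' : 1 / y b ≤ 1 / w := one_div_le_one_div_of_le hw hyb
  have hya0 : 0 < 1 / y a := one_div_pos.mpr (hypos a ha)
  have hyb0 : 0 < 1 / y b := one_div_pos.mpr (hypos b hb)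
  have hB : ‖osc ν φ b / (y b : ℂ)‖ = 1 / y b := by
    rw [norm_div, norm_osc, Complex.norm_real, Real.norm_of_nonneg (hypos b hb).le]
  have hA : ‖osc ν φ a / (y a : ℂ)‖ = 1 / y a := by
    rw [norm_div, norm_osc, Complex.norm_real, Real.norm_of_nonneg (hypos a ha).le]
  have htot : ‖osc ν φ b / (y b : ℂ) - osc ν φ a / (y a : ℂ)
        + ∫ t in a..b, osc ν φ t * ((y' t / (y t) ^ 2 : ℝ) : ℂ)‖ ≤ 2 / w := by
    refine (norm_add_le _ _).trans ?_
    have h3 := norm_sub_le (osc ν φ b / (y b : ℂ)) (osc ν φ a / (y a : ℂ))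
    rw [hA, hB] at h3
    have h4 : 1 / y b + 1 / y a + |1 / y a - 1 / y b| ≤ 2 / w := by
      have h5 : (2 : ℝ) / w = 1 / w + 1 / w := by ring
      rw [h5]
      rcases abs_cases (1 / y a - 1 / y b) with ⟨h, _⟩ | ⟨h, _⟩ <;> rw [h] <;> linarith
    linarith
  calc 1 / (2 * Real.pi * ν) * ‖osc ν φ b / (y b : ℂ) - osc ν φ a / (y a : ℂ)
        + ∫ t in a..b, osc ν φ t * ((y' t / (y t) ^ 2 : ℝ) : ℂ)‖
      ≤ 1 / (2 * Real.pi * ν) * (2 / w) := by
        apply mul_le_mul_of_nonneg_left htot (by positivity)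
    _ = 1 / (Real.pi * ν * w) := by field_simp

/-- First derivative test, negative side. -/
theorem osc_first_neg (ν : ℝ) (hν : 0 < ν) (φ y y' : ℝ → ℝ) (a b w : ℝ) (hab : a ≤ b) (hw : 0 < w)
    (hφ : ∀ t ∈ Set.Icc a b, HasDerivAt φ (y t) t)
    (hy : ∀ t ∈ Set.Icc a b, HasDerivAt y (y' t) t)
    (hy' : ContinuousOn y' (Set.Icc a b))
    (hsign : (∀ t ∈ Set.Icc a b, 0 ≤ y' t) ∨ (∀ t ∈ Set.Icc a b, y' t ≤ 0))
    (hyw : ∀ t ∈ Set.Icc a b, y t ≤ -w) :
    ‖∫ t in a..b, osc ν φ t‖ ≤ 1 / (Real.pi * ν * w) := by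
  rw [← norm_integral_osc_neg]
  refine osc_first ν hν (fun s => - φ s) (fun s => - y s) (fun s => - y' s) a b w hab hw
    (fun t ht => (hφ t ht).neg) (fun t ht => (hy t ht).neg) hy'.neg ?_ ?_
  · rcases hsign with h | h
    · right; intro t ht; have := h t ht; linarith
    · left; intro t ht; have := h t ht; linarith
  · intro t ht; have := hyw t ht; linarith

/-- Second derivative test: the derivative `y` of the phase has slope at least `σ`. -/
theorem osc_second (ν : ℝ) (hν : 0 < ν) (φ y y' : ℝ → ℝ) (a b σ : ℝ) (hab : a ≤ b) (hσ : 0 < σ)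
    (hφ : ∀ t ∈ Set.Icc a b, HasDerivAt φ (y t) t)
    (hy : ∀ t ∈ Set.Icc a b, HasDerivAt y (y' t) t)
    (hy' : ContinuousOn y' (Set.Icc a b))
    (hyσ : ∀ t ∈ Set.Icc a b, σ ≤ y' t) :
    ‖∫ t in a..b, osc ν φ t‖ ≤ 3 / √(σ * ν) := by
  have hyc : ContinuousOn y (Set.Icc a b) := fun t ht => (hy t ht).continuousAt.continuousWithinAt
  have hφc : ContinuousOn φ (Set.Icc a b) := fun t ht => (hφ t ht).continuousAt.continuousWithinAt
  have hσν : 0 < √(σ * ν) := Real.sqrt_pos.mpr (mul_pos hσ hν)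
  set h : ℝ := 1 / √(σ * ν) with hh
  have hhpos : 0 < h := by positivity
  -- growth of y
  have hgrow : ∀ s ∈ Set.Icc a b, ∀ t ∈ Set.Icc a b, s ≤ t → σ * (t - s) ≤ y t - y s := by
    intro s hs t ht hst
    refine Convex.mul_sub_le_image_sub_of_le_deriv (convex_Icc a b) (f := y) hyc ?_ ?_ s hs t ht hst
    · intro x hx
      rw [interior_Icc] at hx
      exact (hy x ⟨hx.1.le, hx.2.le⟩).differentiableAt.differentiableWithinAt
    · intro x hx
      rw [interior_Icc] at hx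
      have hx' : x ∈ Set.Icc a b := ⟨hx.1.le, hx.2.le⟩
      rw [(hy x hx').deriv]
      exact hyσ x hx'
  -- clamped stationary point
  have hex : ∃ t₀ ∈ Set.Icc a b, (t₀ = a ∨ y t₀ ≤ 0) ∧ (t₀ = b ∨ 0 ≤ y t₀) := by
    by_cases h1 : 0 ≤ y a
    · exact ⟨a, ⟨le_rfl, hab⟩, Or.inl rfl, Or.inr h1⟩
    by_cases h2 : y b ≤ 0
    · exact ⟨b, ⟨hab, le_rfl⟩, Or.inr h2, Or.inl rfl⟩
    rw [not_le] at h1 h2
    have := intermediate_value_Icc hab hyc
    obtain ⟨t₀, ht₀, hy0⟩ := this (show (0:ℝ) ∈ Set.Icc (y a) (y b) from ⟨h1.le, h2.le⟩)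
    exact ⟨t₀, ht₀, Or.inr hy0.le, Or.inr hy0.ge⟩
  obtain ⟨t₀, ht₀, hl, hr⟩ := hex
  set p := max a (t₀ - h) with hp
  set q := min b (t₀ + h) with hq
  have hap : a ≤ p := le_max_left _ _
  have hqb : q ≤ b := min_le_left _ _
  have hpt : p ≤ t₀ := max_le ht₀.1 (by linarith)
  have htq : t₀ ≤ q := le_min ht₀.2 (by linarith)
  have hpq : p ≤ q := hpt.trans htq
  have hsig : (∀ t ∈ Set.Icc a b, 0 ≤ y' t) := fun t ht => hσ.le.trans (hyσ t ht)
  have hw : 0 < σ * h := mul_pos hσ hhpos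
  have hval : 1 / (Real.pi * ν * (σ * h)) = 1 / (Real.pi * √(σ * ν)) := by
    rw [hh]
    have h1 : ν * (σ * (1 / √(σ * ν))) = √(σ * ν) := by
      have h2 : √(σ * ν) * √(σ * ν) = σ * ν := Real.mul_self_sqrt (by positivity)
      have h3 : ν * (σ * (1 / √(σ * ν))) = (σ * ν) / √(σ * ν) := by ring
      rw [h3, div_eq_iff hσν.ne', h2]
    rw [mul_assoc, h1]
  -- left piece
  have hL : ‖∫ t in a..p, osc ν φ t‖ ≤ 1 / (Real.pi * √(σ * ν)) := by
    rcases eq_or_lt_of_le hap with hap' | hap'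
    · rw [← hap']; simp; positivity
    · have hpv : p = t₀ - h := by
        rcases max_cases a (t₀ - h) with ⟨h1, _⟩ | ⟨h1, _⟩
        · rw [hp, h1] at hap'; exact absurd hap' (lt_irrefl _)
        · exact h1
      have ht0a : t₀ ≠ a := by
        intro hcon; rw [hpv, hcon] at hap'; linarith
      have hy0 : y t₀ ≤ 0 := by
        rcases hl with h1 | h1
        · exact absurd h1 ht0a
        · exact h1
      have hsub : ∀ t ∈ Set.Icc a p, t ∈ Set.Icc a b := fun t ht =>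
        ⟨ht.1, ht.2.trans (hpq.trans hqb)⟩
      rw [← hval]
      refine osc_first_neg ν hν φ y y' a p (σ * h) hap hw (fun t ht => hφ t (hsub t ht))
        (fun t ht => hy t (hsub t ht)) (hy'.mono hsub) (Or.inl fun t ht => hsig t (hsub t ht)) ?_
      intro t ht
      have h1 := hgrow t (hsub t ht) t₀ ht₀ (ht.2.trans hpt)
      have h2 : h ≤ t₀ - t := by rw [hpv] at ht; linarith [ht.2]
      have h3 : σ * h ≤ σ * (t₀ - t) := mul_le_mul_of_nonneg_left h2 hσ.le
      linarith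
  have hR : ‖∫ t in q..b, osc ν φ t‖ ≤ 1 / (Real.pi * √(σ * ν)) := by
    rcases eq_or_lt_of_le hqb with hqb' | hqb'
    · rw [hqb']; simp; positivity
    · have hqv : q = t₀ + h := by
        rcases min_cases b (t₀ + h) with ⟨h1, _⟩ | ⟨h1, _⟩
        · rw [hq, h1] at hqb'; exact absurd hqb' (lt_irrefl _)
        · exact h1
      have ht0b : t₀ ≠ b := by
        intro hcon; rw [hqv, hcon] at hqb'; linarith
      have hy0 : 0 ≤ y t₀ := by
        rcases hr with h1 | h1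
        · exact absurd h1 ht0b
        · exact h1
      have hsub : ∀ t ∈ Set.Icc q b, t ∈ Set.Icc a b := fun t ht =>
        ⟨(hap.trans hpq).trans ht.1, ht.2⟩
      rw [← hval]
      refine osc_first ν hν φ y y' q b (σ * h) hqb hw (fun t ht => hφ t (hsub t ht))
        (fun t ht => hy t (hsub t ht)) (hy'.mono hsub) (Or.inl fun t ht => hsig t (hsub t ht)) ?_
      intro t ht
      have h1 := hgrow t₀ ht₀ t (hsub t ht) (htq.trans ht.1)
      have h2 : h ≤ t - t₀ := by rw [hqv] at ht; linarith [ht.1]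
      have h3 : σ * h ≤ σ * (t - t₀) := mul_le_mul_of_nonneg_left h2 hσ.le
      linarith
  have hM : ‖∫ t in p..q, osc ν φ t‖ ≤ 2 * h := by
    have h1 : ‖∫ t in p..q, osc ν φ t‖ ≤ 1 * |q - p| :=
      intervalIntegral.norm_integral_le_of_norm_le_const fun t _ => (norm_osc ν φ t).le
    rw [one_mul, abs_of_nonneg (by linarith)] at h1
    have h2 : q ≤ t₀ + h := min_le_right _ _
    have h3 : t₀ - h ≤ p := le_max_right _ _
    linarith
  have hoc := continuousOn_osc ν φ _ hφc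
  have hii : ∀ c d : ℝ, c ∈ Set.Icc a b → d ∈ Set.Icc a b →
      IntervalIntegrable (osc ν φ) volume c d := by
    intro c d hc hd
    apply ContinuousOn.intervalIntegrable
    refine hoc.mono ?_
    exact Set.uIcc_subset_Icc hc hd
  have ha : a ∈ Set.Icc a b := ⟨le_rfl, hab⟩
  have hb : b ∈ Set.Icc a b := ⟨hab, le_rfl⟩
  have hpm : p ∈ Set.Icc a b := ⟨hap, hpq.trans hqb⟩
  have hqm : q ∈ Set.Icc a b := ⟨hap.trans hpq, hqb⟩
  have hsplit : ∫ t in a..b, osc ν φ t = (∫ t in a..p, osc ν φ t) + (∫ t in p..q, osc ν φ t)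
      + ∫ t in q..b, osc ν φ t := by
    rw [intervalIntegral.integral_add_adjacent_intervals (hii _ _ ha hpm) (hii _ _ hpm hqm),
      intervalIntegral.integral_add_adjacent_intervals (hii _ _ ha hqm) (hii _ _ hqm hb)]
  rw [hsplit]
  have hpi : (3 : ℝ) < Real.pi := Real.pi_gt_three
  have hlast : 1 / (Real.pi * √(σ * ν)) ≤ (1 / 2) * h := by
    rw [hh]
    have : 1 / (Real.pi * √(σ * ν)) = (1 / Real.pi) * (1 / √(σ * ν)) := by
      field_simp
    rw [this]
    apply mul_le_mul_of_nonneg_right _ (by positivity)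
    apply one_div_le_one_div_of_le (by norm_num); linarith
  calc ‖(∫ t in a..p, osc ν φ t) + (∫ t in p..q, osc ν φ t) + ∫ t in q..b, osc ν φ t‖
      ≤ ‖∫ t in a..p, osc ν φ t‖ + ‖∫ t in p..q, osc ν φ t‖ + ‖∫ t in q..b, osc ν φ t‖ :=
        norm_add₃_le
    _ ≤ (1 / 2) * h + 2 * h + (1 / 2) * h := by linarith
    _ = 3 / √(σ * ν) := by rw [hh]; ring

end Pool.Agent.Lib.MP_f8d220_an
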