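import Mathlib
import Pool.Agent.Lib.MP_f8d220_an.Osc

set_option autoImplicit false

namespace Pool.Agent.Lib.MP_f8d220_an

open MeasureTheory intervalIntegral Filter Topology

theorem norm_exp_I_sub_le (x y : ℝ) :
    ‖Complex.exp ((x : ℂ) * Complex.I) - Complex.exp ((y : ℂ) * Complex.I)‖ ≤ |x - y| := by
  have h1 : Complex.exp ((x : ℂ) * Complex.I) - Complex.exp ((y : ℂ) * Complex.I)
      = Complex.exp ((y : ℂ) * Complex.I) * (Complex.exp (((x - y : ℝ) : ℂ) * Complex.I) - 1) := by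
    rw [mul_sub, mul_one, ← Complex.exp_add]
    congr 2
    push_cast; ring
  rw [h1, norm_mul, Complex.norm_exp_ofReal_mul_I, one_mul, mul_comm _ Complex.I]
  simpa using Real.norm_exp_I_mul_ofReal_sub_one_le (x := x - y)

/-- Sharp estimate on a window around the stationary point. -/
theorem osc_window (ν : ℝ) (hν : 0 < ν) (φ y y' : ℝ → ℝ) (t₀ W lam X2 : ℝ) (hW : 0 < W)
    (hlam : 0 < lam)
    (hφ : ∀ t ∈ Set.Icc (t₀ - W) (t₀ + W), HasDerivAt φ (y t) t)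
    (hy : ∀ t ∈ Set.Icc (t₀ - W) (t₀ + W), HasDerivAt y (y' t) t)
    (hy0 : y t₀ = 0)
    (hX : ∀ t ∈ Set.Icc (t₀ - W) (t₀ + W), |y' t - lam| ≤ X2 * W) :
    ‖∫ t in (t₀ - W)..(t₀ + W), osc ν φ t‖ ≤
      1 / √(ν * lam) + 2 / (Real.pi * (ν * lam) * W) + 4 * Real.pi * ν * X2 * W ^ 4 := by
  have ht₀ : t₀ ∈ Set.Icc (t₀ - W) (t₀ + W) := ⟨by linarith, by linarith⟩
  have hX2 : 0 ≤ X2 := by
    have := hX t₀ ht₀
    have h1 := (abs_nonneg _).trans this
    by_contra hneg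
    rw [not_le] at hneg
    nlinarith
  set ψ : ℝ → ℝ := fun t => φ t₀ + lam * (t - t₀) ^ 2 / 2 with hψ
  have hconv : Convex ℝ (Set.Icc (t₀ - W) (t₀ + W)) := convex_Icc _ _
  have habs : ∀ t ∈ Set.Icc (t₀ - W) (t₀ + W), |t - t₀| ≤ W := by
    intro t ht; rw [abs_le]; constructor <;> linarith [ht.1, ht.2]
  have hk : ∀ t ∈ Set.Icc (t₀ - W) (t₀ + W), |y t - lam * (t - t₀)| ≤ X2 * W ^ 2 := by
    intro t ht
    have h1 : ∀ s ∈ Set.Icc (t₀ - W) (t₀ + W),
        HasDerivWithinAt (fun s => y s - lam * (s - t₀)) (y' s - lam) (Set.Icc (t₀ - W) (t₀ + W)) s := by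
      intro s hs
      have h2 : HasDerivAt (fun s : ℝ => lam * (s - t₀)) lam s := by
        simpa using ((hasDerivAt_id s).sub_const t₀).const_mul lam
      exact ((hy s hs).sub h2).hasDerivWithinAt
    have h3 := hconv.norm_image_sub_le_of_norm_hasDerivWithin_le h1
      (fun s hs => by rw [Real.norm_eq_abs]; exact hX s hs) ht₀ ht
    simp only [hy0, sub_self, mul_zero, sub_zero, Real.norm_eq_abs] at h3
    calc |y t - lam * (t - t₀)| ≤ X2 * W * |t - t₀| := h3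
      _ ≤ X2 * W * W := by
        apply mul_le_mul_of_nonneg_left (habs t ht) (by positivity)
      _ = X2 * W ^ 2 := by ring
  have hh : ∀ t ∈ Set.Icc (t₀ - W) (t₀ + W), |φ t - ψ t| ≤ X2 * W ^ 3 := by
    intro t ht
    have h1 : ∀ s ∈ Set.Icc (t₀ - W) (t₀ + W),
        HasDerivWithinAt (fun s => φ s - ψ s) (y s - lam * (s - t₀)) (Set.Icc (t₀ - W) (t₀ + W)) s := by
      intro s hs
      have h2 : HasDerivAt ψ (lam * (s - t₀)) s := by
        have h4 : HasDerivAt (fun s : ℝ => (s - t₀) ^ 2) (2 * (s - t₀)) s := by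
          have := ((hasDerivAt_id s).sub_const t₀).pow 2
          exact this.congr_deriv (by simp)
        have h5 := ((h4.const_mul lam).div_const 2).const_add (φ t₀)
        refine h5.congr_deriv ?_
        ring
      exact ((hφ s hs).sub h2).hasDerivWithinAt
    have h3 := hconv.norm_image_sub_le_of_norm_hasDerivWithin_le h1
      (fun s hs => by rw [Real.norm_eq_abs]; exact hk s hs) ht₀ ht
    have h4 : φ t₀ - ψ t₀ = 0 := by simp [hψ]
    simp only [h4, sub_zero, Real.norm_eq_abs] at h3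
    calc |φ t - ψ t| ≤ X2 * W ^ 2 * |t - t₀| := h3
      _ ≤ X2 * W ^ 2 * W := by
        apply mul_le_mul_of_nonneg_left (habs t ht) (by positivity)
      _ = X2 * W ^ 3 := by ring
  have hφc : ContinuousOn φ (Set.Icc (t₀ - W) (t₀ + W)) :=
    fun t ht => (hφ t ht).continuousAt.continuousWithinAt
  have hψc : Continuous ψ := by simp only [hψ]; fun_prop
  have hle : t₀ - W ≤ t₀ + W := by linarith
  have hi1 : IntervalIntegrable (osc ν φ) volume (t₀ - W) (t₀ + W) := by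
    apply ContinuousOn.intervalIntegrable
    rw [Set.uIcc_of_le hle]
    exact continuousOn_osc ν φ _ hφc
  have hi2 : IntervalIntegrable (osc ν ψ) volume (t₀ - W) (t₀ + W) := by
    apply ContinuousOn.intervalIntegrable
    exact continuousOn_osc ν ψ _ hψc.continuousOn
  have hdiff : ‖∫ t in (t₀ - W)..(t₀ + W), (osc ν φ t - osc ν ψ t)‖
      ≤ 4 * Real.pi * ν * X2 * W ^ 4 := by
    have h1 : ‖∫ t in (t₀ - W)..(t₀ + W), (osc ν φ t - osc ν ψ t)‖
        ≤ (2 * Real.pi * ν * (X2 * W ^ 3)) * |(t₀ + W) - (t₀ - W)| := by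
      apply intervalIntegral.norm_integral_le_of_norm_le_const
      intro t ht
      rw [Set.uIoc_of_le hle] at ht
      have ht' : t ∈ Set.Icc (t₀ - W) (t₀ + W) := ⟨ht.1.le, ht.2⟩
      have h2 := norm_exp_I_sub_le (2 * Real.pi * ν * φ t) (2 * Real.pi * ν * ψ t)
      rw [osc, osc]
      refine h2.trans ?_
      rw [← mul_sub, abs_mul, abs_of_nonneg (by positivity)]
      exact mul_le_mul_of_nonneg_left (hh t ht') (by positivity)
    refine h1.trans_eq ?_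
    have : |(t₀ + W) - (t₀ - W)| = 2 * W := by
      rw [abs_of_nonneg (by linarith)]; ring
    rw [this]; ring
  have hmain : ‖∫ t in (t₀ - W)..(t₀ + W), osc ν ψ t‖
      ≤ 1 / √(ν * lam) + 2 / (Real.pi * (ν * lam) * W) := by
    have h1 : ∫ t in (t₀ - W)..(t₀ + W), osc ν ψ t
        = Complex.exp (((2 * Real.pi * ν * φ t₀ : ℝ) : ℂ) * Complex.I) *
          ∫ s in (-W)..W, Complex.exp (((Real.pi * (ν * lam) * s ^ 2 : ℝ) : ℂ) * Complex.I) := by
      have h2 : ∫ t in (t₀ - W)..(t₀ + W), osc ν ψ t = ∫ s in (-W)..W, osc ν ψ (s + t₀) := by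
        rw [intervalIntegral.integral_comp_add_right (fun t => osc ν ψ t) t₀]
        congr 1 <;> ring
      rw [h2, ← intervalIntegral.integral_const_mul]
      refine intervalIntegral.integral_congr fun s _ => ?_
      simp only [osc, hψ]
      rw [← Complex.exp_add]
      congr 1
      push_cast; ring
    rw [h1, norm_mul, Complex.norm_exp_ofReal_mul_I, one_mul]
    exact fresnel_window (ν * lam) W (by positivity) hW
  have hsplit : ∫ t in (t₀ - W)..(t₀ + W), osc ν φ t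
      = (∫ t in (t₀ - W)..(t₀ + W), osc ν ψ t)
        + ∫ t in (t₀ - W)..(t₀ + W), (osc ν φ t - osc ν ψ t) := by
    rw [intervalIntegral.integral_sub hi1 hi2]; ring
  rw [hsplit]
  exact (norm_add_le _ _).trans (add_le_add hmain hdiff)

/-- Two integrations by parts away from stationary points. -/
theorem osc_double (ν : ℝ) (hν : 0 < ν) (φ y y' y'' : ℝ → ℝ) (a b d Y1 Y2 : ℝ) (hab : a ≤ b)
    (hd : 0 < d)
    (hφ : ∀ t ∈ Set.Icc a b, HasDerivAt φ (y t) t)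
    (hy : ∀ t ∈ Set.Icc a b, HasDerivAt y (y' t) t)
    (hy' : ∀ t ∈ Set.Icc a b, HasDerivAt y' (y'' t) t)
    (hy'' : ContinuousOn y'' (Set.Icc a b))
    (hyd : ∀ t ∈ Set.Icc a b, d ≤ |y t|)
    (hY1 : ∀ t ∈ Set.Icc a b, |y' t| ≤ Y1)
    (hY2 : ∀ t ∈ Set.Icc a b, |y'' t| ≤ Y2) :
    ‖(∫ t in a..b, osc ν φ t) - (1 / (((2 * Real.pi * ν : ℝ) : ℂ) * Complex.I)) *
      (osc ν φ b / (y b : ℂ) - osc ν φ a / (y a : ℂ))‖ ≤
      (1 / (2 * Real.pi * ν)) ^ 2 * (2 * Y1 / d ^ 3 + (b - a) * (Y2 / d ^ 3 + 3 * Y1 ^ 2 / d ^ 4)) := by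
  have hne : ∀ t ∈ Set.Icc a b, y t ≠ 0 := by
    intro t ht h0
    have := hyd t ht
    rw [h0, abs_zero] at this; linarith
  have hyc : ContinuousOn y (Set.Icc a b) := fun t ht => (hy t ht).continuousAt.continuousWithinAt
  have hy'c : ContinuousOn y' (Set.Icc a b) := fun t ht => (hy' t ht).continuousAt.continuousWithinAt
  have hφc : ContinuousOn φ (Set.Icc a b) := fun t ht => (hφ t ht).continuousAt.continuousWithinAt
  have hosc := continuousOn_osc ν φ _ hφc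
  have ha : a ∈ Set.Icc a b := ⟨le_rfl, hab⟩
  have hb : b ∈ Set.Icc a b := ⟨hab, le_rfl⟩
  set c : ℂ := (((2 * Real.pi * ν : ℝ) : ℂ) * Complex.I) with hc
  have hcne : c ≠ 0 := by
    have : (2 * Real.pi * ν : ℝ) ≠ 0 := by positivity
    exact mul_ne_zero (by exact_mod_cast this) Complex.I_ne_zero
  have hcn : ‖1 / c‖ = 1 / (2 * Real.pi * ν) := norm_two_pi_I ν hν
  rw [osc_ibp ν hν φ y y' a b hab hφ hy hy'c hne, ← hc, ← mul_sub, add_sub_cancel_left,
    norm_mul, hcn]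
  have hder : ∀ t ∈ Set.uIcc a b, HasDerivAt (fun t => osc ν φ t * ((y' t / (y t) ^ 3 : ℝ) : ℂ))
      (c * (osc ν φ t * ((y' t / (y t) ^ 2 : ℝ) : ℂ)) +
        osc ν φ t * ((y'' t / (y t) ^ 3 - 3 * (y' t) ^ 2 / (y t) ^ 4 : ℝ) : ℂ)) t := by
    intro t ht
    rw [Set.uIcc_of_le hab] at ht
    have hyt := hne t ht
    have h1 : HasDerivAt (fun t => y' t / (y t) ^ 3)
        (y'' t / (y t) ^ 3 - 3 * (y' t) ^ 2 / (y t) ^ 4) t := by
      have h2 := (hy' t ht).div ((hy t ht).pow 3) (pow_ne_zero 3 hyt)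
      refine h2.congr_deriv ?_
      simp only [Pi.pow_apply]
      field_simp
      push_cast
      ring
    have h3 := (hasDerivAt_osc ν φ (y t) t (hφ t ht)).mul h1.ofReal_comp
    refine h3.congr_deriv ?_
    have hyt' : (y t : ℂ) ≠ 0 := by exact_mod_cast hyt
    rw [hc]
    push_cast
    field_simp
  have hc2 : ContinuousOn (fun t => osc ν φ t * ((y' t / (y t) ^ 2 : ℝ) : ℂ)) (Set.uIcc a b) := by
    rw [Set.uIcc_of_le hab]
    refine hosc.mul (Complex.continuous_ofReal.comp_continuousOn ?_)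
    exact hy'c.div (hyc.pow 2) fun t ht => pow_ne_zero 2 (hne t ht)
  have hcr : ContinuousOn (fun t => y'' t / (y t) ^ 3 - 3 * (y' t) ^ 2 / (y t) ^ 4) (Set.Icc a b) := by
    refine (hy''.div (hyc.pow 3) fun t ht => pow_ne_zero 3 (hne t ht)).sub ?_
    exact (continuousOn_const.mul (hy'c.pow 2)).div (hyc.pow 4) fun t ht => pow_ne_zero 4 (hne t ht)
  have hc3 : ContinuousOn (fun t => osc ν φ t *
      ((y'' t / (y t) ^ 3 - 3 * (y' t) ^ 2 / (y t) ^ 4 : ℝ) : ℂ)) (Set.uIcc a b) := by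
    rw [Set.uIcc_of_le hab]
    exact hosc.mul (Complex.continuous_ofReal.comp_continuousOn hcr)
  have hi2 : IntervalIntegrable _ volume a b := hc2.intervalIntegrable
  have hi3 : IntervalIntegrable _ volume a b := hc3.intervalIntegrable
  have hFTC := intervalIntegral.integral_eq_sub_of_hasDerivAt hder ((hi2.const_mul c).add hi3)
  rw [intervalIntegral.integral_add (hi2.const_mul c) hi3, intervalIntegral.integral_const_mul] at hFTC
  have hJ : ∫ t in a..b, osc ν φ t * ((y' t / (y t) ^ 2 : ℝ) : ℂ)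
      = (1 / c) * (osc ν φ b * ((y' b / (y b) ^ 3 : ℝ) : ℂ) - osc ν φ a * ((y' a / (y a) ^ 3 : ℝ) : ℂ)
        - ∫ t in a..b, osc ν φ t *
          ((y'' t / (y t) ^ 3 - 3 * (y' t) ^ 2 / (y t) ^ 4 : ℝ) : ℂ)) := by
    rw [← hFTC, add_sub_cancel_right, one_div, inv_mul_cancel_left₀ hcne]
  rw [hJ, norm_mul, hcn]
  have hY1n : 0 ≤ Y1 := (abs_nonneg _).trans (hY1 a ha)
  have hY2n : 0 ≤ Y2 := (abs_nonneg _).trans (hY2 a ha)
  have hb3 : ∀ t ∈ Set.Icc a b, ‖osc ν φ t * ((y' t / (y t) ^ 3 : ℝ) : ℂ)‖ ≤ Y1 / d ^ 3 := by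
    intro t ht
    rw [norm_mul, norm_osc, one_mul, Complex.norm_real, Real.norm_eq_abs, abs_div, abs_pow]
    have := hyd t ht
    have h1 := hY1 t ht
    gcongr
  have hint : ‖∫ t in a..b, osc ν φ t *
          ((y'' t / (y t) ^ 3 - 3 * (y' t) ^ 2 / (y t) ^ 4 : ℝ) : ℂ)‖
      ≤ (Y2 / d ^ 3 + 3 * Y1 ^ 2 / d ^ 4) * |b - a| := by
    apply intervalIntegral.norm_integral_le_of_norm_le_const
    intro t ht
    rw [Set.uIoc_of_le hab] at ht
    have ht' : t ∈ Set.Icc a b := ⟨ht.1.le, ht.2⟩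
    rw [norm_mul, norm_osc, one_mul, Complex.norm_real, Real.norm_eq_abs]
    have h0 := hyd t ht'
    have h1 := hY1 t ht'
    have h2 := hY2 t ht'
    calc |y'' t / (y t) ^ 3 - 3 * (y' t) ^ 2 / (y t) ^ 4|
        ≤ |y'' t / (y t) ^ 3| + |3 * (y' t) ^ 2 / (y t) ^ 4| := abs_sub _ _
      _ = |y'' t| / |y t| ^ 3 + 3 * |y' t| ^ 2 / |y t| ^ 4 := by
          rw [abs_div, abs_pow, abs_div, abs_mul, abs_pow, abs_pow]
          norm_num
      _ ≤ Y2 / d ^ 3 + 3 * Y1 ^ 2 / d ^ 4 := by gcongr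
  rw [abs_of_nonneg (by linarith)] at hint
  have hall : ‖osc ν φ b * ((y' b / (y b) ^ 3 : ℝ) : ℂ) - osc ν φ a * ((y' a / (y a) ^ 3 : ℝ) : ℂ)
        - ∫ t in a..b, osc ν φ t *
          ((y'' t / (y t) ^ 3 - 3 * (y' t) ^ 2 / (y t) ^ 4 : ℝ) : ℂ)‖
      ≤ 2 * Y1 / d ^ 3 + (b - a) * (Y2 / d ^ 3 + 3 * Y1 ^ 2 / d ^ 4) := by
    refine (norm_sub_le _ _).trans ?_
    have h1 := norm_sub_le (osc ν φ b * ((y' b / (y b) ^ 3 : ℝ) : ℂ))
      (osc ν φ a * ((y' a / (y a) ^ 3 : ℝ) : ℂ))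
    have h2 := hb3 a ha
    have h3 := hb3 b hb
    have h4 : 2 * Y1 / d ^ 3 = Y1 / d ^ 3 + Y1 / d ^ 3 := by ring
    rw [h4]
    linarith [mul_comm (b - a) (Y2 / d ^ 3 + 3 * Y1 ^ 2 / d ^ 4)]
  calc 1 / (2 * Real.pi * ν) * (1 / (2 * Real.pi * ν) * _)
      ≤ 1 / (2 * Real.pi * ν) * (1 / (2 * Real.pi * ν) *
        (2 * Y1 / d ^ 3 + (b - a) * (Y2 / d ^ 3 + 3 * Y1 ^ 2 / d ^ 4))) := by
        apply mul_le_mul_of_nonneg_left _ (by positivity)
        exact mul_le_mul_of_nonneg_left hall (by positivity)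
    _ = _ := by ring

end Pool.Agent.Lib.MP_f8d220_an
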