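import Mathlib
import Pool.Agent.Lib.MP_f8d220_an.Osc2

set_option autoImplicit false
set_option linter.unusedSectionVars false

namespace Pool.Agent.Lib.MP_f8d220_an

open MeasureTheory intervalIntegral Filter Topology

/-- cube root on the nonnegative reals -/
noncomputable def cbr (v : ℝ) : ℝ := v ^ (1 / 3 : ℝ)

theorem cbr_pos {v : ℝ} (hv : 0 < v) : 0 < cbr v := Real.rpow_pos_of_pos hv _

theorem cbr_nonneg {v : ℝ} (hv : 0 ≤ v) : 0 ≤ cbr v := Real.rpow_nonneg hv _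

theorem cbr_cube {v : ℝ} (hv : 0 ≤ v) : cbr v ^ 3 = v := by
  rw [cbr, ← Real.rpow_natCast, ← Real.rpow_mul hv]
  norm_num

theorem cbr_le {v a : ℝ} (hv : 0 ≤ v) (ha : 0 ≤ a) (h : v ≤ a ^ 3) : cbr v ≤ a := by
  have h1 : cbr v ^ 3 ≤ a ^ 3 := by rw [cbr_cube hv]; exact h
  exact le_of_pow_le_pow_left₀ (by norm_num) ha h1

theorem le_cbr {v a : ℝ} (hv : 0 ≤ v) (h : a ^ 3 ≤ v) : a ≤ cbr v := by
  have h1 : a ^ 3 ≤ cbr v ^ 3 := by rw [cbr_cube hv]; exact h
  exact le_of_pow_le_pow_left₀ (by norm_num) (cbr_nonneg hv) h1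

theorem hasDerivAt_cbr {v : ℝ} (hv : 0 < v) : HasDerivAt cbr (1 / (3 * cbr v ^ 2)) v := by
  have h1 := Real.hasDerivAt_rpow_const (x := v) (p := (1 / 3 : ℝ)) (Or.inl hv.ne')
  have h2 : (1 / 3 : ℝ) * v ^ ((1 / 3 : ℝ) - 1) = 1 / (3 * cbr v ^ 2) := by
    have h3 : cbr v ^ 2 * v ^ ((1 / 3 : ℝ) - 1) = 1 := by
      rw [cbr, ← Real.rpow_natCast, ← Real.rpow_mul hv.le, ← Real.rpow_add hv]
      norm_num
    have h4 : 0 < cbr v ^ 2 := by have := cbr_pos hv; positivity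
    rw [eq_div_iff (by positivity)]
    linear_combination h3
  rw [← h2]
  exact h1

/-- end of the long piece -/
noncomputable def tt (h : ℝ) : ℝ := 1 - h ^ 8

noncomputable def cA (h t : ℝ) : ℝ := cbr (t + h ^ 9)
noncomputable def cB (h t : ℝ) : ℝ := cbr (tt h + h ^ 9 - t)

/-- instantaneous frequency on the long piece -/
noncomputable def xx (h t : ℝ) : ℝ := h + (1 - 3 * h) * cA h t - (h / 4) * cB h t
noncomputable def xx' (h t : ℝ) : ℝ := (1 - 3 * h) / (3 * cA h t ^ 2) + (h / 4) / (3 * cB h t ^ 2)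
noncomputable def xx'' (h t : ℝ) : ℝ :=
  - (2 * (1 - 3 * h) / (9 * cA h t ^ 5)) + 2 * (h / 4) / (9 * cB h t ^ 5)
/-- phase on the long piece -/
noncomputable def ph (h t : ℝ) : ℝ :=
  h * t + (3 / 4) * (1 - 3 * h) * cA h t ^ 4 + (3 / 4) * (h / 4) * cB h t ^ 4

section
variable {h t : ℝ} (hh : 0 < h) (hh1 : h ≤ 1 / 100)
include hh hh1

theorem tt_pos : 0 < tt h := by
  have : h ^ 8 ≤ h := by
    have := pow_le_of_le_one hh.le (by linarith : h ≤ 1) (by norm_num : (8 : ℕ) ≠ 0)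
    exact this
  rw [tt]; linarith

theorem tt_lt_one : tt h < 1 := by
  have : 0 < h ^ 8 := by positivity
  rw [tt]; linarith

theorem argA_pos (ht : 0 ≤ t) : 0 < t + h ^ 9 := by positivity

theorem argB_pos (ht : t ≤ tt h) : 0 < tt h + h ^ 9 - t := by
  have : 0 < h ^ 9 := by positivity
  linarith

theorem h9_le : h ^ 9 ≤ h ^ 8 := pow_le_pow_of_le_one hh.le (by linarith) (by norm_num)

theorem cA_pos (ht : 0 ≤ t) : 0 < cA h t := cbr_pos (argA_pos hh hh1 ht)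

theorem cB_pos (ht : t ≤ tt h) : 0 < cB h t := cbr_pos (argB_pos hh hh1 ht)

theorem cA_ge (ht : 0 ≤ t) : h ^ 3 ≤ cA h t := by
  apply le_cbr (argA_pos hh hh1 ht).le
  have : (h ^ 3) ^ 3 = h ^ 9 := by ring
  rw [this]; linarith

theorem cB_ge (ht : t ≤ tt h) : h ^ 3 ≤ cB h t := by
  apply le_cbr (argB_pos hh hh1 ht).le
  have : (h ^ 3) ^ 3 = h ^ 9 := by ring
  rw [this]; linarith

theorem cA_le_one (ht0 : 0 ≤ t) (ht : t ≤ tt h) : cA h t ≤ 1 := by
  apply cbr_le (argA_pos hh hh1 ht0).le zero_le_one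
  have := h9_le hh hh1
  rw [tt] at ht; linarith

theorem cB_le_one (ht0 : 0 ≤ t) (ht : t ≤ tt h) : cB h t ≤ 1 := by
  apply cbr_le (argB_pos hh hh1 ht).le zero_le_one
  have := h9_le hh hh1
  rw [tt]; linarith

theorem hasDerivAt_cA (ht : 0 ≤ t) : HasDerivAt (cA h) (1 / (3 * cA h t ^ 2)) t := by
  have h1 := (hasDerivAt_cbr (argA_pos hh hh1 ht))
  have h2 : HasDerivAt (fun t : ℝ => t + h ^ 9) 1 t := by
    simpa using (hasDerivAt_id t).add_const (h ^ 9)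
  have h3 := h1.comp t h2
  exact h3.congr_deriv (by simp [cA])

theorem hasDerivAt_cB (ht : t ≤ tt h) : HasDerivAt (cB h) (-(1 / (3 * cB h t ^ 2))) t := by
  have h1 := (hasDerivAt_cbr (argB_pos hh hh1 ht))
  have h2 : HasDerivAt (fun t : ℝ => tt h + h ^ 9 - t) (-1) t := by
    simpa using (hasDerivAt_id t).const_sub (tt h + h ^ 9)
  have h3 := h1.comp t h2
  exact h3.congr_deriv (by simp [cB])

theorem hasDerivAt_xx (ht0 : 0 ≤ t) (ht : t ≤ tt h) : HasDerivAt (xx h) (xx' h t) t := by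
  have hA := hasDerivAt_cA hh hh1 ht0
  have hB := hasDerivAt_cB hh hh1 ht
  have := ((hA.const_mul (1 - 3 * h)).const_add h).sub (hB.const_mul (h / 4))
  refine this.congr_deriv ?_
  rw [xx']; ring

theorem hasDerivAt_xx' (ht0 : 0 ≤ t) (ht : t ≤ tt h) : HasDerivAt (xx' h) (xx'' h t) t := by
  have hA := hasDerivAt_cA hh hh1 ht0
  have hB := hasDerivAt_cB hh hh1 ht
  have hAp := cA_pos hh hh1 ht0
  have hBp := cB_pos hh hh1 ht
  have h1 := ((hasDerivAt_const t (1 - 3 * h)).div ((hA.pow 2).const_mul 3) (by simp only [Pi.pow_apply]; positivity))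
  have h2 := ((hasDerivAt_const t (h / 4)).div ((hB.pow 2).const_mul 3) (by simp only [Pi.pow_apply]; positivity))
  refine (h1.add h2).congr_deriv ?_
  rw [xx'']
  simp only [Pi.pow_apply]
  field_simp
  ring

theorem hasDerivAt_ph (ht0 : 0 ≤ t) (ht : t ≤ tt h) : HasDerivAt (ph h) (xx h t) t := by
  have hA := hasDerivAt_cA hh hh1 ht0
  have hB := hasDerivAt_cB hh hh1 ht
  have hAp := cA_pos hh hh1 ht0
  have hBp := cB_pos hh hh1 ht
  have h0 : HasDerivAt (fun t : ℝ => h * t) h t := by simpa using (hasDerivAt_id t).const_mul h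
  have h1 := (h0.add ((hA.pow 4).const_mul ((3 / 4) * (1 - 3 * h)))).add
    ((hB.pow 4).const_mul ((3 / 4) * (h / 4)))
  refine h1.congr_deriv ?_
  rw [xx]
  push_cast
  field_simp
  ring

theorem xx_ge (ht0 : 0 ≤ t) (ht : t ≤ tt h) : (3 / 4) * h + (1 - 3 * h) * cA h t ≤ xx h t := by
  have := cB_le_one hh hh1 ht0 ht
  rw [xx]; nlinarith

theorem xx_le (ht0 : 0 ≤ t) (ht : t ≤ tt h) : xx h t ≤ 1 - 2 * h := by
  have h1 := cA_le_one hh hh1 ht0 ht
  have h2 := (cB_pos hh hh1 ht).le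
  have h3 : 0 ≤ h / 4 * cB h t := by positivity
  rw [xx]; nlinarith

theorem xx'_ge (ht0 : 0 ≤ t) (ht : t ≤ tt h) : 1 / 4 ≤ xx' h t := by
  have h1 := cA_le_one hh hh1 ht0 ht
  have hAp := cA_pos hh hh1 ht0
  have hBp := cB_pos hh hh1 ht
  have h2 : 0 ≤ (h / 4) / (3 * cB h t ^ 2) := by positivity
  have h3 : cA h t ^ 2 ≤ 1 := by nlinarith
  have h4 : 1 / 4 ≤ (1 - 3 * h) / (3 * cA h t ^ 2) := by
    rw [div_le_div_iff₀ (by norm_num) (by positivity)]
    nlinarith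
  rw [xx']; linarith

theorem xx'_le (ht0 : 0 ≤ t) (ht : t ≤ tt h) : xx' h t ≤ 1 / h ^ 6 := by
  have hA := cA_ge hh hh1 ht0
  have hB := cB_ge hh hh1 ht
  have h3pos : 0 < h ^ 3 := by positivity
  have hA2 : h ^ 6 ≤ cA h t ^ 2 := by
    calc h ^ 6 = (h ^ 3) ^ 2 := by ring
      _ ≤ _ := by gcongr
  have hB2 : h ^ 6 ≤ cB h t ^ 2 := by
    calc h ^ 6 = (h ^ 3) ^ 2 := by ring
      _ ≤ _ := by gcongr
  have h1 : (1 - 3 * h) / (3 * cA h t ^ 2) ≤ (1 - 3 * h) / (3 * h ^ 6) := by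
    apply div_le_div_of_nonneg_left (by linarith) (by positivity)
    linarith
  have h2 : (h / 4) / (3 * cB h t ^ 2) ≤ (h / 4) / (3 * h ^ 6) := by
    apply div_le_div_of_nonneg_left (by linarith) (by positivity)
    linarith
  have h3 : (1 - 3 * h) / (3 * h ^ 6) + (h / 4) / (3 * h ^ 6) ≤ 1 / h ^ 6 := by
    rw [← add_div, div_le_div_iff₀ (by positivity) (by positivity)]
    have : 0 < h ^ 6 := by positivity
    nlinarith
  rw [xx']; linarith

theorem xx''_abs_le (ht0 : 0 ≤ t) (ht : t ≤ tt h) : |xx'' h t| ≤ 1 / h ^ 15 := by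
  have hA := cA_ge hh hh1 ht0
  have hB := cB_ge hh hh1 ht
  have hAp := cA_pos hh hh1 ht0
  have hBp := cB_pos hh hh1 ht
  have h3pos : 0 < h ^ 3 := by positivity
  have hA2 : h ^ 15 ≤ cA h t ^ 5 := by
    calc h ^ 15 = (h ^ 3) ^ 5 := by ring
      _ ≤ _ := by gcongr
  have hB2 : h ^ 15 ≤ cB h t ^ 5 := by
    calc h ^ 15 = (h ^ 3) ^ 5 := by ring
      _ ≤ _ := by gcongr
  have h1 : 2 * (1 - 3 * h) / (9 * cA h t ^ 5) ≤ 2 * (1 - 3 * h) / (9 * h ^ 15) := by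
    apply div_le_div_of_nonneg_left (by linarith) (by positivity)
    linarith
  have h2 : 2 * (h / 4) / (9 * cB h t ^ 5) ≤ 2 * (h / 4) / (9 * h ^ 15) := by
    apply div_le_div_of_nonneg_left (by linarith) (by positivity)
    linarith
  have h3 : 2 * (1 - 3 * h) / (9 * h ^ 15) + 2 * (h / 4) / (9 * h ^ 15) ≤ 1 / h ^ 15 := by
    rw [← add_div, div_le_div_iff₀ (by positivity) (by positivity)]
    have : 0 < h ^ 15 := by positivity
    nlinarith
  have h4 : 0 ≤ 2 * (1 - 3 * h) / (9 * cA h t ^ 5) := by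
    apply div_nonneg (by linarith) (by positivity)
  have h5 : 0 ≤ 2 * (h / 4) / (9 * cB h t ^ 5) := by positivity
  rw [xx'', abs_le]
  constructor <;> linarith

theorem xx_sq_mul (ht0 : 0 ≤ t) (ht : t ≤ tt h) : (1 - 3 * h) ^ 3 ≤ 3 * xx h t ^ 2 * xx' h t := by
  have hx := xx_ge hh hh1 ht0 ht
  have hAp := cA_pos hh hh1 ht0
  have hBp := cB_pos hh hh1 ht
  have hs : 0 < 1 - 3 * h := by linarith
  have h1 : 0 ≤ (1 - 3 * h) * cA h t := by positivity
  have h2 : ((1 - 3 * h) * cA h t) ^ 2 ≤ xx h t ^ 2 := by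
    apply pow_le_pow_left₀ h1
    linarith
  have h3 : (1 - 3 * h) / (3 * cA h t ^ 2) ≤ xx' h t := by
    have : 0 ≤ (h / 4) / (3 * cB h t ^ 2) := by positivity
    rw [xx']; linarith
  have h4 : 0 < (1 - 3 * h) / (3 * cA h t ^ 2) := by positivity
  calc (1 - 3 * h) ^ 3 = 3 * ((1 - 3 * h) * cA h t) ^ 2 * ((1 - 3 * h) / (3 * cA h t ^ 2)) := by
        field_simp
    _ ≤ 3 * xx h t ^ 2 * xx' h t := by gcongr

/-- slope near the left end -/
theorem xx'_edge_left (ht0 : 0 ≤ t) (ht : t ≤ 2 * h ^ 45) : 1 / (48 * h ^ 5) ≤ xx' h t := by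
  have hple : 2 * h ^ 45 ≤ 7 * h ^ 9 := by
    have : h ^ 45 ≤ h ^ 9 := pow_le_pow_of_le_one hh.le (by linarith) (by norm_num)
    have : 0 < h ^ 9 := by positivity
    linarith
  have htt : t ≤ tt h := by
    have h8 : h ^ 8 ≤ h := pow_le_of_le_one hh.le (by linarith) (by norm_num)
    have h9 : h ^ 9 ≤ h := pow_le_of_le_one hh.le (by linarith) (by norm_num)
    rw [tt]; linarith
  have hA : cA h t ≤ 2 * h ^ 3 := by
    apply cbr_le (argA_pos hh hh1 ht0).le (by positivity)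
    have : (2 * h ^ 3) ^ 3 = 8 * h ^ 9 := by ring
    rw [this]; linarith
  have hAp := cA_pos hh hh1 ht0
  have hBp := cB_pos hh hh1 htt
  have h2 : 0 ≤ (h / 4) / (3 * cB h t ^ 2) := by positivity
  have hA2 : cA h t ^ 2 ≤ 4 * h ^ 6 := by
    calc cA h t ^ 2 ≤ (2 * h ^ 3) ^ 2 := by gcongr
      _ = 4 * h ^ 6 := by ring
  have h3 : (1 - 3 * h) / (12 * h ^ 6) ≤ (1 - 3 * h) / (3 * cA h t ^ 2) := by
    apply div_le_div_of_nonneg_left (by linarith) (by positivity)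
    linarith
  have h4 : 1 / (48 * h ^ 5) ≤ (1 - 3 * h) / (12 * h ^ 6) := by
    rw [div_le_div_iff₀ (by positivity) (by positivity)]
    have : 0 < h ^ 5 := by positivity
    nlinarith
  rw [xx']; linarith

/-- slope near the right end -/
theorem xx'_edge_right (ht0 : tt h - 2 * h ^ 45 ≤ t) (ht : t ≤ tt h) :
    1 / (48 * h ^ 5) ≤ xx' h t := by
  have hple : 2 * h ^ 45 ≤ 7 * h ^ 9 := by
    have : h ^ 45 ≤ h ^ 9 := pow_le_pow_of_le_one hh.le (by linarith) (by norm_num)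
    have : 0 < h ^ 9 := by positivity
    linarith
  have htt : 0 ≤ t := by
    have h8 : h ^ 8 ≤ h := pow_le_of_le_one hh.le (by linarith) (by norm_num)
    have h9 : h ^ 9 ≤ h := pow_le_of_le_one hh.le (by linarith) (by norm_num)
    rw [tt] at ht0; linarith
  have hB : cB h t ≤ 2 * h ^ 3 := by
    apply cbr_le (argB_pos hh hh1 ht).le (by positivity)
    have : (2 * h ^ 3) ^ 3 = 8 * h ^ 9 := by ring
    rw [this]; linarith
  have hAp := cA_pos hh hh1 htt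
  have hBp := cB_pos hh hh1 ht
  have h2 : 0 ≤ (1 - 3 * h) / (3 * cA h t ^ 2) := by
    apply div_nonneg (by linarith) (by positivity)
  have hB2 : cB h t ^ 2 ≤ 4 * h ^ 6 := by
    calc cB h t ^ 2 ≤ (2 * h ^ 3) ^ 2 := by gcongr
      _ = 4 * h ^ 6 := by ring
  have h3 : (h / 4) / (12 * h ^ 6) ≤ (h / 4) / (3 * cB h t ^ 2) := by
    apply div_le_div_of_nonneg_left (by linarith) (by positivity)
    linarith
  have h4 : 1 / (48 * h ^ 5) = (h / 4) / (12 * h ^ 6) := by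
    field_simp; norm_num
  rw [xx']; linarith

end

end Pool.Agent.Lib.MP_f8d220_an
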