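import Mathlib
import Pool.Agent.Lib.MP_f8d220_an.Phase

set_option autoImplicit false
set_option linter.unusedSectionVars false

namespace Pool.Agent.Lib.MP_f8d220_an

open MeasureTheory intervalIntegral Filter Topology

/-- slope of the return piece -/
noncomputable def sg (h : ℝ) : ℝ := (xx h (tt h) - xx h 0) / h ^ 8
/-- frequency on the return piece -/
noncomputable def rr (h t : ℝ) : ℝ := xx h (tt h) - sg h * (t - tt h)
/-- phase on the return piece -/
noncomputable def pr (h t : ℝ) : ℝ :=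
  ph h (tt h) + xx h (tt h) * (t - tt h) - sg h * (t - tt h) ^ 2 / 2

/-- The oscillatory integral over the whole circle. -/
noncomputable def II (h ν u : ℝ) : ℂ :=
  (∫ t in (0:ℝ)..(tt h), osc ν (fun t => ph h t - u * t) t) +
    ∫ t in (tt h)..1, osc ν (fun t => pr h t - u * t) t

section
variable {h : ℝ} (hh : 0 < h) (hh1 : h ≤ 1 / 100)
include hh hh1

theorem xx_zero_le : xx h 0 ≤ 2 * h := by
  have h1 : cA h 0 ≤ h ^ 3 := by
    apply cbr_le (argA_pos hh hh1 le_rfl).le (by positivity)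
    have : (h ^ 3) ^ 3 = h ^ 9 := by ring
    rw [this]; linarith
  have h2 := (cB_pos hh hh1 (tt_pos hh hh1).le).le
  have h3 : 0 ≤ h / 4 * cB h 0 := by positivity
  have h4 : h ^ 3 ≤ h := pow_le_of_le_one hh.le (by linarith) (by norm_num)
  have h5 : (1 - 3 * h) * cA h 0 ≤ 1 * cA h 0 :=
    mul_le_mul_of_nonneg_right (by linarith) (cA_pos hh hh1 le_rfl).le
  rw [xx]; linarith

theorem xx_zero_ge : (3 / 4) * h ≤ xx h 0 := by
  have := xx_ge hh hh1 le_rfl (tt_pos hh hh1).le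
  have h2 := (cA_pos hh hh1 (le_refl (0:ℝ))).le
  have h3 : 0 ≤ (1 - 3 * h) * cA h 0 := mul_nonneg (by linarith) h2
  linarith

theorem xx_tt_ge : 7 / 10 ≤ xx h (tt h) := by
  have h1 := xx_ge hh hh1 (tt_pos hh hh1).le le_rfl
  have h2 : 3 / 4 ≤ cA h (tt h) := by
    apply le_cbr (argA_pos hh hh1 (tt_pos hh hh1).le).le
    have h8 : h ^ 8 ≤ h := pow_le_of_le_one hh.le (by linarith) (by norm_num)
    have : 0 < h ^ 9 := by positivity
    rw [tt]; norm_num; linarith
  have h3 : (1 - 3 * h) * (3 / 4) ≤ (1 - 3 * h) * cA h (tt h) :=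
    mul_le_mul_of_nonneg_left h2 (by linarith)
  linarith

theorem xx_tt_le : xx h (tt h) ≤ 1 - 2 * h := xx_le hh hh1 (tt_pos hh hh1).le le_rfl

theorem sg_ge : 1 / (2 * h ^ 8) ≤ sg h := by
  have h1 := xx_zero_le hh hh1
  have h2 := xx_tt_ge hh hh1
  rw [sg, div_le_div_iff₀ (by positivity) (by positivity)]
  have : 0 < h ^ 8 := by positivity
  nlinarith

theorem sg_le : sg h ≤ 1 / h ^ 8 := by
  have h1 := xx_zero_ge hh hh1
  have h2 := xx_tt_le hh hh1
  rw [sg]
  apply div_le_div_of_nonneg_right _ (by positivity)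
  linarith

theorem sg_pos : 0 < sg h := lt_of_lt_of_le (by positivity) (sg_ge hh hh1)

theorem rr_tt : rr h (tt h) = xx h (tt h) := by simp [rr]

theorem rr_one : rr h 1 = xx h 0 := by
  have h8 : h ^ 8 ≠ 0 := by positivity
  have : 1 - tt h = h ^ 8 := by rw [tt]; ring
  rw [rr, sg, this, div_mul_cancel₀ _ h8]; ring

theorem pr_tt : pr h (tt h) = ph h (tt h) := by simp [pr]

theorem hasDerivAt_rr (t : ℝ) : HasDerivAt (rr h) (- sg h) t := by
  have h1 : HasDerivAt (fun t : ℝ => sg h * (t - tt h)) (sg h) t := by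
    simpa using ((hasDerivAt_id t).sub_const (tt h)).const_mul (sg h)
  exact (h1.const_sub (xx h (tt h)))

theorem hasDerivAt_pr (t : ℝ) : HasDerivAt (pr h) (rr h t) t := by
  have h1 : HasDerivAt (fun t : ℝ => xx h (tt h) * (t - tt h)) (xx h (tt h)) t := by
    simpa using ((hasDerivAt_id t).sub_const (tt h)).const_mul (xx h (tt h))
  have h2 : HasDerivAt (fun t : ℝ => sg h * (t - tt h) ^ 2 / 2) (sg h * (t - tt h)) t := by
    have h3 : HasDerivAt (fun s : ℝ => (s - tt h) ^ 2) (2 * (t - tt h)) t := by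
      have := ((hasDerivAt_id t).sub_const (tt h)).pow 2
      exact this.congr_deriv (by simp)
    exact ((h3.const_mul (sg h)).div_const 2).congr_deriv (by ring)
  exact ((h1.const_add (ph h (tt h))).sub h2)

theorem hasDerivAt_phu (u t : ℝ) (ht0 : 0 ≤ t) (ht : t ≤ tt h) :
    HasDerivAt (fun t => ph h t - u * t) (xx h t - u) t := by
  have h1 : HasDerivAt (fun t : ℝ => u * t) u t := by
    simpa using (hasDerivAt_id t).const_mul u
  exact (hasDerivAt_ph hh hh1 ht0 ht).sub h1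

theorem hasDerivAt_pru (u t : ℝ) :
    HasDerivAt (fun t => pr h t - u * t) (rr h t - u) t := by
  have h1 : HasDerivAt (fun t : ℝ => u * t) u t := by
    simpa using (hasDerivAt_id t).const_mul u
  exact (hasDerivAt_pr hh hh1 t).sub h1

theorem continuousOn_xx' : ContinuousOn (xx' h) (Set.Icc 0 (tt h)) :=
  fun _ ht => (hasDerivAt_xx' hh hh1 ht.1 ht.2).continuousAt.continuousWithinAt

theorem continuousOn_xx'' : ContinuousOn (xx'' h) (Set.Icc 0 (tt h)) := by
  have hA : ContinuousOn (cA h) (Set.Icc 0 (tt h)) :=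
    fun _ ht => (hasDerivAt_cA hh hh1 ht.1).continuousAt.continuousWithinAt
  have hB : ContinuousOn (cB h) (Set.Icc 0 (tt h)) :=
    fun _ ht => (hasDerivAt_cB hh hh1 ht.2).continuousAt.continuousWithinAt
  unfold xx''
  refine ContinuousOn.add (ContinuousOn.neg ?_) ?_
  · refine continuousOn_const.div (continuousOn_const.mul (hA.pow 5)) ?_
    intro t ht
    have := cA_pos hh hh1 ht.1
    positivity
  · refine continuousOn_const.div (continuousOn_const.mul (hB.pow 5)) ?_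
    intro t ht
    have := cB_pos hh hh1 ht.2
    positivity

/-- general growth with a lower bound for the slope on a subinterval -/
theorem xx_growth (σ a b : ℝ) (ha : 0 ≤ a) (hb : b ≤ tt h)
    (hσ : ∀ t ∈ Set.Icc a b, σ ≤ xx' h t) (s t : ℝ) (hs : a ≤ s) (hst : s ≤ t) (ht : t ≤ b) :
    σ * (t - s) ≤ xx h t - xx h s := by
  have hcont : ContinuousOn (xx h) (Set.Icc a b) := fun r hr =>
    (hasDerivAt_xx hh hh1 (ha.trans hr.1) (hr.2.trans hb)).continuousAt.continuousWithinAt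
  refine Convex.mul_sub_le_image_sub_of_le_deriv (convex_Icc a b) (f := xx h) hcont ?_ ?_ s
    ⟨hs, hst.trans ht⟩ t ⟨hs.trans hst, ht⟩ hst
  · intro x hx
    rw [interior_Icc] at hx
    exact (hasDerivAt_xx hh hh1 (ha.trans hx.1.le)
      (hx.2.le.trans hb)).differentiableAt.differentiableWithinAt
  · intro x hx
    rw [interior_Icc] at hx
    rw [(hasDerivAt_xx hh hh1 (ha.trans hx.1.le) (hx.2.le.trans hb)).deriv]
    exact hσ x ⟨hx.1.le, hx.2.le⟩

theorem xx_growth' (s t : ℝ) (hs : 0 ≤ s) (hst : s ≤ t) (ht : t ≤ tt h) :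
    (1 / 4) * (t - s) ≤ xx h t - xx h s :=
  xx_growth hh hh1 (1 / 4) 0 (tt h) le_rfl le_rfl
    (fun _ hr => xx'_ge hh hh1 hr.1 hr.2) s t hs hst ht

theorem xx_mono (s t : ℝ) (hs : 0 ≤ s) (hst : s ≤ t) (ht : t ≤ tt h) : xx h s ≤ xx h t := by
  have := xx_growth' hh hh1 s t hs hst ht
  nlinarith

theorem ret_bound (ν u : ℝ) (hν : ν * h ^ 100 = 1) :
    ‖∫ t in (tt h)..1, osc ν (fun t => pr h t - u * t) t‖ ≤ 6 * h ^ 54 := by
  have hνpos : 0 < ν := by
    have : 0 < h ^ 100 := by positivity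
    by_contra hneg
    rw [not_lt] at hneg
    nlinarith
  have hνv : ν = 1 / h ^ 100 := by rw [eq_div_iff (by positivity)]; exact hν
  rw [← norm_integral_osc_neg]
  have h1 := osc_second ν hνpos (fun s => -(pr h s - u * s)) (fun s => -(rr h s - u))
    (fun _ => sg h) (tt h) 1 (sg h) (tt_lt_one hh hh1).le (sg_pos hh hh1)
    (fun t _ => (hasDerivAt_pru hh hh1 u t).neg)
    (fun t _ => by
      have := ((hasDerivAt_rr hh hh1 t).sub_const u).neg
      exact this.congr_deriv (neg_neg _))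
    continuousOn_const (fun t _ => le_rfl)
  refine h1.trans ?_
  have h2 : 1 / (2 * h ^ 54) ≤ √(sg h * ν) := by
    apply Real.le_sqrt_of_sq_le
    have h3 : (1 / (2 * h ^ 54)) ^ 2 = 1 / (4 * h ^ 108) := by
      rw [div_pow, mul_pow]; ring
    have h4 : 1 / (2 * h ^ 8) * (1 / h ^ 100) ≤ sg h * ν := by
      rw [hνv]
      exact mul_le_mul_of_nonneg_right (sg_ge hh hh1) (by positivity)
    have h5 : 1 / (2 * h ^ 8) * (1 / h ^ 100) = 1 / (2 * h ^ 108) := by
      rw [div_mul_div_comm]; ring_nf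
    rw [h3]
    rw [h5] at h4
    refine le_trans ?_ h4
    apply one_div_le_one_div_of_le (by positivity)
    have : 0 < h ^ 108 := by positivity
    linarith
  calc 3 / √(sg h * ν) ≤ 3 / (1 / (2 * h ^ 54)) := by
        apply div_le_div_of_nonneg_left (by norm_num) (by positivity) h2
    _ = 6 * h ^ 54 := by field_simp; norm_num

theorem nu_pos (ν : ℝ) (hν : ν * h ^ 100 = 1) : 0 < ν := by
  have : 0 < h ^ 100 := by positivity
  by_contra hneg
  rw [not_lt] at hneg
  nlinarith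

theorem nu_eq (ν : ℝ) (hν : ν * h ^ 100 = 1) : ν = 1 / h ^ 100 := by
  rw [eq_div_iff (by positivity)]; exact hν

theorem ii_long (ν u a b : ℝ) (ha : a ∈ Set.Icc 0 (tt h)) (hb : b ∈ Set.Icc 0 (tt h)) :
    IntervalIntegrable (osc ν (fun t => ph h t - u * t)) volume a b := by
  apply ContinuousOn.intervalIntegrable
  refine ContinuousOn.mono (s := Set.Icc 0 (tt h)) ?_ (Set.uIcc_subset_Icc ha hb)
  apply continuousOn_osc
  exact fun t ht => (hasDerivAt_phu hh hh1 u t ht.1 ht.2).continuousAt.continuousWithinAt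

theorem W_le : 2 * h ^ 45 ≤ h ^ 2 := by
  have h1 : h ^ 45 ≤ h ^ 3 := pow_le_pow_of_le_one hh.le (by linarith) (by norm_num)
  have h2 : 0 < h ^ 2 := by positivity
  have h3 : h ^ 3 = h * h ^ 2 := by ring
  rw [h3] at h1
  nlinarith

theorem tt_ge : 1 / 2 ≤ tt h := by
  have h8 : h ^ 8 ≤ h := pow_le_of_le_one hh.le (by linarith) (by norm_num)
  rw [tt]; linarith

theorem W2_le_tt : 2 * h ^ 45 ≤ tt h := by
  have h1 := W_le hh hh1
  have h2 := tt_ge hh hh1
  have h3 : h ^ 2 ≤ h := pow_le_of_le_one hh.le (by linarith) (by norm_num)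
  linarith

theorem edge_const (ν : ℝ) (hν : ν * h ^ 100 = 1) :
    1 / (Real.pi * ν * (1 / (48 * h ^ 5) * h ^ 45)) + 3 / √(1 / (48 * h ^ 5) * ν) ≤ 37 * h ^ 52 := by
  have hνpos := nu_pos hh hh1 ν hν
  have hνv := nu_eq hh hh1 ν hν
  have hpi := Real.pi_gt_three
  have h1 : 1 / (Real.pi * ν * (1 / (48 * h ^ 5) * h ^ 45)) ≤ 16 * h ^ 60 := by
    have h2 : 1 / (Real.pi * ν * (1 / (48 * h ^ 5) * h ^ 45)) = (48 / Real.pi) * h ^ 60 := by
      rw [hνv]; field_simp
    rw [h2]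
    apply mul_le_mul_of_nonneg_right _ (by positivity)
    rw [div_le_iff₀ (by positivity)]
    linarith
  have h3 : 1 / (7 * h ^ 52) ≤ √(1 / (48 * h ^ 5) * ν) := by
    apply Real.le_sqrt_of_sq_le
    have h4 : (1 / (7 * h ^ 52)) ^ 2 = 1 / (49 * h ^ 104) := by
      rw [div_pow, mul_pow]; ring
    have h5 : 1 / (48 * h ^ 5) * ν = 1 / (48 * h ^ 105) := by
      rw [hνv, div_mul_div_comm]; ring_nf
    rw [h4, h5]
    apply one_div_le_one_div_of_le (by positivity)
    have h6 : 0 < h ^ 104 := by positivity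
    have h7 : h ^ 105 = h * h ^ 104 := by ring
    rw [h7]
    nlinarith
  have h8 : 3 / √(1 / (48 * h ^ 5) * ν) ≤ 21 * h ^ 52 := by
    calc 3 / √(1 / (48 * h ^ 5) * ν) ≤ 3 / (1 / (7 * h ^ 52)) := by
          apply div_le_div_of_nonneg_left (by norm_num) (by positivity) h3
      _ = 21 * h ^ 52 := by field_simp; norm_num
  have h9 : h ^ 60 ≤ h ^ 52 := pow_le_pow_of_le_one hh.le (by linarith) (by norm_num)
  linarith

theorem edge_right (ν u : ℝ) (hν : ν * h ^ 100 = 1) (hu : xx h (tt h - h ^ 45) ≤ u) :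
    ‖∫ t in (0:ℝ)..(tt h), osc ν (fun t => ph h t - u * t) t‖ ≤ 37 * h ^ 52 := by
  have hνpos := nu_pos hh hh1 ν hν
  have hW : 0 < h ^ 45 := by positivity
  have hWt := W2_le_tt hh hh1
  have htt := tt_pos hh hh1
  set p := tt h - 2 * h ^ 45 with hp
  have hp0 : 0 ≤ p := by linarith
  have hpt : p ≤ tt h := by linarith
  have hsplit := intervalIntegral.integral_add_adjacent_intervals
    (ii_long hh hh1 ν u 0 p ⟨le_rfl, htt.le⟩ ⟨hp0, hpt⟩)
    (ii_long hh hh1 ν u p (tt h) ⟨hp0, hpt⟩ ⟨htt.le, le_rfl⟩)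
  rw [← hsplit]
  have hσ : (0:ℝ) < 1 / (48 * h ^ 5) := by positivity
  have hgr := xx_growth hh hh1 (1 / (48 * h ^ 5)) p (tt h) hp0 le_rfl
    (fun t ht => xx'_edge_right hh hh1 ht.1 ht.2) p (tt h - h ^ 45) le_rfl (by linarith) (by linarith)
  have h1 : (tt h - h ^ 45) - p = h ^ 45 := by rw [hp]; ring
  rw [h1] at hgr
  have hL : ‖∫ t in (0:ℝ)..p, osc ν (fun t => ph h t - u * t) t‖
      ≤ 1 / (Real.pi * ν * (1 / (48 * h ^ 5) * h ^ 45)) := by
    refine osc_first_neg ν hνpos _ (fun t => xx h t - u) (xx' h) 0 p _ hp0 (by positivity)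
      (fun t ht => hasDerivAt_phu hh hh1 u t ht.1 (ht.2.trans hpt))
      (fun t ht => (hasDerivAt_xx hh hh1 ht.1 (ht.2.trans hpt)).sub_const u)
      ((continuousOn_xx' hh hh1).mono (Set.Icc_subset_Icc le_rfl hpt))
      (Or.inl fun t ht => by
        have := xx'_ge hh hh1 ht.1 (ht.2.trans hpt)
        linarith) ?_
    intro t ht
    have h2 := xx_mono hh hh1 t p ht.1 ht.2 hpt
    linarith
  have hR : ‖∫ t in p..(tt h), osc ν (fun t => ph h t - u * t) t‖
      ≤ 3 / √(1 / (48 * h ^ 5) * ν) := by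
    refine osc_second ν hνpos _ (fun t => xx h t - u) (xx' h) p (tt h) _ hpt hσ
      (fun t ht => hasDerivAt_phu hh hh1 u t (hp0.trans ht.1) ht.2)
      (fun t ht => (hasDerivAt_xx hh hh1 (hp0.trans ht.1) ht.2).sub_const u)
      ((continuousOn_xx' hh hh1).mono (Set.Icc_subset_Icc hp0 le_rfl))
      (fun t ht => xx'_edge_right hh hh1 ht.1 ht.2)
  refine (norm_add_le _ _).trans ((add_le_add hL hR).trans (edge_const hh hh1 ν hν))

theorem edge_left (ν u : ℝ) (hν : ν * h ^ 100 = 1) (hu : u ≤ xx h (h ^ 45)) :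
    ‖∫ t in (0:ℝ)..(tt h), osc ν (fun t => ph h t - u * t) t‖ ≤ 37 * h ^ 52 := by
  have hνpos := nu_pos hh hh1 ν hν
  have hW : 0 < h ^ 45 := by positivity
  have hWt := W2_le_tt hh hh1
  have htt := tt_pos hh hh1
  set p := 2 * h ^ 45 with hp
  have hp0 : 0 ≤ p := by positivity
  have hpt : p ≤ tt h := by linarith
  have hsplit := intervalIntegral.integral_add_adjacent_intervals
    (ii_long hh hh1 ν u 0 p ⟨le_rfl, htt.le⟩ ⟨hp0, hpt⟩)
    (ii_long hh hh1 ν u p (tt h) ⟨hp0, hpt⟩ ⟨htt.le, le_rfl⟩)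
  rw [← hsplit]
  have hσ : (0:ℝ) < 1 / (48 * h ^ 5) := by positivity
  have hgr := xx_growth hh hh1 (1 / (48 * h ^ 5)) 0 p le_rfl hpt
    (fun t ht => xx'_edge_left hh hh1 ht.1 ht.2) (h ^ 45) p hW.le (by linarith) le_rfl
  have h1 : p - h ^ 45 = h ^ 45 := by rw [hp]; ring
  rw [h1] at hgr
  have hR : ‖∫ t in p..(tt h), osc ν (fun t => ph h t - u * t) t‖
      ≤ 1 / (Real.pi * ν * (1 / (48 * h ^ 5) * h ^ 45)) := by
    refine osc_first ν hνpos _ (fun t => xx h t - u) (xx' h) p (tt h) _ hpt (by positivity)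
      (fun t ht => hasDerivAt_phu hh hh1 u t (hp0.trans ht.1) ht.2)
      (fun t ht => (hasDerivAt_xx hh hh1 (hp0.trans ht.1) ht.2).sub_const u)
      ((continuousOn_xx' hh hh1).mono (Set.Icc_subset_Icc hp0 le_rfl))
      (Or.inl fun t ht => by
        have := xx'_ge hh hh1 (hp0.trans ht.1) ht.2
        linarith) ?_
    intro t ht
    have h2 := xx_mono hh hh1 p t hp0 ht.1 ht.2
    linarith
  have hL : ‖∫ t in (0:ℝ)..p, osc ν (fun t => ph h t - u * t) t‖
      ≤ 3 / √(1 / (48 * h ^ 5) * ν) := by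
    refine osc_second ν hνpos _ (fun t => xx h t - u) (xx' h) 0 p _ hp0 hσ
      (fun t ht => hasDerivAt_phu hh hh1 u t ht.1 (ht.2.trans hpt))
      (fun t ht => (hasDerivAt_xx hh hh1 ht.1 (ht.2.trans hpt)).sub_const u)
      ((continuousOn_xx' hh hh1).mono (Set.Icc_subset_Icc le_rfl hpt))
      (fun t ht => xx'_edge_left hh hh1 ht.1 ht.2)
  refine (norm_add_le _ _).trans (((add_le_add hL hR).trans_eq (add_comm _ _)).trans
    (edge_const hh hh1 ν hν))

theorem inner_bound (ν t₀ : ℝ) (hν : ν * h ^ 100 = 1) (ht0 : h ^ 45 ≤ t₀) (ht1 : t₀ ≤ tt h - h ^ 45) :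
    ‖∫ t in (0:ℝ)..(tt h), osc ν (fun t => ph h t - xx h t₀ * t) t‖ ≤
      h ^ 50 * (√3 * xx h t₀ / (1 - 3 * h) ^ 2) + 19 * h ^ 54 := by
  have hνpos := nu_pos hh hh1 ν hν
  have hνv := nu_eq hh hh1 ν hν
  have hW : 0 < h ^ 45 := by positivity
  have hWt := W2_le_tt hh hh1
  have htt := tt_pos hh hh1
  have ht00 : 0 ≤ t₀ := hW.le.trans ht0
  have ht0t : t₀ ≤ tt h := by linarith
  set W := h ^ 45 with hWdef
  set u := xx h t₀ with hu
  have hp : t₀ - W ∈ Set.Icc 0 (tt h) := ⟨by linarith, by linarith⟩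
  have hq : t₀ + W ∈ Set.Icc 0 (tt h) := ⟨by linarith, by linarith⟩
  have h0 : (0:ℝ) ∈ Set.Icc 0 (tt h) := ⟨le_rfl, htt.le⟩
  have h1 : tt h ∈ Set.Icc 0 (tt h) := ⟨htt.le, le_rfl⟩
  have hsplit : ∫ t in (0:ℝ)..(tt h), osc ν (fun t => ph h t - u * t) t
      = (∫ t in (0:ℝ)..(t₀ - W), osc ν (fun t => ph h t - u * t) t)
        + (∫ t in (t₀ - W)..(t₀ + W), osc ν (fun t => ph h t - u * t) t)
        + ∫ t in (t₀ + W)..(tt h), osc ν (fun t => ph h t - u * t) t := by
    rw [intervalIntegral.integral_add_adjacent_intervals (ii_long hh hh1 ν u _ _ h0 hp)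
        (ii_long hh hh1 ν u _ _ hp hq),
      intervalIntegral.integral_add_adjacent_intervals (ii_long hh hh1 ν u _ _ h0 hq)
        (ii_long hh hh1 ν u _ _ hq h1)]
  have hwpos : 0 < (1 / 4) * W := by positivity
  have hL : ‖∫ t in (0:ℝ)..(t₀ - W), osc ν (fun t => ph h t - u * t) t‖
      ≤ 1 / (Real.pi * ν * ((1 / 4) * W)) := by
    refine osc_first_neg ν hνpos _ (fun t => xx h t - u) (xx' h) 0 (t₀ - W) _ hp.1 hwpos
      (fun t ht => hasDerivAt_phu hh hh1 u t ht.1 (ht.2.trans hp.2))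
      (fun t ht => (hasDerivAt_xx hh hh1 ht.1 (ht.2.trans hp.2)).sub_const u)
      ((continuousOn_xx' hh hh1).mono (Set.Icc_subset_Icc le_rfl hp.2))
      (Or.inl fun t ht => by
        have := xx'_ge hh hh1 ht.1 (ht.2.trans hp.2)
        linarith) ?_
    intro t ht
    have h2 := xx_growth' hh hh1 t t₀ ht.1 (by linarith [ht.2]) ht0t
    have h3 : W ≤ t₀ - t := by linarith [ht.2]
    linarith
  have hR : ‖∫ t in (t₀ + W)..(tt h), osc ν (fun t => ph h t - u * t) t‖
      ≤ 1 / (Real.pi * ν * ((1 / 4) * W)) := by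
    refine osc_first ν hνpos _ (fun t => xx h t - u) (xx' h) (t₀ + W) (tt h) _ hq.2 hwpos
      (fun t ht => hasDerivAt_phu hh hh1 u t (hq.1.trans ht.1) ht.2)
      (fun t ht => (hasDerivAt_xx hh hh1 (hq.1.trans ht.1) ht.2).sub_const u)
      ((continuousOn_xx' hh hh1).mono (Set.Icc_subset_Icc hq.1 le_rfl))
      (Or.inl fun t ht => by
        have := xx'_ge hh hh1 (hq.1.trans ht.1) ht.2
        linarith) ?_
    intro t ht
    have h2 := xx_growth' hh hh1 t₀ t ht00 (by linarith [ht.1]) ht.2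
    have h3 : W ≤ t - t₀ := by linarith [ht.1]
    linarith
  set lam := xx' h t₀ with hlam
  have hlam4 : 1 / 4 ≤ lam := xx'_ge hh hh1 ht00 ht0t
  have hlampos : 0 < lam := by linarith
  have hsub : ∀ t ∈ Set.Icc (t₀ - W) (t₀ + W), 0 ≤ t ∧ t ≤ tt h := fun t ht =>
    ⟨hp.1.trans ht.1, ht.2.trans hq.2⟩
  have hM := osc_window ν hνpos (fun t => ph h t - u * t) (fun t => xx h t - u) (xx' h) t₀ W lam
    (1 / h ^ 15) hW hlampos
    (fun t ht => hasDerivAt_phu hh hh1 u t (hsub t ht).1 (hsub t ht).2)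
    (fun t ht => (hasDerivAt_xx hh hh1 (hsub t ht).1 (hsub t ht).2).sub_const u)
    (by simp [hu])
    (by
      intro t ht
      have ht₀ : t₀ ∈ Set.Icc (t₀ - W) (t₀ + W) := ⟨by linarith, by linarith⟩
      have h3 := (convex_Icc (t₀ - W) (t₀ + W)).norm_image_sub_le_of_norm_hasDerivWithin_le
        (f := xx' h) (f' := xx'' h) (C := 1 / h ^ 15)
        (fun s hs => (hasDerivAt_xx' hh hh1 (hsub s hs).1 (hsub s hs).2).hasDerivWithinAt)
        (fun s hs => by
          rw [Real.norm_eq_abs]; exact xx''_abs_le hh hh1 (hsub s hs).1 (hsub s hs).2) ht₀ ht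
      rw [Real.norm_eq_abs, Real.norm_eq_abs] at h3
      have h4 : |t - t₀| ≤ W := by rw [abs_le]; constructor <;> linarith [ht.1, ht.2]
      exact h3.trans (mul_le_mul_of_nonneg_left h4 (by positivity)))
  have hpi := Real.pi_gt_three
  have hpi4 := Real.pi_lt_d2
  -- main term
  have hxpos : 0 < u := by
    have h5 := xx_ge hh hh1 ht00 ht0t
    have h6 := cA_pos hh hh1 ht00
    have h7 : 0 ≤ (1 - 3 * h) * cA h t₀ := mul_nonneg (by linarith) h6.le
    linarith
  have hs : 0 < 1 - 3 * h := by linarith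
  have hmain : 1 / √(ν * lam) ≤ h ^ 50 * (√3 * u / (1 - 3 * h) ^ 2) := by
    have h5 := xx_sq_mul hh hh1 ht00 ht0t
    have h6 : (1 - 3 * h) ^ 4 ≤ (1 - 3 * h) ^ 3 :=
      pow_le_pow_of_le_one hs.le (by linarith) (by norm_num)
    have h7 : √(ν * lam) = (1 / h ^ 50) * √lam := by
      rw [Real.sqrt_mul hνpos.le, hνv]
      congr 1
      rw [show (1 : ℝ) / h ^ 100 = (1 / h ^ 50) ^ 2 by rw [div_pow]; ring]
      exact Real.sqrt_sq (by positivity)
    have h8 : (1 - 3 * h) ^ 2 ≤ √3 * u * √lam := by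
      have h9 : √3 * u * √lam = √(3 * u ^ 2 * lam) := by
        rw [Real.sqrt_mul (by positivity), Real.sqrt_mul (by norm_num), Real.sqrt_sq hxpos.le]
      rw [h9]
      apply Real.le_sqrt_of_sq_le
      calc ((1 - 3 * h) ^ 2) ^ 2 = (1 - 3 * h) ^ 4 := by ring
        _ ≤ _ := h6.trans h5
    have h10 : 0 < √lam := Real.sqrt_pos.mpr hlampos
    rw [h7]
    have h11 : 1 / ((1 / h ^ 50) * √lam) = h ^ 50 * (1 / √lam) := by field_simp
    rw [h11]
    apply mul_le_mul_of_nonneg_left _ (by positivity)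
    rw [div_le_div_iff₀ h10 (by positivity), one_mul]
    exact h8
  have he1 : 2 / (Real.pi * (ν * lam) * W) ≤ 3 * h ^ 55 := by
    have h5 : 2 / (Real.pi * (ν * lam) * W) ≤ 2 / (3 * (ν * (1 / 4)) * W) := by
      apply div_le_div_of_nonneg_left (by norm_num) (by positivity)
      gcongr
    have h6 : 2 / (3 * (ν * (1 / 4)) * W) = (8 / 3) * h ^ 55 := by
      rw [hνv, hWdef]; field_simp; norm_num
    rw [h6] at h5
    have : 0 < h ^ 55 := by positivity
    linarith
  have he2 : 4 * Real.pi * ν * (1 / h ^ 15) * W ^ 4 ≤ 13 * h ^ 65 := by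
    have h5 : 4 * Real.pi * ν * (1 / h ^ 15) * W ^ 4 = 4 * Real.pi * h ^ 65 := by
      rw [hνv, hWdef]; field_simp
    rw [h5]
    have : 0 < h ^ 65 := by positivity
    nlinarith
  have he3 : 1 / (Real.pi * ν * ((1 / 4) * W)) ≤ (3 / 2) * h ^ 55 := by
    have h5 : 1 / (Real.pi * ν * ((1 / 4) * W)) ≤ 1 / (3 * ν * ((1 / 4) * W)) := by
      apply div_le_div_of_nonneg_left (by norm_num) (by positivity)
      gcongr
    have h6 : 1 / (3 * ν * ((1 / 4) * W)) = (4 / 3) * h ^ 55 := by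
      rw [hνv, hWdef]; field_simp
    rw [h6] at h5
    have : 0 < h ^ 55 := by positivity
    linarith
  have he4 : h ^ 55 ≤ h ^ 54 := pow_le_pow_of_le_one hh.le (by linarith) (by norm_num)
  have he5 : h ^ 65 ≤ h ^ 54 := pow_le_pow_of_le_one hh.le (by linarith) (by norm_num)
  rw [hsplit]
  refine norm_add₃_le.trans ?_
  linarith

end

end Pool.Agent.Lib.MP_f8d220_an
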