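import Mathlib

/-!
Choice of signs making finitely many linear forms simultaneously small
(a derandomised sub-Gaussian estimate), and its consequence for
trigonometric sums.
-/

set_option autoImplicit false

namespace Pool.Agent.Lib.MP_f8d220_an

open Finset

/-- Weighted choice of signs. -/
theorem exists_signs_cosh {ι : Type*} (s : Finset ι) (a : ι → ℕ → ℝ) (N : ℕ) :
    ∀ w : ι → ℝ, (∀ j ∈ s, 0 ≤ w j) →
    ∃ e : ℕ → ℝ, (∀ k, e k = 1 ∨ e k = -1) ∧
      ∑ j ∈ s, w j * Real.cosh (∑ k ∈ range N, e k * a j k) ≤
        ∑ j ∈ s, w j * Real.exp (∑ k ∈ range N, (a j k) ^ 2 / 2) := by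
  induction N with
  | zero =>
    intro w hw
    refine ⟨fun _ => 1, fun _ => Or.inl rfl, ?_⟩
    simp
  | succ N ih =>
    intro w hw
    obtain ⟨e, he, hle⟩ := ih (fun j => w j * Real.exp ((a j N) ^ 2 / 2))
      (fun j hj => mul_nonneg (hw j hj) (Real.exp_pos _).le)
    set A : ι → ℝ := fun j => ∑ k ∈ range N, e k * a j k with hA
    have key : ∑ j ∈ s, w j * Real.cosh (A j + a j N) + ∑ j ∈ s, w j * Real.cosh (A j - a j N)
        ≤ 2 * ∑ j ∈ s, w j * Real.exp (∑ k ∈ range (N + 1), (a j k) ^ 2 / 2) := by
      have h1 : ∑ j ∈ s, w j * Real.cosh (A j + a j N) + ∑ j ∈ s, w j * Real.cosh (A j - a j N)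
          = 2 * ∑ j ∈ s, w j * (Real.cosh (A j) * Real.cosh (a j N)) := by
        rw [← Finset.sum_add_distrib, Finset.mul_sum]
        refine Finset.sum_congr rfl fun j _ => ?_
        rw [Real.cosh_add, Real.cosh_sub]; ring
      rw [h1]
      refine mul_le_mul_of_nonneg_left ?_ (by norm_num)
      calc ∑ j ∈ s, w j * (Real.cosh (A j) * Real.cosh (a j N))
          ≤ ∑ j ∈ s, w j * Real.exp ((a j N) ^ 2 / 2) * Real.cosh (A j) := by
            refine Finset.sum_le_sum fun j hj => ?_
            have hc := Real.cosh_le_exp_half_sq (a j N)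
            have h2 : Real.cosh (A j) * Real.cosh (a j N)
                ≤ Real.exp ((a j N) ^ 2 / 2) * Real.cosh (A j) := by
              rw [mul_comm (Real.exp _)]
              exact mul_le_mul_of_nonneg_left hc (Real.cosh_pos _).le
            calc w j * (Real.cosh (A j) * Real.cosh (a j N))
                ≤ w j * (Real.exp ((a j N) ^ 2 / 2) * Real.cosh (A j)) :=
                  mul_le_mul_of_nonneg_left h2 (hw j hj)
              _ = _ := by ring
        _ ≤ ∑ j ∈ s, w j * Real.exp ((a j N) ^ 2 / 2) *
              Real.exp (∑ k ∈ range N, (a j k) ^ 2 / 2) := hle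
        _ = ∑ j ∈ s, w j * Real.exp (∑ k ∈ range (N + 1), (a j k) ^ 2 / 2) := by
            refine Finset.sum_congr rfl fun j _ => ?_
            rw [Finset.sum_range_succ, Real.exp_add]; ring
    rcases le_total (∑ j ∈ s, w j * Real.cosh (A j + a j N))
        (∑ j ∈ s, w j * Real.cosh (A j - a j N)) with h | h
    · refine ⟨fun k => if k = N then 1 else e k, ?_, ?_⟩
      · intro k
        by_cases hk : k = N
        · simp [hk]
        · simp [hk, he k]
      · have h3 : ∀ j, ∑ k ∈ range (N + 1), (if k = N then (1:ℝ) else e k) * a j k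
            = A j + a j N := by
          intro j
          rw [Finset.sum_range_succ]
          congr 1
          · refine Finset.sum_congr rfl fun k hk => ?_
            have : k ≠ N := (Finset.mem_range.mp hk).ne
            simp [this]
          · simp
        simp only [h3]
        linarith
    · refine ⟨fun k => if k = N then -1 else e k, ?_, ?_⟩
      · intro k
        by_cases hk : k = N
        · simp [hk]
        · simp [hk, he k]
      · have h3 : ∀ j, ∑ k ∈ range (N + 1), (if k = N then (-1:ℝ) else e k) * a j k
            = A j - a j N := by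
          intro j
          rw [Finset.sum_range_succ, sub_eq_add_neg]
          congr 1
          · refine Finset.sum_congr rfl fun k hk => ?_
            have : k ≠ N := (Finset.mem_range.mp hk).ne
            simp [this]
          · simp
        simp only [h3]
        linarith

end Pool.Agent.Lib.MP_f8d220_an
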