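import Mathlib
import Pool.Agent.Lib.MP_f8d220_an.Signs

set_option autoImplicit false

namespace Pool.Agent.Lib.MP_f8d220_an

open Finset

/-- `e(k t) = exp (2 π i k t)`. -/
noncomputable def ee (k : ℝ) (t : ℝ) : ℂ := Complex.exp (2 * Real.pi * Complex.I * k * t)

theorem norm_ee (k t : ℝ) : ‖ee k t‖ = 1 := by
  have h : 2 * Real.pi * Complex.I * k * t = ((2 * Real.pi * k * t : ℝ) : ℂ) * Complex.I := by
    push_cast; ring
  rw [ee, h, Complex.norm_exp_ofReal_mul_I]

theorem ee_add_int (k : ℕ) (t : ℝ) (z : ℤ) : ee k (t + z) = ee k t := by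
  have h : (2 * Real.pi * Complex.I * (k : ℝ) * ((t + z : ℝ) : ℂ) : ℂ)
      = 2 * Real.pi * Complex.I * (k : ℝ) * t + ((k * z : ℤ) : ℂ) * (2 * Real.pi * Complex.I) := by
    push_cast; ring
  rw [ee, ee, h, Complex.exp_add, Complex.exp_int_mul_two_pi_mul_I, mul_one]

theorem ee_sub_le (k s t : ℝ) (hk : 0 ≤ k) : ‖ee k s - ee k t‖ ≤ 2 * Real.pi * k * |s - t| := by
  have h1 : ee k s - ee k t = ee k t * (Complex.exp (((2 * Real.pi * k * (s - t) : ℝ) : ℂ) * Complex.I) - 1) := by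
    rw [mul_sub, mul_one]
    congr 1
    rw [ee, ee, ← Complex.exp_add]
    congr 1
    push_cast; ring
  rw [h1, norm_mul, norm_ee, one_mul]
  have h2 := Real.norm_exp_I_mul_ofReal_sub_one_le (x := 2 * Real.pi * k * (s - t))
  rw [mul_comm] at h2
  refine h2.trans ?_
  rw [Real.norm_eq_abs, abs_mul, abs_of_nonneg (by positivity)]

theorem exists_signs_trig (N : ℕ) (hN : 1 ≤ N) (d : ℕ → ℂ) (D : ℝ) (hD : 0 < D)
    (hd : ∑ k ∈ range N, ‖d k‖ ^ 2 ≤ D ^ 2) :
    ∃ e : ℕ → ℝ, (∀ k, e k = 1 ∨ e k = -1) ∧ ∀ t : ℝ,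
      ‖∑ k ∈ range N, (e k : ℂ) * d k * ee k t‖ ≤
        D * (2 * √(2 * Real.log (4 * (N : ℝ) ^ 2)) + 7) := by
  set L : ℝ := √(2 * Real.log (4 * (N : ℝ) ^ 2)) with hL
  have hNpos : (0 : ℝ) < N := by exact_mod_cast hN
  have hN1 : (1 : ℝ) ≤ N := by exact_mod_cast hN
  have hlogpos : 0 < Real.log (4 * (N : ℝ) ^ 2) := by
    apply Real.log_pos
    nlinarith
  have hLpos : 0 < L := by rw [hL]; positivity
  have hLsq : L ^ 2 = 2 * Real.log (4 * (N : ℝ) ^ 2) := by
    rw [hL, Real.sq_sqrt (by positivity)]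
  -- the family of linear forms
  set lam : ℝ := L / D with hlam
  have hlampos : 0 < lam := by positivity
  let a : ℕ × Bool → ℕ → ℝ := fun j k =>
    lam * (if j.2 then (d k * ee k ((j.1 : ℝ) / (N : ℝ) ^ 2)).re
      else (d k * ee k ((j.1 : ℝ) / (N : ℝ) ^ 2)).im)
  let s : Finset (ℕ × Bool) := range (N ^ 2) ×ˢ Finset.univ
  obtain ⟨e, he, hle⟩ := exists_signs_cosh s a N (fun _ => 1) (fun _ _ => zero_le_one)
  refine ⟨e, he, ?_⟩
  have hasq : ∀ j k, (a j k) ^ 2 ≤ lam ^ 2 * ‖d k‖ ^ 2 := by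
    intro j k
    have hz : ‖d k * ee k ((j.1 : ℝ) / (N : ℝ) ^ 2)‖ = ‖d k‖ := by
      rw [norm_mul, norm_ee, mul_one]
    simp only [a]
    rw [mul_pow]
    refine mul_le_mul_of_nonneg_left ?_ (by positivity)
    split_ifs
    · rw [← hz, ← sq_abs]
      exact pow_le_pow_left₀ (abs_nonneg _) (Complex.abs_re_le_norm _) 2
    · rw [← hz, ← sq_abs]
      exact pow_le_pow_left₀ (abs_nonneg _) (Complex.abs_im_le_norm _) 2
  have hbound : ∀ j, ∑ k ∈ range N, (a j k) ^ 2 / 2 ≤ L ^ 2 / 2 := by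
    intro j
    calc ∑ k ∈ range N, (a j k) ^ 2 / 2 ≤ ∑ k ∈ range N, lam ^ 2 * ‖d k‖ ^ 2 / 2 :=
          Finset.sum_le_sum fun k _ => by linarith [hasq j k]
      _ = lam ^ 2 / 2 * ∑ k ∈ range N, ‖d k‖ ^ 2 := by
          rw [Finset.mul_sum]; refine Finset.sum_congr rfl fun k _ => ?_; ring
      _ ≤ lam ^ 2 / 2 * D ^ 2 := mul_le_mul_of_nonneg_left hd (by positivity)
      _ = L ^ 2 / 2 := by rw [hlam]; field_simp
  have hexpL : Real.exp (L ^ 2 / 2) = 4 * (N : ℝ) ^ 2 := by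
    rw [hLsq, mul_div_cancel_left₀ _ (two_ne_zero), Real.exp_log (by positivity)]
  have hX : ∀ j ∈ s, |∑ k ∈ range N, e k * a j k| ≤ L ^ 2 := by
    intro j hj
    have h1 : Real.cosh (∑ k ∈ range N, e k * a j k)
        ≤ ∑ j ∈ s, 1 * Real.cosh (∑ k ∈ range N, e k * a j k) := by
      simp only [one_mul]
      exact Finset.single_le_sum (f := fun j => Real.cosh (∑ k ∈ range N, e k * a j k))
        (fun i _ => (Real.cosh_pos _).le) hj
    have h2 : ∑ j ∈ s, 1 * Real.exp (∑ k ∈ range N, (a j k) ^ 2 / 2)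
        ≤ 2 * (N : ℝ) ^ 2 * (4 * (N : ℝ) ^ 2) := by
      calc ∑ j ∈ s, 1 * Real.exp (∑ k ∈ range N, (a j k) ^ 2 / 2)
          ≤ ∑ j ∈ s, Real.exp (L ^ 2 / 2) := by
            refine Finset.sum_le_sum fun j _ => ?_
            rw [one_mul]
            exact Real.exp_le_exp.mpr (hbound j)
        _ = 2 * (N : ℝ) ^ 2 * (4 * (N : ℝ) ^ 2) := by
            rw [Finset.sum_const, hexpL, nsmul_eq_mul]
            simp only [s, Finset.card_product, Finset.card_range, Finset.card_univ,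
              Fintype.card_bool]
            push_cast; ring
    set X := ∑ k ∈ range N, e k * a j k with hXdef
    have h3 : Real.exp |X| ≤ 2 * Real.cosh X := by
      rw [← Real.cosh_abs, Real.cosh_eq]
      have := Real.exp_pos (-|X|)
      linarith
    have h4 : Real.exp |X| ≤ (4 * (N : ℝ) ^ 2) * (4 * (N : ℝ) ^ 2) := by
      calc Real.exp |X| ≤ 2 * Real.cosh X := h3
        _ ≤ 2 * (2 * (N : ℝ) ^ 2 * (4 * (N : ℝ) ^ 2)) := by linarith
        _ = _ := by ring
    rw [← hexpL, ← Real.exp_add, Real.exp_le_exp] at h4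
    linarith
  -- the grid bound
  have hgrid : ∀ j ∈ range (N ^ 2),
      ‖∑ k ∈ range N, (e k : ℂ) * d k * ee k ((j : ℝ) / (N : ℝ) ^ 2)‖ ≤ 2 * D * L := by
    intro j hj
    have hre := hX (j, true) (by simp [s]; exact Finset.mem_range.mp hj)
    have him := hX (j, false) (by simp [s]; exact Finset.mem_range.mp hj)
    set S := ∑ k ∈ range N, (e k : ℂ) * d k * ee k ((j : ℝ) / (N : ℝ) ^ 2) with hS
    have hSre : ∑ k ∈ range N, e k * a (j, true) k = lam * S.re := by
      rw [hS, Complex.re_sum, Finset.mul_sum]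
      refine Finset.sum_congr rfl fun k _ => ?_
      simp only [a, if_true]
      rw [mul_assoc (e k : ℂ), Complex.re_ofReal_mul]; ring
    have hSim : ∑ k ∈ range N, e k * a (j, false) k = lam * S.im := by
      rw [hS, Complex.im_sum, Finset.mul_sum]
      refine Finset.sum_congr rfl fun k _ => ?_
      simp only [a]
      rw [mul_assoc (e k : ℂ), Complex.im_ofReal_mul]; simp; ring
    rw [hSre, abs_mul, abs_of_pos hlampos] at hre
    rw [hSim, abs_mul, abs_of_pos hlampos] at him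
    have hre' : |S.re| ≤ D * L := by
      have : L / D * |S.re| ≤ L ^ 2 := hre
      rw [div_mul_eq_mul_div, div_le_iff₀ hD] at this
      have h5 : L * |S.re| ≤ L * (D * L) := by linarith [this]
      exact le_of_mul_le_mul_left h5 hLpos
    have him' : |S.im| ≤ D * L := by
      have : L / D * |S.im| ≤ L ^ 2 := him
      rw [div_mul_eq_mul_div, div_le_iff₀ hD] at this
      have h5 : L * |S.im| ≤ L * (D * L) := by linarith [this]
      exact le_of_mul_le_mul_left h5 hLpos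
    calc ‖S‖ ≤ |S.re| + |S.im| := Complex.norm_le_abs_re_add_abs_im S
      _ ≤ 2 * D * L := by linarith
  -- general t
  have hsumd : ∑ k ∈ range N, ‖d k‖ ≤ √N * D := by
    have h1 : (∑ k ∈ range N, ‖d k‖) ^ 2 ≤ N * ∑ k ∈ range N, ‖d k‖ ^ 2 := by
      have := sq_sum_le_card_mul_sum_sq (s := range N) (f := fun k => ‖d k‖)
      simpa using this
    have h2 : (∑ k ∈ range N, ‖d k‖) ^ 2 ≤ (√N * D) ^ 2 := by
      rw [mul_pow, Real.sq_sqrt hNpos.le]
      exact h1.trans (mul_le_mul_of_nonneg_left hd hNpos.le)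
    exact (sq_le_sq₀ (Finset.sum_nonneg fun k _ => norm_nonneg _) (by positivity)).mp h2
  intro t
  -- reduce to fract
  have hper : ∑ k ∈ range N, (e k : ℂ) * d k * ee k t
      = ∑ k ∈ range N, (e k : ℂ) * d k * ee k (Int.fract t) := by
    refine Finset.sum_congr rfl fun k _ => ?_
    have : t = Int.fract t + (⌊t⌋ : ℤ) := (Int.fract_add_floor t).symm
    conv_lhs => rw [this]
    rw [ee_add_int]
  rw [hper]
  set t' := Int.fract t with ht'
  have ht0 : 0 ≤ t' := Int.fract_nonneg t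
  have ht1 : t' < 1 := Int.fract_lt_one t
  set j := ⌊t' * (N : ℝ) ^ 2⌋₊ with hj
  have hN2 : (0 : ℝ) < (N : ℝ) ^ 2 := by positivity
  have hjle : (j : ℝ) ≤ t' * (N : ℝ) ^ 2 := Nat.floor_le (by positivity)
  have hjlt : t' * (N : ℝ) ^ 2 < j + 1 := Nat.lt_floor_add_one _
  have hjmem : j ∈ range (N ^ 2) := by
    rw [Finset.mem_range]
    have : (j : ℝ) < (N : ℝ) ^ 2 := by nlinarith
    exact_mod_cast this
  have hclose : |t' - (j : ℝ) / (N : ℝ) ^ 2| ≤ 1 / (N : ℝ) ^ 2 := by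
    rw [abs_le]
    constructor
    · have : (j : ℝ) / (N : ℝ) ^ 2 ≤ t' := by rw [div_le_iff₀ hN2]; exact hjle
      have h0 : 0 ≤ 1 / (N : ℝ) ^ 2 := by positivity
      linarith
    · have : t' < (j + 1 : ℝ) / (N : ℝ) ^ 2 := by rw [lt_div_iff₀ hN2]; exact hjlt
      rw [add_div] at this
      linarith
  have hdiff : ‖∑ k ∈ range N, (e k : ℂ) * d k * ee k t'
      - ∑ k ∈ range N, (e k : ℂ) * d k * ee k ((j : ℝ) / (N : ℝ) ^ 2)‖ ≤ 7 * D := by
    rw [← Finset.sum_sub_distrib]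
    calc ‖∑ k ∈ range N, ((e k : ℂ) * d k * ee k t'
          - (e k : ℂ) * d k * ee k ((j : ℝ) / (N : ℝ) ^ 2))‖
        ≤ ∑ k ∈ range N, ‖(e k : ℂ) * d k * ee k t'
          - (e k : ℂ) * d k * ee k ((j : ℝ) / (N : ℝ) ^ 2)‖ := norm_sum_le _ _
      _ ≤ ∑ k ∈ range N, ‖d k‖ * (2 * Real.pi * (1 / N)) := by
          refine Finset.sum_le_sum fun k hk => ?_
          rw [← mul_sub, norm_mul, norm_mul]
          have he1 : ‖(e k : ℂ)‖ = 1 := by
            rcases he k with h | h <;> simp [h]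
          rw [he1, one_mul]
          refine mul_le_mul_of_nonneg_left ?_ (norm_nonneg _)
          refine (ee_sub_le k _ _ (Nat.cast_nonneg k)).trans ?_
          have hkN : (k : ℝ) ≤ N := by exact_mod_cast (Finset.mem_range.mp hk).le
          calc 2 * Real.pi * (k : ℝ) * |t' - (j : ℝ) / (N : ℝ) ^ 2|
              ≤ 2 * Real.pi * N * (1 / (N : ℝ) ^ 2) := by
                apply mul_le_mul _ hclose (abs_nonneg _) (by positivity)
                exact mul_le_mul_of_nonneg_left hkN (by positivity)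
            _ = 2 * Real.pi * (1 / N) := by field_simp
      _ = (2 * Real.pi * (1 / N)) * ∑ k ∈ range N, ‖d k‖ := by
          rw [Finset.mul_sum]; refine Finset.sum_congr rfl fun k _ => ?_; ring
      _ ≤ (2 * Real.pi * (1 / N)) * (√N * D) :=
          mul_le_mul_of_nonneg_left hsumd (by positivity)
      _ ≤ 7 * D := by
          have hs : √(N : ℝ) ≤ N := by
            rw [Real.sqrt_le_left hNpos.le]
            nlinarith
          have hpi : Real.pi < 3.15 := Real.pi_lt_d2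
          have h6 : (1 / (N : ℝ)) * √N ≤ 1 := by
            rw [one_div, inv_mul_le_iff₀ hNpos, mul_one]; exact hs
          have h7 : (2 * Real.pi * (1 / N)) * (√N * D) = 2 * Real.pi * D * ((1 / (N : ℝ)) * √N) := by
            ring
          rw [h7]
          have h8 : 2 * Real.pi * D * ((1 / (N : ℝ)) * √N) ≤ 2 * Real.pi * D * 1 :=
            mul_le_mul_of_nonneg_left h6 (by positivity)
          nlinarith
  calc ‖∑ k ∈ range N, (e k : ℂ) * d k * ee k t'‖
      ≤ ‖∑ k ∈ range N, (e k : ℂ) * d k * ee k ((j : ℝ) / (N : ℝ) ^ 2)‖ + 7 * D := by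
        have := norm_sub_norm_le (∑ k ∈ range N, (e k : ℂ) * d k * ee k t')
          (∑ k ∈ range N, (e k : ℂ) * d k * ee k ((j : ℝ) / (N : ℝ) ^ 2))
        linarith
    _ ≤ 2 * D * L + 7 * D := by linarith [hgrid j hjmem]
    _ = D * (2 * L + 7) := by ring

end Pool.Agent.Lib.MP_f8d220_an
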