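import Mathlib
import Pool.Agent.Lib.MP_f8d220_an.SignsTrig

set_option autoImplicit false

namespace Pool.Agent.Lib.MP_f8d220_an

open MeasureTheory intervalIntegral Filter Topology

theorem fourier_one_eq_ee (k : ℤ) (t : ℝ) :
    (fourier k (t : AddCircle (1 : ℝ)) : ℂ) = ee k t := by
  rw [fourier_coe_apply, ee]
  congr 1
  push_cast
  ring

section
variable (g : ℝ → ℂ) (hg : ContinuousOn g (Set.Icc 0 1)) (h01 : g 0 = g 1) (c : ℤ → ℂ)
    (hc : ∀ k : ℤ, c k = ∫ t in (0:ℝ)..1, ee (-(k : ℝ)) t * g t)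
include hg h01 hc

theorem fourier_inversion (hs : Summable c) (t : ℝ) (ht : t ∈ Set.Ico (0:ℝ) 1) :
    HasSum (fun k : ℤ => c k * ee k t) (g t) := by
  have hT : Fact ((0:ℝ) < 1) := ⟨one_pos⟩
  let G : C(AddCircle (1:ℝ), ℂ) :=
    ⟨AddCircle.liftIco 1 0 g, AddCircle.liftIco_zero_continuous h01 hg⟩
  have hcoef : ∀ k : ℤ, fourierCoeff (G : AddCircle (1:ℝ) → ℂ) k = c k := by
    intro k
    have h1 : fourierCoeff (G : AddCircle (1:ℝ) → ℂ) k
        = fourierCoeff (AddCircle.liftIco (1:ℝ) 0 g) k := rfl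
    rw [h1, fourierCoeff_eq_intervalIntegral _ _ 0, hc]
    simp only [zero_add, div_one, one_smul]
    refine intervalIntegral.integral_congr_Ioo_of_le zero_le_one fun x hx => ?_
    rw [AddCircle.liftIco_zero_coe_apply (Set.Ioo_subset_Ico_self hx), fourier_one_eq_ee,
      smul_eq_mul]
    push_cast
    rfl
  have hs' : Summable (fourierCoeff (G : AddCircle (1:ℝ) → ℂ)) := by
    refine hs.congr fun k => (hcoef k).symm
  have h2 := has_pointwise_sum_fourier_series_of_summable hs' (t : AddCircle (1:ℝ))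
  have h3 : G (t : AddCircle (1:ℝ)) = g t := AddCircle.liftIco_zero_coe_apply ht
  rw [h3] at h2
  refine h2.congr_fun fun k => ?_
  rw [hcoef, fourier_one_eq_ee, smul_eq_mul]

theorem fourier_parseval :
    HasSum (fun k : ℤ => ‖c k‖ ^ 2) (∫ t in (0:ℝ)..1, ‖g t‖ ^ 2) := by
  have hT : Fact ((0:ℝ) < 1) := ⟨one_pos⟩
  have hmem : MemLp g 2 (volume.restrict (Set.Ioc (0:ℝ) 1)) := by
    have hbdd : ∃ C, ∀ x ∈ Set.Icc (0:ℝ) 1, ‖g x‖ ≤ C :=
      isCompact_Icc.exists_bound_of_continuousOn hg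
    obtain ⟨C, hC⟩ := hbdd
    have hmeas : AEStronglyMeasurable g (volume.restrict (Set.Ioc (0:ℝ) 1)) :=
      (hg.mono Set.Ioc_subset_Icc_self).aestronglyMeasurable measurableSet_Ioc
    refine MemLp.of_bound hmeas C ?_
    rw [ae_restrict_iff' measurableSet_Ioc]
    exact Filter.Eventually.of_forall fun x hx => hC x (Set.Ioc_subset_Icc_self hx)
  have h1 := hasSum_sq_fourierCoeffOn (zero_lt_one' ℝ) hmem
  have h2 : (1 - 0 : ℝ)⁻¹ • ∫ x in (0:ℝ)..1, ‖g x‖ ^ 2 = ∫ t in (0:ℝ)..1, ‖g t‖ ^ 2 := by simp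
  rw [h2] at h1
  refine h1.congr_fun fun k => ?_
  rw [fourierCoeffOn_eq_integral, hc]
  congr 2
  have h3 : (1 / (1 - 0) : ℝ) = 1 := by norm_num
  rw [h3, one_smul]
  refine intervalIntegral.integral_congr fun x _ => ?_
  simp only [smul_eq_mul]
  congr 1
  rw [fourier_coe_apply, ee]
  congr 1
  push_cast
  simp

end

end Pool.Agent.Lib.MP_f8d220_an
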