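import Mathlib

set_option autoImplicit false

namespace Pool.Agent.Lib.MP_f8d220_an

open Finset

theorem sum_inv_cube (D : ℝ) (hD : 2 ≤ D) (M : ℕ) :
    ∑ j ∈ range M, 1 / (D + j) ^ 3 ≤ 2 / D ^ 2 := by
  have key : ∀ M : ℕ, ∑ j ∈ range M, 1 / (D + j) ^ 3 ≤ (1 / D) * (1 / (D - 1) - 1 / (D + M - 1)) := by
    intro M
    induction M with
    | zero => simp
    | succ M ih =>
      rw [Finset.sum_range_succ]
      have hM : (0 : ℝ) ≤ M := Nat.cast_nonneg M
      have h1 : 1 / (D + M) ^ 3 ≤ (1 / D) * (1 / (D + M - 1) - 1 / (D + M)) := by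
        have h2 : 1 / (D + M - 1) - 1 / (D + M) = 1 / ((D + M - 1) * (D + M)) := by
          rw [div_sub_div _ _ (by linarith) (by linarith)]
          congr 1; ring
        rw [h2, div_mul_div_comm, mul_one]
        apply one_div_le_one_div_of_le
        · have : 0 < D + M - 1 := by linarith
          have : 0 < D + M := by linarith
          positivity
        · have h3 : 0 < D + M := by linarith
          have h4 : D * ((D + M - 1) * (D + M)) ≤ (D + M) * ((D + M) * (D + M)) := by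
            apply mul_le_mul (by linarith) _ _ h3.le
            · apply mul_le_mul_of_nonneg_right (by linarith) h3.le
            · exact mul_nonneg (by linarith) h3.le
          calc D * ((D + M - 1) * (D + M)) ≤ (D + M) * ((D + M) * (D + M)) := h4
            _ = (D + M) ^ 3 := by ring
      have h5 : (1 / D) * (1 / (D - 1) - 1 / (D + ((M + 1 : ℕ) : ℝ) - 1))
          = (1 / D) * (1 / (D - 1) - 1 / (D + M - 1)) + (1 / D) * (1 / (D + M - 1) - 1 / (D + M)) := by
        push_cast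
        have : D + (M + 1 : ℝ) - 1 = D + M := by ring
        rw [this]; ring
      rw [h5]
      exact add_le_add ih h1
  refine (key M).trans ?_
  have hM : (0 : ℝ) ≤ M := Nat.cast_nonneg M
  have h1 : 0 ≤ 1 / (D + M - 1) := by
    apply div_nonneg zero_le_one; linarith
  have h2 : 1 / (D - 1) ≤ 2 / D := by
    rw [div_le_div_iff₀ (by linarith) (by linarith)]; linarith
  calc (1 / D) * (1 / (D - 1) - 1 / (D + M - 1)) ≤ (1 / D) * (2 / D) := by
        apply mul_le_mul_of_nonneg_left _ (by positivity)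
        linarith
    _ = 2 / D ^ 2 := by ring

theorem int_tail_aux (f : ℤ → ℂ) (K n : ℤ) (B : ℝ)
    (h1 : ∀ M : ℕ, ∑ j ∈ range M, ‖f (n + 1 + j)‖ ≤ B)
    (h2 : ∀ M : ℕ, ∑ j ∈ range M, ‖f (K - 1 - j)‖ ≤ B) (u : Finset ℤ) :
    ∑ k ∈ u \ Finset.Icc K n, ‖f k‖ ≤ 2 * B := by
  obtain ⟨M₀, hM₀⟩ := (u.image Int.natAbs).exists_le
  set M := M₀ + n.natAbs + K.natAbs + 2 with hM
  have hsub : u \ Finset.Icc K n ⊆
      ((range M).image (fun j : ℕ => n + 1 + (j : ℤ))) ∪ ((range M).image (fun j : ℕ => K - 1 - (j : ℤ))) := by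
    intro k hk
    rw [Finset.mem_sdiff, Finset.mem_Icc] at hk
    have hk1 : k.natAbs ≤ M₀ := hM₀ _ (Finset.mem_image_of_mem _ hk.1)
    rw [Finset.mem_union, Finset.mem_image, Finset.mem_image]
    by_cases hKk : K ≤ k
    · have hnk : n < k := by
        by_contra hcon
        exact hk.2 ⟨hKk, not_lt.mp hcon⟩
      left
      refine ⟨(k - n - 1).toNat, ?_, ?_⟩
      · rw [Finset.mem_range]; omega
      · rw [Int.toNat_of_nonneg (by omega)]; ring
    · right
      rw [not_le] at hKk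
      refine ⟨(K - 1 - k).toNat, ?_, ?_⟩
      · rw [Finset.mem_range]; omega
      · rw [Int.toNat_of_nonneg (by omega)]; ring
  calc ∑ k ∈ u \ Finset.Icc K n, ‖f k‖
      ≤ ∑ k ∈ ((range M).image (fun j : ℕ => n + 1 + (j : ℤ))) ∪
          ((range M).image (fun j : ℕ => K - 1 - (j : ℤ))), ‖f k‖ :=
        Finset.sum_le_sum_of_subset_of_nonneg hsub fun _ _ _ => norm_nonneg _
    _ ≤ ∑ k ∈ (range M).image (fun j : ℕ => n + 1 + (j : ℤ)), ‖f k‖ +
          ∑ k ∈ (range M).image (fun j : ℕ => K - 1 - (j : ℤ)), ‖f k‖ := by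
        have := Finset.sum_union_inter (s₁ := (range M).image (fun j : ℕ => n + 1 + (j : ℤ)))
          (s₂ := (range M).image (fun j : ℕ => K - 1 - (j : ℤ))) (f := fun k => ‖f k‖)
        have h0 : 0 ≤ ∑ k ∈ ((range M).image (fun j : ℕ => n + 1 + (j : ℤ))) ∩
          ((range M).image (fun j : ℕ => K - 1 - (j : ℤ))), ‖f k‖ :=
          Finset.sum_nonneg fun _ _ => norm_nonneg _
        linarith
    _ = ∑ j ∈ range M, ‖f (n + 1 + j)‖ + ∑ j ∈ range M, ‖f (K - 1 - j)‖ := by
        rw [Finset.sum_image, Finset.sum_image]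
        · intro a _ b _ hab
          simpa using hab
        · intro a _ b _ hab
          simpa using hab
    _ ≤ 2 * B := by linarith [h1 M, h2 M]

theorem int_tail (f : ℤ → ℂ) (K n : ℤ) (B : ℝ)
    (h1 : ∀ M : ℕ, ∑ j ∈ range M, ‖f (n + 1 + j)‖ ≤ B)
    (h2 : ∀ M : ℕ, ∑ j ∈ range M, ‖f (K - 1 - j)‖ ≤ B) :
    Summable f ∧ ∀ S, HasSum f S → ‖S - ∑ k ∈ Finset.Icc K n, f k‖ ≤ 2 * B := by
  have haux := int_tail_aux f K n B h1 h2
  constructor
  · apply Summable.of_norm
    refine summable_of_sum_le (c := 2 * B + ∑ k ∈ Finset.Icc K n, ‖f k‖)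
      (fun _ => norm_nonneg _) fun u => ?_
    have h3 : ∑ k ∈ u, ‖f k‖ ≤ ∑ k ∈ u \ Finset.Icc K n, ‖f k‖ + ∑ k ∈ Finset.Icc K n, ‖f k‖ := by
      have h4 := Finset.sum_le_sum_of_subset_of_nonneg
        (f := fun k => ‖f k‖) (Finset.subset_union_left (s₁ := u) (s₂ := Finset.Icc K n))
        (fun _ _ _ => norm_nonneg _)
      refine h4.trans_eq ?_
      rw [← Finset.sdiff_union_self_eq_union, Finset.sum_union Finset.sdiff_disjoint]
    linarith [haux u]
  · intro S hS
    have hlim : Filter.Tendsto (fun u : Finset ℤ => ‖∑ k ∈ u, f k - ∑ k ∈ Finset.Icc K n, f k‖)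
        Filter.atTop (nhds ‖S - ∑ k ∈ Finset.Icc K n, f k‖) :=
      (Filter.Tendsto.sub_const hS _).norm
    refine le_of_tendsto hlim ?_
    filter_upwards [Filter.eventually_ge_atTop (Finset.Icc K n)] with u hu
    rw [← Finset.sum_sdiff hu, add_sub_cancel_right]
    exact (norm_sum_le _ _).trans (haux u)

end Pool.Agent.Lib.MP_f8d220_an
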