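import Mathlib
import Pool.Agent.Lib.MP_f8d220_an.Coeff

set_option autoImplicit false
set_option linter.unusedSectionVars false

namespace Pool.Agent.Lib.MP_f8d220_an

open MeasureTheory intervalIntegral Filter Topology

section
variable {h : ℝ} (hh : 0 < h) (hh1 : h ≤ 1 / 100)
include hh hh1

/-- Upper bound for the coefficient integral at any frequency. -/
theorem II_bound (ν u : ℝ) (hν : ν * h ^ 100 = 1) :
    ‖II h ν u‖ ≤ 43 * h ^ 52 ∨
      (0 < u ∧ ‖II h ν u‖ ≤ h ^ 50 * (√3 * u / (1 - 3 * h) ^ 2) + 25 * h ^ 54) := by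
  have hret := ret_bound hh hh1 ν u hν
  have h54 : h ^ 54 ≤ h ^ 52 := pow_le_pow_of_le_one hh.le (by linarith) (by norm_num)
  have hW : 0 < h ^ 45 := by positivity
  have hWt := W2_le_tt hh hh1
  rcases le_or_gt u (xx h (h ^ 45)) with h1 | h1
  · left
    have := edge_left hh hh1 ν u hν h1
    rw [II]
    refine (norm_add_le _ _).trans ?_
    linarith
  rcases le_or_gt (xx h (tt h - h ^ 45)) u with h2 | h2
  · left
    have := edge_right hh hh1 ν u hν h2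
    rw [II]
    refine (norm_add_le _ _).trans ?_
    linarith
  right
  have hcont : ContinuousOn (xx h) (Set.Icc (h ^ 45) (tt h - h ^ 45)) := fun r hr =>
    (hasDerivAt_xx hh hh1 (hW.le.trans hr.1)
      (hr.2.trans (by linarith))).continuousAt.continuousWithinAt
  obtain ⟨t₀, ht₀, hu⟩ := intermediate_value_Icc (by linarith) hcont ⟨h1.le, h2.le⟩
  have h3 := inner_bound hh hh1 ν t₀ hν ht₀.1 ht₀.2
  rw [hu] at h3
  refine ⟨?_, ?_⟩
  · rw [← hu]
    have ht00 : 0 ≤ t₀ := hW.le.trans ht₀.1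
    have ht0t : t₀ ≤ tt h := by linarith [ht₀.2]
    have h5 := xx_ge hh hh1 ht00 ht0t
    have h6 := cA_pos hh hh1 ht00
    have h7 : 0 ≤ (1 - 3 * h) * cA h t₀ := mul_nonneg (by linarith) h6.le
    linarith
  · rw [II]
    refine (norm_add_le _ _).trans ?_
    linarith

/-- Coefficients away from the frequency range. -/
theorem II_tail (ν u d : ℝ) (hν : ν * h ^ 100 = 1) (hd : h / 8 ≤ d)
    (hint : ∃ z : ℤ, ν * (pr h 1 - ph h 0) - ν * u = z)
    (hu : u ≤ xx h 0 - d ∨ xx h (tt h) + d ≤ u) :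
    ‖II h ν u‖ ≤ h ^ 185 / d ^ 3 := by
  have hνpos := nu_pos hh hh1 ν hν
  have hνv := nu_eq hh hh1 ν hν
  have htt := tt_pos hh hh1
  have hdpos : 0 < d := lt_of_lt_of_le (by positivity) hd
  have hx0t : xx h 0 ≤ xx h (tt h) := xx_mono hh hh1 0 (tt h) le_rfl htt.le le_rfl
  have hyd1 : ∀ t ∈ Set.Icc 0 (tt h), d ≤ |xx h t - u| := by
    intro t ht
    have h1 := xx_mono hh hh1 0 t le_rfl ht.1 ht.2
    have h2 := xx_mono hh hh1 t (tt h) ht.1 ht.2 le_rfl
    rcases hu with h3 | h3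
    · exact (by linarith : d ≤ xx h t - u).trans (le_abs_self _)
    · exact (by linarith : d ≤ -(xx h t - u)).trans (neg_le_abs _)
  have hrr : ∀ t ∈ Set.Icc (tt h) 1, xx h 0 ≤ rr h t ∧ rr h t ≤ xx h (tt h) := by
    intro t ht
    have hs := sg_pos hh hh1
    have h1 := rr_one hh hh1
    have h2 : rr h t = rr h 1 + sg h * (1 - t) := by rw [rr, rr]; ring
    constructor
    · rw [h2, h1]
      have : 0 ≤ sg h * (1 - t) := mul_nonneg hs.le (by linarith [ht.2])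
      linarith
    · rw [rr]
      have : 0 ≤ sg h * (t - tt h) := mul_nonneg hs.le (by linarith [ht.1])
      linarith
  have hyd2 : ∀ t ∈ Set.Icc (tt h) 1, d ≤ |rr h t - u| := by
    intro t ht
    obtain ⟨h1, h2⟩ := hrr t ht
    rcases hu with h3 | h3
    · exact (by linarith : d ≤ rr h t - u).trans (le_abs_self _)
    · exact (by linarith : d ≤ -(rr h t - u)).trans (neg_le_abs _)
  have e1 := osc_double ν hνpos (fun t => ph h t - u * t) (fun t => xx h t - u) (xx' h) (xx'' h)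
    0 (tt h) d (1 / h ^ 6) (1 / h ^ 15) htt.le hdpos
    (fun t ht => hasDerivAt_phu hh hh1 u t ht.1 ht.2)
    (fun t ht => (hasDerivAt_xx hh hh1 ht.1 ht.2).sub_const u)
    (fun t ht => hasDerivAt_xx' hh hh1 ht.1 ht.2)
    (continuousOn_xx'' hh hh1) hyd1
    (fun t ht => by
      rw [abs_of_nonneg (by linarith [xx'_ge hh hh1 ht.1 ht.2])]
      exact xx'_le hh hh1 ht.1 ht.2)
    (fun t ht => xx''_abs_le hh hh1 ht.1 ht.2)
  have e2 := osc_double ν hνpos (fun t => pr h t - u * t) (fun t => rr h t - u)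
    (fun _ => - sg h) (fun _ => 0)
    (tt h) 1 d (1 / h ^ 8) 0 (tt_lt_one hh hh1).le hdpos
    (fun t _ => hasDerivAt_pru hh hh1 u t)
    (fun t _ => (hasDerivAt_rr hh hh1 t).sub_const u)
    (fun t _ => hasDerivAt_const t _)
    continuousOn_const hyd2
    (fun t _ => by
      rw [abs_neg, abs_of_pos (sg_pos hh hh1)]
      exact sg_le hh hh1)
    (fun t _ => by simp)
  -- boundary terms cancel
  have hb : osc ν (fun t => pr h t - u * t) 1 = osc ν (fun t => ph h t - u * t) 0 := by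
    obtain ⟨z, hz⟩ := hint
    simp only [osc]
    have h1 : ((2 * Real.pi * ν * (pr h 1 - u * 1) : ℝ) : ℂ) * Complex.I
        = ((2 * Real.pi * ν * (ph h 0 - u * 0) : ℝ) : ℂ) * Complex.I
          + (z : ℂ) * (2 * Real.pi * Complex.I) := by
      have h2 : 2 * Real.pi * ν * (pr h 1 - u * 1)
          = 2 * Real.pi * ν * (ph h 0 - u * 0) + z * (2 * Real.pi) := by
        rw [← hz]; ring
      rw [h2]; push_cast; ring
    rw [h1, Complex.exp_add, Complex.exp_int_mul_two_pi_mul_I, mul_one]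
  have hm : osc ν (fun t => pr h t - u * t) (tt h) = osc ν (fun t => ph h t - u * t) (tt h) := by
    simp only [osc, pr_tt hh hh1]
  have hr1 := rr_one hh hh1
  have hrt := rr_tt hh hh1
  set c : ℂ := (1 / (((2 * Real.pi * ν : ℝ) : ℂ) * Complex.I)) with hc
  have hII : II h ν u = ((∫ t in (0:ℝ)..(tt h), osc ν (fun t => ph h t - u * t) t) -
      c * (osc ν (fun t => ph h t - u * t) (tt h) / ((xx h (tt h) - u : ℝ) : ℂ)
        - osc ν (fun t => ph h t - u * t) 0 / ((xx h 0 - u : ℝ) : ℂ))) +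
      ((∫ t in (tt h)..1, osc ν (fun t => pr h t - u * t) t) -
      c * (osc ν (fun t => pr h t - u * t) 1 / ((rr h 1 - u : ℝ) : ℂ)
        - osc ν (fun t => pr h t - u * t) (tt h) / ((rr h (tt h) - u : ℝ) : ℂ))) := by
    rw [II, hb, hm, hr1, hrt]; ring
  rw [hII]
  refine (norm_add_le _ _).trans ((add_le_add e1 e2).trans ?_)
  have h1t : 1 - tt h = h ^ 8 := by rw [tt]; ring
  rw [h1t, hνv]
  have hd4 : 1 / d ^ 4 ≤ (8 / h) * (1 / d ^ 3) := by
    rw [div_mul_div_comm, mul_one, div_le_div_iff₀ (by positivity) (by positivity)]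
    have : 0 < d ^ 3 := by positivity
    have h2 : h ≤ 8 * d := by linarith
    calc 1 * (h * d ^ 3) ≤ 8 * d * d ^ 3 := by
          rw [one_mul]; exact mul_le_mul_of_nonneg_right h2 this.le
      _ = 8 * d ^ 4 := by ring
  have hpi := Real.pi_gt_three
  have htt1 : tt h - 0 ≤ 1 := by rw [tt]; have : 0 < h ^ 8 := by positivity
                                 linarith
  set q := 1 / d ^ 3 with hq
  have hqpos : 0 < q := by positivity
  have hb1 : 2 * (1 / h ^ 6) / d ^ 3 + (tt h - 0) * (1 / h ^ 15 / d ^ 3 + 3 * (1 / h ^ 6) ^ 2 / d ^ 4)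
      ≤ (2 / h ^ 6 + 1 / h ^ 15 + 24 / h ^ 13) * q := by
    have h2 : 3 * (1 / h ^ 6) ^ 2 / d ^ 4 ≤ 24 / h ^ 13 * q := by
      have h3 : 3 * (1 / h ^ 6) ^ 2 / d ^ 4 = 3 * (1 / h ^ 6) ^ 2 * (1 / d ^ 4) := by ring
      rw [h3]
      calc 3 * (1 / h ^ 6) ^ 2 * (1 / d ^ 4) ≤ 3 * (1 / h ^ 6) ^ 2 * ((8 / h) * q) := by
            apply mul_le_mul_of_nonneg_left hd4 (by positivity)
        _ = 24 / h ^ 13 * q := by field_simp; norm_num
    have h4 : 0 ≤ 1 / h ^ 15 / d ^ 3 + 3 * (1 / h ^ 6) ^ 2 / d ^ 4 := by positivity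
    have h5 : (tt h - 0) * (1 / h ^ 15 / d ^ 3 + 3 * (1 / h ^ 6) ^ 2 / d ^ 4)
        ≤ 1 * (1 / h ^ 15 / d ^ 3 + 3 * (1 / h ^ 6) ^ 2 / d ^ 4) :=
      mul_le_mul_of_nonneg_right htt1 h4
    have h6 : 2 * (1 / h ^ 6) / d ^ 3 = 2 / h ^ 6 * q := by rw [hq]; ring
    have h7 : 1 / h ^ 15 / d ^ 3 = 1 / h ^ 15 * q := by rw [hq]; ring
    rw [h6]
    rw [h7] at h5 ⊢
    linarith
  have hb2 : 2 * (1 / h ^ 8) / d ^ 3 + h ^ 8 * (0 / d ^ 3 + 3 * (1 / h ^ 8) ^ 2 / d ^ 4)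
      ≤ (2 / h ^ 8 + 24 / h ^ 9) * q := by
    have h3 : h ^ 8 * (0 / d ^ 3 + 3 * (1 / h ^ 8) ^ 2 / d ^ 4) = 3 * (1 / h ^ 8) * (1 / d ^ 4) := by
      field_simp; ring
    rw [h3]
    have h4 : 3 * (1 / h ^ 8) * (1 / d ^ 4) ≤ 24 / h ^ 9 * q := by
      calc 3 * (1 / h ^ 8) * (1 / d ^ 4) ≤ 3 * (1 / h ^ 8) * ((8 / h) * q) := by
            apply mul_le_mul_of_nonneg_left hd4 (by positivity)
        _ = 24 / h ^ 9 * q := by field_simp; norm_num
    have h6 : 2 * (1 / h ^ 8) / d ^ 3 = 2 / h ^ 8 * q := by rw [hq]; ring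
    rw [h6]; linarith
  have hsum : (2 / h ^ 6 + 1 / h ^ 15 + 24 / h ^ 13) + (2 / h ^ 8 + 24 / h ^ 9) ≤ 2 / h ^ 15 := by
    have h2 : (2 / h ^ 6 + 1 / h ^ 15 + 24 / h ^ 13) + (2 / h ^ 8 + 24 / h ^ 9)
        = (2 * h ^ 9 + 1 + 24 * h ^ 2 + 2 * h ^ 7 + 24 * h ^ 6) / h ^ 15 := by
      field_simp; ring
    rw [h2]
    apply div_le_div_of_nonneg_right _ (by positivity)
    have h3 : h ^ 9 ≤ h ^ 2 := pow_le_pow_of_le_one hh.le (by linarith) (by norm_num)
    have h4 : h ^ 7 ≤ h ^ 2 := pow_le_pow_of_le_one hh.le (by linarith) (by norm_num)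
    have h5 : h ^ 6 ≤ h ^ 2 := pow_le_pow_of_le_one hh.le (by linarith) (by norm_num)
    have h6 : h ^ 2 ≤ 1 / 100 * (1 / 100) := by nlinarith
    linarith
  have hsq : (1 / (2 * Real.pi * (1 / h ^ 100))) ^ 2 ≤ h ^ 200 / 36 := by
    have h2 : (1 / (2 * Real.pi * (1 / h ^ 100))) ^ 2 = h ^ 200 / (4 * Real.pi ^ 2) := by
      field_simp; ring
    rw [h2]
    apply div_le_div_of_nonneg_left (by positivity) (by norm_num)
    nlinarith
  rw [← mul_add]
  calc (1 / (2 * Real.pi * (1 / h ^ 100))) ^ 2 *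
      ((2 * (1 / h ^ 6) / d ^ 3 + (tt h - 0) * (1 / h ^ 15 / d ^ 3 + 3 * (1 / h ^ 6) ^ 2 / d ^ 4)) +
      (2 * (1 / h ^ 8) / d ^ 3 + h ^ 8 * (0 / d ^ 3 + 3 * (1 / h ^ 8) ^ 2 / d ^ 4)))
      ≤ h ^ 200 / 36 * (2 / h ^ 15 * q) := by
        apply mul_le_mul hsq _ _ (by positivity)
        · calc _ ≤ (2 / h ^ 6 + 1 / h ^ 15 + 24 / h ^ 13) * q + (2 / h ^ 8 + 24 / h ^ 9) * q :=
                add_le_add hb1 hb2
            _ = ((2 / h ^ 6 + 1 / h ^ 15 + 24 / h ^ 13) + (2 / h ^ 8 + 24 / h ^ 9)) * q := by ring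
            _ ≤ _ := mul_le_mul_of_nonneg_right hsum hqpos.le
        · have : 0 ≤ tt h - 0 := by linarith
          positivity
    _ = h ^ 185 / d ^ 3 * (1 / 18) := by rw [hq]; field_simp; norm_num
    _ ≤ h ^ 185 / d ^ 3 := by
        have : 0 ≤ h ^ 185 / d ^ 3 := by positivity
        linarith

end

end Pool.Agent.Lib.MP_f8d220_an
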