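import Mathlib
import Pool.Agent.Lib.MP_f8d220_an.Tail
import Pool.Agent.Lib.MP_f8d220_an.Fourier
import Pool.Agent.Lib.MP_f8d220_an.IntTail

set_option autoImplicit false
set_option linter.unusedSectionVars false

namespace Pool.Agent.Lib.MP_f8d220_an

open MeasureTheory intervalIntegral Filter Topology

/-- total phase -/
noncomputable def FF (h t : ℝ) : ℝ := if t ≤ tt h then ph h t else pr h t
noncomputable def th (h ν : ℝ) : ℝ := Int.fract (ν * (pr h 1 - ph h 0))
noncomputable def uu (h ν : ℝ) (k : ℤ) : ℝ := (k + th h ν) / ν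
noncomputable def gg (h ν t : ℝ) : ℂ := osc ν (fun t => FF h t - (th h ν / ν) * t) t
noncomputable def cc (h ν : ℝ) (k : ℤ) : ℂ := II h ν (uu h ν k)

section
variable {h : ℝ} (hh : 0 < h) (hh1 : h ≤ 1 / 100)
include hh hh1

theorem continuousOn_FF : ContinuousOn (FF h) (Set.Icc 0 1) := by
  have htt := tt_pos hh hh1
  have htt1 := tt_lt_one hh hh1
  unfold FF
  apply ContinuousOn.if
  · intro a ha
    have h1 : a = tt h := by
      have h2 := ha.2
      have h3 : frontier {a : ℝ | a ≤ tt h} = {tt h} := frontier_Iic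
      rw [h3] at h2
      exact h2
    rw [h1, pr_tt hh hh1]
  · intro t ht
    have h2 : t ≤ tt h := by
      have h3 := ht.2
      rw [show {a : ℝ | a ≤ tt h} = Set.Iic (tt h) from rfl, closure_Iic] at h3
      exact h3
    exact (hasDerivAt_ph hh hh1 ht.1.1 h2).continuousAt.continuousWithinAt
  · intro t _
    exact (hasDerivAt_pr hh hh1 t).continuousAt.continuousWithinAt

theorem norm_gg (ν t : ℝ) : ‖gg h ν t‖ = 1 := norm_osc _ _ _

theorem continuousOn_gg (ν : ℝ) : ContinuousOn (gg h ν) (Set.Icc 0 1) := by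
  unfold gg
  apply continuousOn_osc
  exact (continuousOn_FF hh hh1).sub (by fun_prop)

theorem gg_zero_one (ν : ℝ) (hν : 0 < ν) : gg h ν 0 = gg h ν 1 := by
  have htt := tt_pos hh hh1
  have htt1 := tt_lt_one hh hh1
  have h0 : FF h 0 = ph h 0 := by rw [FF, if_pos htt.le]
  have h1 : FF h 1 = pr h 1 := by rw [FF, if_neg (not_le.mpr htt1)]
  simp only [gg, osc, h0, h1]
  have h2 : ν * (pr h 1 - ph h 0) - th h ν = ⌊ν * (pr h 1 - ph h 0)⌋ := by
    rw [th]; have := Int.fract_add_floor (ν * (pr h 1 - ph h 0)); linarith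
  have h3 : ((2 * Real.pi * ν * (pr h 1 - th h ν / ν * 1) : ℝ) : ℂ) * Complex.I
      = ((2 * Real.pi * ν * (ph h 0 - th h ν / ν * 0) : ℝ) : ℂ) * Complex.I
        + (⌊ν * (pr h 1 - ph h 0)⌋ : ℂ) * (2 * Real.pi * Complex.I) := by
    have h4 : 2 * Real.pi * ν * (pr h 1 - th h ν / ν * 1)
        = 2 * Real.pi * ν * (ph h 0 - th h ν / ν * 0)
          + ⌊ν * (pr h 1 - ph h 0)⌋ * (2 * Real.pi) := by
      rw [← h2]; field_simp; ring
    rw [h4]; push_cast; ring
  rw [h3, Complex.exp_add, Complex.exp_int_mul_two_pi_mul_I, mul_one]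

theorem cc_int (ν : ℝ) (hν : 0 < ν) (k : ℤ) :
    ∃ z : ℤ, ν * (pr h 1 - ph h 0) - ν * uu h ν k = z := by
  refine ⟨⌊ν * (pr h 1 - ph h 0)⌋ - k, ?_⟩
  have h1 : ν * uu h ν k = k + th h ν := by rw [uu]; field_simp
  rw [h1, th]
  have := Int.fract_add_floor (ν * (pr h 1 - ph h 0))
  push_cast
  linarith

theorem cc_eq (ν : ℝ) (hν : 0 < ν) (k : ℤ) :
    cc h ν k = ∫ t in (0:ℝ)..1, ee (-(k : ℝ)) t * gg h ν t := by
  have htt := tt_pos hh hh1
  have htt1 := tt_lt_one hh hh1
  have hcont : ContinuousOn (fun t => ee (-(k : ℝ)) t * gg h ν t) (Set.Icc 0 1) := by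
    refine ContinuousOn.mul ?_ (continuousOn_gg hh hh1 ν)
    unfold ee
    fun_prop
  have hi1 : IntervalIntegrable (fun t => ee (-(k : ℝ)) t * gg h ν t) volume 0 (tt h) := by
    apply ContinuousOn.intervalIntegrable
    refine hcont.mono ?_
    rw [Set.uIcc_of_le htt.le]
    exact Set.Icc_subset_Icc le_rfl htt1.le
  have hi2 : IntervalIntegrable (fun t => ee (-(k : ℝ)) t * gg h ν t) volume (tt h) 1 := by
    apply ContinuousOn.intervalIntegrable
    refine hcont.mono ?_
    rw [Set.uIcc_of_le htt1.le]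
    exact Set.Icc_subset_Icc htt.le le_rfl
  rw [← intervalIntegral.integral_add_adjacent_intervals hi1 hi2, cc, II]
  have hcomb : ∀ (P : ℝ → ℝ) (t : ℝ), FF h t = P t →
      osc ν (fun t => P t - uu h ν k * t) t = ee (-(k : ℝ)) t * gg h ν t := by
    intro P t hP
    simp only [gg, osc, ee, hP]
    rw [← Complex.exp_add]
    congr 1
    have hν' : (ν : ℂ) ≠ 0 := by exact_mod_cast hν.ne'
    rw [uu]
    push_cast
    field_simp
    ring
  congr 1
  · refine intervalIntegral.integral_congr fun t ht => ?_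
    rw [Set.uIcc_of_le htt.le] at ht
    exact hcomb (ph h) t (by rw [FF, if_pos ht.2])
  · refine intervalIntegral.integral_congr fun t ht => ?_
    rw [Set.uIcc_of_le htt1.le] at ht
    apply hcomb (pr h) t
    rcases eq_or_lt_of_le ht.1 with h1 | h1
    · rw [← h1, pr_tt hh hh1, FF, if_pos le_rfl]
    · rw [FF, if_neg (not_le.mpr h1)]

/-- decay of the coefficients outside the window -/
theorem cc_tail (n : ℕ) (hn : (n : ℝ) * h ^ 100 = 1) (k : ℤ) (D : ℝ) (hD : h * n / 2 ≤ D)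
    (hk : (k : ℝ) ≤ (3 / 4) * h * n - 1 - D ∨ (n : ℝ) - 2 * h * n + D ≤ k) :
    ‖cc h n k‖ ≤ (1 / h ^ 115) * (1 / D ^ 3) := by
  have hnpos := nu_pos hh hh1 n hn
  have hnv := nu_eq hh hh1 n hn
  have hDpos : 0 < D := lt_of_lt_of_le (by positivity) hD
  have hth0 : 0 ≤ th h n := Int.fract_nonneg _
  have hth1 : th h n < 1 := Int.fract_lt_one _
  have h1 := II_tail hh hh1 n (uu h n k) (D / n) hn ?_ (cc_int hh hh1 n hnpos k) ?_
  · rw [cc]
    refine h1.trans_eq ?_
    rw [hnv]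
    field_simp
  · rw [le_div_iff₀ hnpos]
    have : 0 < h * n := by positivity
    linarith
  · rcases hk with h2 | h2
    · left
      have h3 := xx_zero_ge hh hh1
      have h4 : uu h n k + D / n ≤ (3 / 4) * h := by
        rw [uu, ← add_div, div_le_iff₀ hnpos]
        linarith
      linarith
    · right
      have h3 := xx_tt_le hh hh1
      have h4 : 1 - 2 * h + D / n ≤ uu h n k := by
        rw [uu, le_div_iff₀ hnpos, add_mul, div_mul_cancel₀ _ hnpos.ne']
        linarith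
      linarith

theorem hn_big (n : ℕ) (hn : (n : ℝ) * h ^ 100 = 1) : 10 ^ 6 ≤ h ^ 2 * n := by
  have hnv := nu_eq hh hh1 n hn
  rw [hnv]
  have h1 : h ^ 2 * (1 / h ^ 100) = 1 / h ^ 98 := by field_simp
  rw [h1, le_div_iff₀ (by positivity)]
  have h2 : h ^ 98 ≤ h ^ 3 := pow_le_pow_of_le_one hh.le (by linarith) (by norm_num)
  have h3 : h ^ 3 ≤ (1 / 100) ^ 3 := pow_le_pow_left₀ hh.le hh1 3
  have h4 : (10:ℝ) ^ 6 * (1 / 100) ^ 3 = 1 := by norm_num
  nlinarith

/-- normalising constant -/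
theorem cc_le (hh2 : h ≤ 1 / 200) (n : ℕ) (hn : (n : ℝ) * h ^ 100 = 1) (k : ℤ)
    (hk : h * n / 4 - 1 ≤ k) : (1 - 7 * h) * n / (√3 * h ^ 50) * ‖cc h n k‖ ≤ k := by
  have hnpos := nu_pos hh hh1 n hn
  have hnv := nu_eq hh hh1 n hn
  have hbig := hn_big hh hh1 n hn
  have hth0 : 0 ≤ th h n := Int.fract_nonneg _
  have hth1 : th h n < 1 := Int.fract_lt_one _
  have hs3 : 0 < √3 := by positivity
  have hs3' : (17 / 10 : ℝ) ≤ √3 := by
    apply Real.le_sqrt_of_sq_le; norm_num
  have h7 : 0 < 1 - 7 * h := by linarith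
  have hhn : 0 < h * n := by positivity
  have hh2n : 0 < h ^ 2 * n := by positivity
  have hhn2 : h * n ≥ 200 * (h ^ 2 * n) := by nlinarith
  have hC : 0 < (1 - 7 * h) * n / (√3 * h ^ 50) := by positivity
  rcases II_bound hh hh1 n (uu h n k) hn with h1 | ⟨hu, h1⟩
  · calc (1 - 7 * h) * n / (√3 * h ^ 50) * ‖cc h n k‖
        ≤ (1 - 7 * h) * n / (√3 * h ^ 50) * (43 * h ^ 52) :=
          mul_le_mul_of_nonneg_left h1 hC.le
      _ = (1 - 7 * h) * 43 * (h ^ 2 * n) / √3 := by field_simp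
      _ ≤ 43 * (h ^ 2 * n) / (17 / 10) := by
          apply div_le_div₀ (by positivity) _ (by norm_num) hs3'
          nlinarith
      _ ≤ k := by
          refine le_trans ?_ hk
          nlinarith
  · have hnu : (n : ℝ) * uu h n k = k + th h n := by rw [uu]; field_simp
    have hs : 0 < (1 - 3 * h) ^ 2 := by
      have : 0 < 1 - 3 * h := by linarith
      positivity
    have hratio : (1 - 7 * h) ≤ (1 - h) * (1 - 3 * h) ^ 2 := by nlinarith [sq_nonneg h, mul_pos hh hh]
    have hk0 : 0 < (k : ℝ) + th h n := by rw [← hnu]; positivity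
    calc (1 - 7 * h) * n / (√3 * h ^ 50) * ‖cc h n k‖
        ≤ (1 - 7 * h) * n / (√3 * h ^ 50) *
            (h ^ 50 * (√3 * uu h n k / (1 - 3 * h) ^ 2) + 25 * h ^ 54) :=
          mul_le_mul_of_nonneg_left h1 hC.le
      _ = (1 - 7 * h) * ((n : ℝ) * uu h n k) / (1 - 3 * h) ^ 2
            + (1 - 7 * h) * 25 * (h ^ 2 * (h ^ 2 * n)) / √3 := by
          field_simp
      _ ≤ (1 - h) * (k + th h n) + 25 * (h ^ 2 * (h ^ 2 * n)) / (17 / 10) := by
          apply add_le_add
          · rw [hnu, div_le_iff₀ hs]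
            nlinarith
          · apply div_le_div₀ (by positivity) _ (by norm_num) hs3'
            have : 0 < h ^ 2 * (h ^ 2 * n) := by positivity
            nlinarith
      _ ≤ k := by
          have h2 : h ^ 2 * (h ^ 2 * n) ≤ (1 / 200) ^ 2 * (h ^ 2 * n) := by
            apply mul_le_mul_of_nonneg_right _ hh2n.le
            exact pow_le_pow_left₀ hh.le hh2 2
          have h3 : h * (h * n / 4 - 1) ≤ h * k := mul_le_mul_of_nonneg_left hk hh.le
          have h4 : h * (h * n / 4 - 1) = (h ^ 2 * n) / 4 - h := by ring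
          have h5 : (1 - h) * (k + th h n) ≤ k - h * k + 1 := by nlinarith
          nlinarith

theorem tail_sums (n : ℕ) (hn : (n : ℝ) * h ^ 100 = 1) (M : ℕ) :
    ∑ j ∈ Finset.range M, ‖cc h n ((n : ℤ) + 1 + j)‖ ≤ 8 * h ^ 83 ∧
    ∑ j ∈ Finset.range M, ‖cc h n (⌊h * n / 4⌋ - 1 - j)‖ ≤ 8 * h ^ 83 := by
  have hnpos := nu_pos hh hh1 n hn
  have hnv := nu_eq hh hh1 n hn
  have hbig := hn_big hh hh1 n hn
  have hhn : 0 < h * n := by positivity
  have hhn2 : h * n ≥ 100 * (h ^ 2 * n) := by nlinarith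
  set D : ℝ := h * n / 2 - 1 + 1 with hD
  have hD2 : 2 ≤ D := by rw [hD]; linarith
  have hDv : D = 1 / (2 * h ^ 99) := by
    rw [hD, hnv]; field_simp; ring
  have hsum := sum_inv_cube D hD2 M
  have hfin : (1 / h ^ 115) * (2 / D ^ 2) = 8 * h ^ 83 := by
    rw [hDv]; field_simp; norm_num
  have hmain : ∑ j ∈ Finset.range M, (1 / h ^ 115) * (1 / (D + j) ^ 3) ≤ 8 * h ^ 83 := by
    rw [← Finset.mul_sum, ← hfin]
    exact mul_le_mul_of_nonneg_left hsum (by positivity)
  constructor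
  · refine le_trans (Finset.sum_le_sum fun j _ => ?_) hmain
    have hj : (0:ℝ) ≤ j := Nat.cast_nonneg j
    refine cc_tail hh hh1 n hn _ (D + j) (by rw [hD]; linarith) (Or.inr ?_)
    push_cast
    rw [hD]
    nlinarith
  · refine le_trans (Finset.sum_le_sum fun j _ => ?_) hmain
    have hj : (0:ℝ) ≤ j := Nat.cast_nonneg j
    refine cc_tail hh hh1 n hn _ (D + j) (by rw [hD]; linarith) (Or.inl ?_)
    push_cast
    have h3 := Int.floor_le (h * n / 4)
    rw [hD]
    linarith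

end

end Pool.Agent.Lib.MP_f8d220_an
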