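import Mathlib
import Pool.Agent.Lib.MP_f8d220_an.Flat

set_option autoImplicit false
set_option linter.unusedSectionVars false

namespace Pool.Agent.Lib.MP_f8d220_an

open MeasureTheory intervalIntegral Filter Topology

noncomputable def KK (h : ℝ) (n : ℕ) : ℕ := ⌊h * n / 4⌋₊
noncomputable def CC (h : ℝ) (n : ℕ) : ℝ := (1 - 7 * h) * n / (√3 * h ^ 50)
noncomputable def zz (h : ℝ) (n k : ℕ) : ℂ := if KK h n ≤ k then (CC h n : ℂ) * cc h n k else 0

theorem sum_sq_le_sq (x : ℕ → ℝ) (hx : ∀ j, 0 ≤ x j) (M : ℕ) :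
    ∑ j ∈ Finset.range M, x j ^ 2 ≤ (∑ j ∈ Finset.range M, x j) ^ 2 := by
  induction M with
  | zero => simp
  | succ M ih =>
    rw [Finset.sum_range_succ, Finset.sum_range_succ]
    have h1 : 0 ≤ ∑ j ∈ Finset.range M, x j := Finset.sum_nonneg fun j _ => hx j
    have h2 := mul_nonneg h1 (hx M)
    nlinarith

theorem exists_perp (z : ℂ) (r : ℝ) (hz : ‖z‖ ≤ r) :
    ∃ d : ℂ, ‖d‖ ^ 2 = r ^ 2 - ‖z‖ ^ 2 ∧ ‖z + d‖ = r ∧ ‖z - d‖ = r := by
  have hr : 0 ≤ r := (norm_nonneg z).trans hz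
  obtain ⟨v, hv, hzv⟩ : ∃ v : ℂ, ‖v‖ = 1 ∧ z = (‖z‖ : ℂ) * v := by
    by_cases h0 : z = 0
    · exact ⟨1, by simp, by simp [h0]⟩
    · have : (‖z‖ : ℂ) ≠ 0 := by exact_mod_cast (norm_ne_zero_iff.mpr h0)
      refine ⟨z / ‖z‖, ?_, ?_⟩
      · rw [norm_div, Complex.norm_real, norm_norm, div_self (norm_ne_zero_iff.mpr h0)]
      · field_simp
  have hsq : 0 ≤ r ^ 2 - ‖z‖ ^ 2 := by
    have := pow_le_pow_left₀ (norm_nonneg z) hz 2
    linarith
  set s : ℝ := √(r ^ 2 - ‖z‖ ^ 2) with hs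
  have hs2 : s ^ 2 = r ^ 2 - ‖z‖ ^ 2 := Real.sq_sqrt hsq
  have hnorm : ∀ ε : ℝ, ε ^ 2 = 1 → ‖(‖z‖ : ℂ) * v + ε * ((s : ℂ) * Complex.I * v)‖ = r := by
    intro ε hε
    have h1 : (‖z‖ : ℂ) * v + ε * ((s : ℂ) * Complex.I * v)
        = (((‖z‖ : ℝ) : ℂ) + ((ε * s : ℝ) : ℂ) * Complex.I) * v := by push_cast; ring
    rw [h1, norm_mul, hv, mul_one, Complex.norm_add_mul_I, mul_pow, hε, one_mul, hs2]
    rw [add_sub_cancel, Real.sqrt_sq hr]
  refine ⟨(s : ℂ) * Complex.I * v, ?_, ?_, ?_⟩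
  · rw [norm_mul, norm_mul, hv, Complex.norm_I, mul_one, mul_one, Complex.norm_real,
      Real.norm_of_nonneg (Real.sqrt_nonneg _), hs2]
  · have := hnorm 1 (by norm_num)
    rw [← hzv] at this
    simpa using this
  · have := hnorm (-1) (by norm_num)
    rw [← hzv] at this
    have h2 : z - (s : ℂ) * Complex.I * v = z + ((-1 : ℝ) : ℂ) * ((s : ℂ) * Complex.I * v) := by
      push_cast; ring
    rw [h2]; exact this

section
variable {h : ℝ} (hh : 0 < h) (hh1 : h ≤ 1 / 200)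
include hh hh1

theorem CC_pos (n : ℕ) (hn : (n : ℝ) * h ^ 100 = 1) : 0 < CC h n := by
  have hnpos := nu_pos hh (by linarith) n hn
  have : 0 < 1 - 7 * h := by linarith
  rw [CC]; positivity

theorem KK_cast (n : ℕ) : ((KK h n : ℕ) : ℤ) = ⌊h * n / 4⌋ := by
  rw [KK, Int.natCast_floor_eq_floor (by positivity)]

theorem KK_ge (n : ℕ) : h * n / 4 - 1 ≤ (KK h n : ℝ) := by
  have := Nat.lt_floor_add_one (h * n / 4)
  rw [KK]; linarith

theorem KK_le (n : ℕ) (hn : (n : ℝ) * h ^ 100 = 1) : KK h n ≤ n := by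
  have hnpos := nu_pos hh (by linarith) n hn
  have h1 : (KK h n : ℝ) ≤ h * n / 4 := Nat.floor_le (by positivity)
  have h2 : (KK h n : ℝ) ≤ n := by nlinarith
  exact_mod_cast h2

theorem zz_le (n : ℕ) (hn : (n : ℝ) * h ^ 100 = 1) (k : ℕ) : ‖zz h n k‖ ≤ k := by
  rw [zz]
  split_ifs with hk
  · have hC := CC_pos hh hh1 n hn
    rw [norm_mul, Complex.norm_real, Real.norm_of_nonneg hC.le, CC]
    have hk' : (KK h n : ℝ) ≤ k := by exact_mod_cast hk
    have := cc_le hh (by linarith) hh1 n hn k (by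
      have := KK_ge hh hh1 n
      push_cast
      linarith)
    exact_mod_cast this
  · simp

/-- rewriting a sum of `zz` as an integer-indexed sum -/
theorem sum_zz_eq (n : ℕ) (F : ℤ → ℂ → ℂ) (hF : ∀ k, F k 0 = 0) :
    ∑ k ∈ Finset.range (n + 1), F k (zz h n k)
      = ∑ k ∈ Finset.Icc ⌊h * n / 4⌋ (n : ℤ), F k ((CC h n : ℂ) * cc h n k) := by
  have h1 : ∑ k ∈ Finset.range (n + 1), F k (zz h n k)
      = ∑ k ∈ Finset.Icc (KK h n) n, F k ((CC h n : ℂ) * cc h n k) := by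
    have hsub : Finset.Icc (KK h n) n ⊆ Finset.range (n + 1) := by
      intro k hk
      rw [Finset.mem_Icc] at hk
      rw [Finset.mem_range]; omega
    rw [← Finset.sum_subset hsub]
    · refine Finset.sum_congr rfl fun k hk => ?_
      rw [Finset.mem_Icc] at hk
      rw [zz, if_pos hk.1]
    · intro k hk hk2
      rw [Finset.mem_range] at hk
      rw [Finset.mem_Icc] at hk2
      have : ¬ KK h n ≤ k := by omega
      rw [zz, if_neg this, hF]
  rw [h1, ← KK_cast hh hh1 n]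
  have h2 : Finset.Icc ((KK h n : ℕ) : ℤ) (n : ℤ) = (Finset.Icc (KK h n) n).image (fun k : ℕ => (k : ℤ)) := by
    ext k
    rw [Finset.mem_Icc, Finset.mem_image]
    constructor
    · rintro ⟨h3, h4⟩
      refine ⟨k.toNat, ?_, ?_⟩
      · rw [Finset.mem_Icc]; omega
      · rw [Int.toNat_of_nonneg (by omega)]
    · rintro ⟨j, hj, rfl⟩
      rw [Finset.mem_Icc] at hj
      omega
  rw [h2, Finset.sum_image]
  intro a _ b _ hab
  simpa using hab

theorem summable_and_tail (n : ℕ) (hn : (n : ℝ) * h ^ 100 = 1) :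
    Summable (cc h n) ∧ ∀ t ∈ Set.Ico (0:ℝ) 1,
      ‖gg h n t - ∑ k ∈ Finset.Icc ⌊h * n / 4⌋ (n : ℤ), cc h n k * ee k t‖ ≤ 16 * h ^ 83 := by
  have hh1' : h ≤ 1 / 100 := by linarith
  have hnpos := nu_pos hh hh1' n hn
  have hts := tail_sums hh hh1' n hn
  have h0 := int_tail (cc h n) ⌊h * n / 4⌋ n (8 * h ^ 83) (fun M => (hts M).1) (fun M => (hts M).2)
  refine ⟨h0.1, ?_⟩
  intro t ht
  have hsum := fourier_inversion (gg h n) (continuousOn_gg hh hh1' n) (gg_zero_one hh hh1' n hnpos)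
    (cc h n) (cc_eq hh hh1' n hnpos) h0.1 t ht
  have h1 := int_tail (fun k => cc h n k * ee k t) ⌊h * n / 4⌋ n (8 * h ^ 83)
    (fun M => by
      refine le_trans (le_of_eq ?_) (hts M).1
      refine Finset.sum_congr rfl fun j _ => ?_
      rw [norm_mul, norm_ee, mul_one])
    (fun M => by
      refine le_trans (le_of_eq ?_) (hts M).2
      refine Finset.sum_congr rfl fun j _ => ?_
      rw [norm_mul, norm_ee, mul_one])
  refine (h1.2 _ hsum).trans_eq ?_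
  ring

theorem h83_le : 16 * h ^ 83 ≤ h ^ 2 := by
  have h2 : h ^ 83 ≤ h ^ 4 := pow_le_pow_of_le_one hh.le (by linarith) (by norm_num)
  have h3 : h ^ 4 = h ^ 2 * h ^ 2 := by ring
  have h4 : h ^ 2 ≤ (1 / 200) ^ 2 := pow_le_pow_left₀ hh.le hh1 2
  have h5 : 0 < h ^ 2 := by positivity
  nlinarith

theorem sum_zz (n : ℕ) (hn : (n : ℝ) * h ^ 100 = 1) (t : ℝ) (ht : t ∈ Set.Ico (0:ℝ) 1) :
    ‖∑ k ∈ Finset.range (n + 1), zz h n k * ee k t - CC h n * gg h n t‖ ≤ CC h n * h ^ 2 := by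
  have h1 := sum_zz_eq hh hh1 n (fun k z => z * ee k t) (by intro k; simp)
  have h1' : ∑ k ∈ Finset.range (n + 1), zz h n k * ee k t
      = ∑ k ∈ Finset.Icc ⌊h * n / 4⌋ (n : ℤ), (CC h n : ℂ) * cc h n k * ee k t := by
    rw [← h1]
    refine Finset.sum_congr rfl fun k _ => ?_
    push_cast; rfl
  have hC := CC_pos hh hh1 n hn
  rw [h1']
  have h2 : ∑ k ∈ Finset.Icc ⌊h * n / 4⌋ (n : ℤ), (CC h n : ℂ) * cc h n k * ee k t - CC h n * gg h n t
      = - ((CC h n : ℂ) * (gg h n t - ∑ k ∈ Finset.Icc ⌊h * n / 4⌋ (n : ℤ), cc h n k * ee k t)) := by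
    rw [mul_sub, Finset.mul_sum]
    have : ∀ k : ℤ, (CC h n : ℂ) * cc h n k * ee k t = (CC h n : ℂ) * (cc h n k * ee k t) := by
      intro k; ring
    simp_rw [this]; ring
  rw [h2, norm_neg, norm_mul, Complex.norm_real, Real.norm_of_nonneg hC.le]
  apply mul_le_mul_of_nonneg_left _ hC.le
  exact ((summable_and_tail hh hh1 n hn).2 t ht).trans (h83_le hh hh1)

theorem energy (n : ℕ) (hn : (n : ℝ) * h ^ 100 = 1) :
    CC h n ^ 2 * (1 - h) ≤ ∑ k ∈ Finset.range (n + 1), ‖zz h n k‖ ^ 2 := by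
  have hh1' : h ≤ 1 / 100 := by linarith
  have hnpos := nu_pos hh hh1' n hn
  have hts := tail_sums hh hh1' n hn
  have hC := CC_pos hh hh1 n hn
  have hpars := fourier_parseval (gg h n) (continuousOn_gg hh hh1' n) (gg_zero_one hh hh1' n hnpos)
    (cc h n) (cc_eq hh hh1' n hnpos)
  have hint : ∫ t in (0:ℝ)..1, ‖gg h n t‖ ^ 2 = 1 := by
    have : ∀ t : ℝ, ‖gg h n t‖ ^ 2 = 1 := by intro t; rw [norm_gg hh hh1']; norm_num
    simp_rw [this]; simp
  rw [hint] at hpars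
  have hpars' : HasSum (fun k : ℤ => ((‖cc h n k‖ ^ 2 : ℝ) : ℂ)) ((1 : ℝ) : ℂ) := by
    exact Complex.hasSum_ofReal.mpr hpars
  have hsq : ∀ (M : ℕ) (e : ℕ → ℤ), ∑ j ∈ Finset.range M, ‖cc h n (e j)‖ ≤ 8 * h ^ 83 →
      ∑ j ∈ Finset.range M, ‖((‖cc h n (e j)‖ ^ 2 : ℝ) : ℂ)‖ ≤ (8 * h ^ 83) ^ 2 := by
    intro M e hM
    have h1 : ∑ j ∈ Finset.range M, ‖((‖cc h n (e j)‖ ^ 2 : ℝ) : ℂ)‖
        = ∑ j ∈ Finset.range M, ‖cc h n (e j)‖ ^ 2 := by
      refine Finset.sum_congr rfl fun j _ => ?_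
      rw [Complex.norm_real, Real.norm_of_nonneg (by positivity)]
    rw [h1]
    have h2 := sum_sq_le_sq (fun j => ‖cc h n (e j)‖) (fun j => norm_nonneg _) M
    refine h2.trans ?_
    exact pow_le_pow_left₀ (Finset.sum_nonneg fun j _ => norm_nonneg _) hM 2
  have h1 := int_tail (fun k : ℤ => ((‖cc h n k‖ ^ 2 : ℝ) : ℂ)) ⌊h * n / 4⌋ n ((8 * h ^ 83) ^ 2)
    (fun M => hsq M (fun j => (n : ℤ) + 1 + j) (hts M).1)
    (fun M => hsq M (fun j => ⌊h * n / 4⌋ - 1 - j) (hts M).2)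
  have h2 := h1.2 _ hpars'
  have h3 : ((1:ℝ) : ℂ) - ∑ k ∈ Finset.Icc ⌊h * n / 4⌋ (n : ℤ), ((‖cc h n k‖ ^ 2 : ℝ) : ℂ)
      = ((1 - ∑ k ∈ Finset.Icc ⌊h * n / 4⌋ (n : ℤ), ‖cc h n k‖ ^ 2 : ℝ) : ℂ) := by
    push_cast; rfl
  rw [h3, Complex.norm_real, Real.norm_eq_abs] at h2
  have h4 : 1 - h ≤ ∑ k ∈ Finset.Icc ⌊h * n / 4⌋ (n : ℤ), ‖cc h n k‖ ^ 2 := by
    have h5 := (abs_le.mp h2).2
    have h6 : 2 * (8 * h ^ 83) ^ 2 ≤ h := by
      have h7 := h83_le hh hh1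
      have h8 : h ^ 2 ≤ h := pow_le_of_le_one hh.le (by linarith) (by norm_num)
      have h9 : 0 < h ^ 83 := by positivity
      nlinarith
    linarith
  have h5 : ∑ k ∈ Finset.range (n + 1), ‖zz h n k‖ ^ 2
      = CC h n ^ 2 * ∑ k ∈ Finset.Icc ⌊h * n / 4⌋ (n : ℤ), ‖cc h n k‖ ^ 2 := by
    have h6 := sum_zz_eq hh hh1 n (fun _ z => ((‖z‖ ^ 2 : ℝ) : ℂ)) (by intro k; simp)
    have h7 : ((∑ k ∈ Finset.range (n + 1), ‖zz h n k‖ ^ 2 : ℝ) : ℂ)
        = ((∑ k ∈ Finset.Icc ⌊h * n / 4⌋ (n : ℤ), ‖(CC h n : ℂ) * cc h n k‖ ^ 2 : ℝ) : ℂ) := by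
      push_cast at h6 ⊢
      exact h6
    have h8 := Complex.ofReal_injective h7
    rw [h8, Finset.mul_sum]
    refine Finset.sum_congr rfl fun k _ => ?_
    rw [norm_mul, Complex.norm_real, Real.norm_of_nonneg hC.le, mul_pow]
  rw [h5]
  exact mul_le_mul_of_nonneg_left h4 (by positivity)

theorem sum_sq_le (n : ℕ) : ∑ k ∈ Finset.range (n + 1), (k : ℝ) ^ 2 ≤ (n : ℝ) ^ 3 / 3 + (n : ℝ) ^ 2 := by
  have h1 : ∀ n : ℕ, ∑ k ∈ Finset.range (n + 1), (k : ℝ) ^ 2 = (n : ℝ) ^ 3 / 3 + (n : ℝ) ^ 2 / 2 + n / 6 := by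
    intro n
    induction n with
    | zero => simp
    | succ n ih => rw [Finset.sum_range_succ, ih]; push_cast; ring
  rw [h1]
  rcases Nat.eq_zero_or_pos n with h2 | h2
  · rw [h2]; simp
  · have h3 : (1 : ℝ) ≤ n := by exact_mod_cast h2
    nlinarith

theorem defect (n : ℕ) (hn : (n : ℝ) * h ^ 100 = 1) :
    ∑ k ∈ Finset.range (n + 1), ((k : ℝ) ^ 2 - ‖zz h n k‖ ^ 2) ≤ 6 * h * (n : ℝ) ^ 3 := by
  have hh1' : h ≤ 1 / 100 := by linarith
  have hnpos := nu_pos hh hh1' n hn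
  have hnv := nu_eq hh hh1' n hn
  have hbig := hn_big hh hh1' n hn
  have he := energy hh hh1 n hn
  have hs := sum_sq_le hh hh1 n
  rw [Finset.sum_sub_distrib]
  have hC2 : CC h n ^ 2 = (1 - 7 * h) ^ 2 * (n : ℝ) ^ 3 / 3 := by
    rw [CC, div_pow, mul_pow, mul_pow, Real.sq_sqrt (by norm_num)]
    have h1 : (h ^ 50) ^ 2 = 1 / n := by
      rw [eq_div_iff hnpos.ne', ← hn]; ring
    rw [h1]
    field_simp
  rw [hC2] at he
  have h1 : (1 - 15 * h) ≤ (1 - 7 * h) ^ 2 * (1 - h) := by nlinarith [mul_pos hh hh, pow_pos hh 3]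
  have hn3 : 0 < (n : ℝ) ^ 3 := by positivity
  have h2 : (1 - 15 * h) * ((n : ℝ) ^ 3 / 3) ≤ (1 - 7 * h) ^ 2 * (n : ℝ) ^ 3 / 3 * (1 - h) := by
    calc (1 - 15 * h) * ((n : ℝ) ^ 3 / 3) ≤ (1 - 7 * h) ^ 2 * (1 - h) * ((n : ℝ) ^ 3 / 3) :=
          mul_le_mul_of_nonneg_right h1 (by positivity)
      _ = _ := by ring
  have h3 : (n : ℝ) ^ 2 ≤ h * (n : ℝ) ^ 3 := by
    have h4 : 1 ≤ h * n := by nlinarith
    have h5 : (0:ℝ) < (n : ℝ) ^ 2 := by positivity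
    calc (n : ℝ) ^ 2 = 1 * (n : ℝ) ^ 2 := by ring
      _ ≤ (h * n) * (n : ℝ) ^ 2 := mul_le_mul_of_nonneg_right h4 h5.le
      _ = _ := by ring
  nlinarith

/-- The flat polynomial for a given `h`. -/
theorem exists_flat (n : ℕ) (hn : (n : ℝ) * h ^ 100 = 1) :
    ∃ a : ℕ → ℂ, (∀ k, ‖a k‖ = 1) ∧ ∀ t ∈ Set.Ico (0:ℝ) 1,
      |‖∑ k ∈ Finset.range (n + 1), (k : ℂ) * a k * ee k t‖ - CC h n| ≤
        CC h n * (h ^ 2 + 9 * √h * (2 * √(2 * Real.log (4 * ((n + 1 : ℕ) : ℝ) ^ 2)) + 7)) := by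
  have hh1' : h ≤ 1 / 100 := by linarith
  have hnpos := nu_pos hh hh1' n hn
  have hC := CC_pos hh hh1 n hn
  choose d hd1 hd2 hd3 using fun k : ℕ => exists_perp (zz h n k) k (zz_le hh hh1 n hn k)
  set D : ℝ := √(6 * h * (n : ℝ) ^ 3) with hD
  have hDpos : 0 < D := by positivity
  have hDsq : D ^ 2 = 6 * h * (n : ℝ) ^ 3 := Real.sq_sqrt (by positivity)
  have hdsum : ∑ k ∈ Finset.range (n + 1), ‖d k‖ ^ 2 ≤ D ^ 2 := by
    rw [hDsq]
    refine le_trans (le_of_eq ?_) (defect hh hh1 n hn)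
    exact Finset.sum_congr rfl fun k _ => hd1 k
  obtain ⟨e, he, hsmall⟩ := exists_signs_trig (n + 1) (by omega) d D hDpos hdsum
  set b : ℕ → ℂ := fun k => zz h n k + e k * d k with hb
  have hbn : ∀ k, ‖b k‖ = k := by
    intro k
    simp only [hb]
    rcases he k with h1 | h1
    · rw [h1]; simpa using hd2 k
    · rw [h1]
      have := hd3 k
      rw [sub_eq_add_neg] at this
      simpa using this
  refine ⟨fun k => if k = 0 then 1 else b k / k, ?_, ?_⟩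
  · intro k
    by_cases hk : k = 0
    · simp [hk]
    · simp only [hk, if_false]
      have : (k : ℝ) ≠ 0 := by exact_mod_cast hk
      rw [norm_div, hbn, Complex.norm_natCast, div_self this]
  · intro t ht
    have hkey : ∑ k ∈ Finset.range (n + 1), (k : ℂ) * (if k = 0 then 1 else b k / k) * ee k t
        = ∑ k ∈ Finset.range (n + 1), zz h n k * ee k t
          + ∑ k ∈ Finset.range (n + 1), (e k : ℂ) * d k * ee k t := by
      rw [← Finset.sum_add_distrib]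
      refine Finset.sum_congr rfl fun k _ => ?_
      by_cases hk : k = 0
      · have hb0 : b 0 = 0 := by
          have := hbn 0
          rw [← norm_eq_zero]; simpa using this
        simp only [hb] at hb0
        rw [hk, ← add_mul, hb0]; simp
      · have hk' : (k : ℂ) ≠ 0 := by exact_mod_cast hk
        rw [if_neg hk, mul_div_cancel₀ _ hk', hb]
        ring
    rw [hkey]
    have h1 := sum_zz hh hh1 n hn t ht
    have h2 := hsmall t
    have hg : ‖(CC h n : ℂ) * gg h n t‖ = CC h n := by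
      rw [norm_mul, norm_gg hh hh1', mul_one, Complex.norm_real, Real.norm_of_nonneg hC.le]
    set X := ∑ k ∈ Finset.range (n + 1), zz h n k * ee k t
    set Y := ∑ k ∈ Finset.range (n + 1), (e k : ℂ) * d k * ee k t
    have hDC : D ≤ CC h n * (9 * √h) := by
      have h3 : D = √6 * √h * (n : ℝ) * (1 / h ^ 50) := by
        have h4 : (n : ℝ) = (1 / h ^ 50) ^ 2 := by
          rw [nu_eq hh hh1' n hn]; field_simp
        have h5 : 6 * h * (n : ℝ) ^ 3 = 6 * h * ((n : ℝ) * (1 / h ^ 50)) ^ 2 := by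
          rw [mul_pow, ← h4]; ring
        rw [hD, h5, Real.sqrt_mul (by positivity), Real.sqrt_mul (by norm_num),
          Real.sqrt_sq (by positivity)]
        ring
      have h6 : CC h n * (9 * √h) = ((1 - 7 * h) * 9 / √3) * √h * (n : ℝ) * (1 / h ^ 50) := by
        rw [CC]; field_simp
      rw [h3, h6]
      have h7 : √6 ≤ (1 - 7 * h) * 9 / √3 := by
        rw [le_div_iff₀ (by positivity), ← Real.sqrt_mul (by norm_num)]
        rw [Real.sqrt_le_left (by nlinarith)]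
        nlinarith
      gcongr
    have h8 : ‖X + Y - CC h n * gg h n t‖ ≤
        CC h n * (h ^ 2 + 9 * √h * (2 * √(2 * Real.log (4 * ((n + 1 : ℕ) : ℝ) ^ 2)) + 7)) := by
      have h9 : X + Y - CC h n * gg h n t = (X - CC h n * gg h n t) + Y := by ring
      rw [h9]
      refine (norm_add_le _ _).trans ?_
      have h10 : ‖Y‖ ≤ CC h n * (9 * √h) * (2 * √(2 * Real.log (4 * ((n + 1 : ℕ) : ℝ) ^ 2)) + 7) :=
        h2.trans (mul_le_mul_of_nonneg_right hDC (by positivity))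
      calc _ ≤ CC h n * h ^ 2 +
            CC h n * (9 * √h) * (2 * √(2 * Real.log (4 * ((n + 1 : ℕ) : ℝ) ^ 2)) + 7) :=
            add_le_add h1 h10
        _ = _ := by ring
    have h11 := abs_norm_sub_norm_le (X + Y) (CC h n * gg h n t)
    rw [hg] at h11
    exact h11.trans h8

end

end Pool.Agent.Lib.MP_f8d220_an
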