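import Mathlib
import Pool.Agent.Lib.MP_f8d220_an.Poly

set_option autoImplicit false
set_option linter.unusedSectionVars false

namespace Pool.Agent.Lib.MP_f8d220_an

open MeasureTheory intervalIntegral Filter Topology

theorem err_bound (n : ℕ) (hn : 1 ≤ n) (y : ℝ) (hy : y = (n : ℝ) ^ (-(1 / 200) : ℝ)) :
    (y ^ 2) ^ 2 + 9 * √(y ^ 2) * (2 * √(2 * Real.log (4 * ((n + 1 : ℕ) : ℝ) ^ 2)) + 7)
      ≤ y ^ 4 + 63 * y + 720 * √y := by
  have hn1 : (1 : ℝ) ≤ n := by exact_mod_cast hn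
  have hn0 : (0 : ℝ) < n := by linarith
  have hypos : 0 < y := by rw [hy]; exact Real.rpow_pos_of_pos hn0 _
  have hsy : √(y ^ 2) = y := Real.sqrt_sq hypos.le
  have hinv : (n : ℝ) ^ ((1 / 200) : ℝ) = 1 / y := by
    rw [hy, Real.rpow_neg hn0.le, div_inv_eq_mul, one_mul]
  have hlog : Real.log (4 * ((n + 1 : ℕ) : ℝ) ^ 2) ≤ 800 / y := by
    have h1 : (4 * ((n + 1 : ℕ) : ℝ) ^ 2) ≤ 16 * (n : ℝ) ^ 2 := by
      push_cast; nlinarith
    have h2 : Real.log (4 * ((n + 1 : ℕ) : ℝ) ^ 2) ≤ Real.log (16 * (n : ℝ) ^ 2) :=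
      Real.log_le_log (by positivity) h1
    have h3 := Real.log_le_rpow_div (x := 16 * (n : ℝ) ^ 2) (by positivity)
      (show (0:ℝ) < 1 / 400 by norm_num)
    have h4 : (16 * (n : ℝ) ^ 2) ^ ((1 / 400) : ℝ) ≤ 2 * (1 / y) := by
      rw [Real.mul_rpow (by norm_num) (by positivity), ← Real.rpow_natCast, ← Real.rpow_mul hn0.le]
      have h5 : ((2 : ℕ) : ℝ) * (1 / 400) = 1 / 200 := by norm_num
      rw [h5, hinv]
      apply mul_le_mul_of_nonneg_right _ (by positivity)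
      calc (16 : ℝ) ^ ((1 / 400) : ℝ) ≤ (16 : ℝ) ^ ((1 / 4) : ℝ) :=
            Real.rpow_le_rpow_of_exponent_le (by norm_num) (by norm_num)
        _ = 2 := by
            rw [show (16 : ℝ) = 2 ^ (4 : ℝ) by norm_num, ← Real.rpow_mul (by norm_num)]
            norm_num
    have h6 : (16 * (n : ℝ) ^ 2) ^ ((1 / 400) : ℝ) / (1 / 400) ≤ 800 / y := by
      rw [div_le_iff₀ (by norm_num)]
      have : 800 / y * (1 / 400) = 2 * (1 / y) := by ring
      rw [this]; exact h4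
    linarith
  have hroot : y * √(2 * Real.log (4 * ((n + 1 : ℕ) : ℝ) ^ 2)) ≤ 40 * √y := by
    have h1 : y * √(2 * Real.log (4 * ((n + 1 : ℕ) : ℝ) ^ 2))
        = √(y ^ 2 * (2 * Real.log (4 * ((n + 1 : ℕ) : ℝ) ^ 2))) := by
      rw [Real.sqrt_mul (x := y ^ 2) (by positivity) (2 * Real.log (4 * ((n + 1 : ℕ) : ℝ) ^ 2)), hsy]
    rw [h1]
    have h2 : (40 : ℝ) * √y = √(1600 * y) := by
      rw [Real.sqrt_mul (by norm_num)]
      congr 1
      rw [show (1600 : ℝ) = 40 ^ 2 by norm_num, Real.sqrt_sq (by norm_num)]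
    rw [h2]
    apply Real.sqrt_le_sqrt
    have h3 : y ^ 2 * (2 * Real.log (4 * ((n + 1 : ℕ) : ℝ) ^ 2)) ≤ y ^ 2 * (2 * (800 / y)) := by
      apply mul_le_mul_of_nonneg_left _ (by positivity)
      linarith
    refine h3.trans_eq ?_
    field_simp; norm_num
  rw [hsy]
  nlinarith

theorem tendsto_y : Tendsto (fun n : ℕ => (n : ℝ) ^ (-(1 / 200) : ℝ)) atTop (𝓝 0) :=
  (tendsto_rpow_neg_atTop (by norm_num)).comp tendsto_natCast_atTop_atTop

/-- The stronger form: for every `ε` the property holds for **all** large degrees. -/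
theorem ultraflat_derivatives (ε : ℝ) (hε : 0 < ε) :
    ∃ N : ℕ, ∀ n : ℕ, N ≤ n → ∃ a : ℕ → ℂ, (∀ k, ‖a k‖ = 1) ∧
      ∀ z w : ℂ, ‖z‖ = 1 → ‖w‖ = 1 →
        ‖∑ k ∈ Finset.range (n + 1), (k : ℂ) * a k * z ^ (k - 1)‖ ≤
          (1 + ε) * ‖∑ k ∈ Finset.range (n + 1), (k : ℂ) * a k * w ^ (k - 1)‖ := by
  have hy := tendsto_y
  have hE : Tendsto (fun n : ℕ => ((n : ℝ) ^ (-(1 / 200) : ℝ)) ^ 4 + 63 * (n : ℝ) ^ (-(1 / 200) : ℝ)
      + 720 * √((n : ℝ) ^ (-(1 / 200) : ℝ))) atTop (𝓝 0) := by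
    have h1 := ((hy.pow 4).add (hy.const_mul 63)).add
      (((Real.continuous_sqrt.tendsto 0).comp hy).const_mul 720)
    simpa using h1
  set δ : ℝ := min ε 1 / 4 with hδ
  have hδpos : 0 < δ := by rw [hδ]; positivity
  have hev1 : ∀ᶠ n : ℕ in atTop, ((n : ℝ) ^ (-(1 / 200) : ℝ)) ^ 4 + 63 * (n : ℝ) ^ (-(1 / 200) : ℝ)
      + 720 * √((n : ℝ) ^ (-(1 / 200) : ℝ)) < δ := hE.eventually_lt_const hδpos
  have hev2 : ∀ᶠ n : ℕ in atTop, (n : ℝ) ^ (-(1 / 200) : ℝ) < 1 / 200 :=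
    hy.eventually_lt_const (by norm_num)
  obtain ⟨N, hN⟩ := (hev1.and (hev2.and (eventually_ge_atTop 1))).exists_forall_of_atTop
  refine ⟨N, fun n hn => ?_⟩
  obtain ⟨h1, h2, h3⟩ := hN n hn
  set y : ℝ := (n : ℝ) ^ (-(1 / 200) : ℝ) with hydef
  have hn0 : (0 : ℝ) < n := by exact_mod_cast h3
  have hypos : 0 < y := Real.rpow_pos_of_pos hn0 _
  have hh : 0 < y ^ 2 := by positivity
  have hh1 : y ^ 2 ≤ 1 / 200 := by nlinarith
  have hnh : (n : ℝ) * (y ^ 2) ^ 100 = 1 := by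
    rw [← pow_mul, hydef, ← Real.rpow_natCast, ← Real.rpow_mul hn0.le]
    norm_num
    rw [Real.rpow_neg_one]
    field_simp
  obtain ⟨a, ha, hflat⟩ := exists_flat hh hh1 n hnh
  have herr := err_bound n h3 y rfl
  set E := (y ^ 2) ^ 2 + 9 * √(y ^ 2) * (2 * √(2 * Real.log (4 * ((n + 1 : ℕ) : ℝ) ^ 2)) + 7) with hEdef
  have hEδ : E ≤ δ := by linarith
  have hC := CC_pos hh hh1 n hnh
  refine ⟨a, ha, ?_⟩
  -- values on the circle
  have hval : ∀ z : ℂ, ‖z‖ = 1 →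
      |‖∑ k ∈ Finset.range (n + 1), (k : ℂ) * a k * z ^ (k - 1)‖ - CC (y ^ 2) n| ≤
        CC (y ^ 2) n * E := by
    intro z hz
    obtain ⟨t, ht, hzt⟩ : ∃ t ∈ Set.Ico (0:ℝ) 1, z = ee 1 t := by
      refine ⟨Int.fract (z.arg / (2 * Real.pi)), ⟨Int.fract_nonneg _, Int.fract_lt_one _⟩, ?_⟩
      have h4 : z = ee 1 (z.arg / (2 * Real.pi)) := by
        have h5 := Complex.norm_mul_exp_arg_mul_I z
        rw [hz] at h5
        rw [ee]
        have h6 : 2 * Real.pi * Complex.I * ((1 : ℝ) : ℂ) * ((z.arg / (2 * Real.pi) : ℝ) : ℂ)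
            = z.arg * Complex.I := by
          have : (Real.pi : ℂ) ≠ 0 := by exact_mod_cast Real.pi_ne_zero
          push_cast
          field_simp
        rw [h6]
        simpa using h5.symm
      have h7 := ee_add_int 1 (Int.fract (z.arg / (2 * Real.pi))) ⌊z.arg / (2 * Real.pi)⌋
      rw [Int.fract_add_floor] at h7
      push_cast at h7
      rw [← h7]
      exact h4
    have h5 : ∀ k : ℕ, z ^ k = ee k t := by
      intro k
      rw [hzt, ee, ee, ← Complex.exp_nat_mul]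
      congr 1
      push_cast; ring
    have h6 : ‖∑ k ∈ Finset.range (n + 1), (k : ℂ) * a k * z ^ (k - 1)‖
        = ‖∑ k ∈ Finset.range (n + 1), (k : ℂ) * a k * ee k t‖ := by
      have h7 : ∑ k ∈ Finset.range (n + 1), (k : ℂ) * a k * ee k t
          = z * ∑ k ∈ Finset.range (n + 1), (k : ℂ) * a k * z ^ (k - 1) := by
        rw [Finset.mul_sum]
        refine Finset.sum_congr rfl fun k _ => ?_
        rw [← h5]
        rcases Nat.eq_zero_or_pos k with hk | hk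
        · rw [hk]; simp
        · obtain ⟨j, rfl⟩ := Nat.exists_eq_succ_of_ne_zero hk.ne'
          simp only [Nat.succ_eq_add_one, Nat.add_sub_cancel]
          rw [pow_succ]; ring
      rw [h7, norm_mul, hz, one_mul]
    rw [h6]
    exact hflat t ht
  intro z w hz hw
  have hz1 := (abs_le.mp (hval z hz)).2
  have hw1 := (abs_le.mp (hval w hw)).1
  set A := ‖∑ k ∈ Finset.range (n + 1), (k : ℂ) * a k * z ^ (k - 1)‖
  set B := ‖∑ k ∈ Finset.range (n + 1), (k : ℂ) * a k * w ^ (k - 1)‖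
  set C := CC (y ^ 2) n
  have hA : A ≤ C * (1 + E) := by linarith
  have hB : C * (1 - E) ≤ B := by linarith
  have hE0 : E ≤ min ε 1 / 4 := hEδ
  have hm1 : min ε 1 ≤ ε := min_le_left _ _
  have hm2 : min ε 1 ≤ 1 := min_le_right _ _
  have hm0 : 0 < min ε 1 := by positivity
  have h8 : (1 + E) ≤ (1 + min ε 1) * (1 - E) := by nlinarith
  have h9 : 0 ≤ C * (1 - E) := mul_nonneg hC.le (by linarith)
  calc A ≤ C * (1 + E) := hA
    _ ≤ C * ((1 + min ε 1) * (1 - E)) := mul_le_mul_of_nonneg_left h8 hC.le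
    _ = (1 + min ε 1) * (C * (1 - E)) := by ring
    _ ≤ (1 + ε) * B := by
        apply mul_le_mul (by linarith) hB h9 (by linarith)

end Pool.Agent.Lib.MP_f8d220_an
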