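import Mathlib
import Pool.Agent.Lib.MP_f8d220_an.Final

set_option autoImplicit false
set_option linter.unusedSectionVars false

namespace Pool.Agent.Lib.MP_f8d220_an

open MeasureTheory intervalIntegral Filter Topology

/-- Normalised form: `|P'|` is uniformly close to `√(n ^ 3 / 3)`. -/
theorem ultraflat_normalised (ε : ℝ) (hε : 0 < ε) :
    ∃ N : ℕ, ∀ n : ℕ, N ≤ n → ∃ a : ℕ → ℂ, (∀ k, ‖a k‖ = 1) ∧
      ∀ z : ℂ, ‖z‖ = 1 →
        |‖∑ k ∈ Finset.range (n + 1), (k : ℂ) * a k * z ^ (k - 1)‖ - √((n : ℝ) ^ 3 / 3)| ≤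
          ε * √((n : ℝ) ^ 3 / 3) := by
  have hy := tendsto_y
  have hE : Tendsto (fun n : ℕ => ((n : ℝ) ^ (-(1 / 200) : ℝ)) ^ 4 + 63 * (n : ℝ) ^ (-(1 / 200) : ℝ)
      + 720 * √((n : ℝ) ^ (-(1 / 200) : ℝ))) atTop (𝓝 0) := by
    have h1 := ((hy.pow 4).add (hy.const_mul 63)).add
      (((Real.continuous_sqrt.tendsto 0).comp hy).const_mul 720)
    simpa using h1
  set δ : ℝ := min ε 1 / 4 with hδ
  have hδpos : 0 < δ := by rw [hδ]; positivity
  have hev3 : ∀ᶠ n : ℕ in atTop, 7 * ((n : ℝ) ^ (-(1 / 200) : ℝ)) ^ 2 < δ := by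
    have h0 : Tendsto (fun n : ℕ => 7 * ((n : ℝ) ^ (-(1 / 200) : ℝ)) ^ 2) atTop (𝓝 0) := by
      have := (hy.pow 2).const_mul 7
      simpa using this
    exact h0.eventually_lt_const hδpos
  have hev1 : ∀ᶠ n : ℕ in atTop, ((n : ℝ) ^ (-(1 / 200) : ℝ)) ^ 4 + 63 * (n : ℝ) ^ (-(1 / 200) : ℝ)
      + 720 * √((n : ℝ) ^ (-(1 / 200) : ℝ)) < δ := hE.eventually_lt_const hδpos
  have hev2 : ∀ᶠ n : ℕ in atTop, (n : ℝ) ^ (-(1 / 200) : ℝ) < 1 / 200 :=
    hy.eventually_lt_const (by norm_num)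
  obtain ⟨N, hN⟩ := (hev3.and (hev1.and (hev2.and (eventually_ge_atTop 1)))).exists_forall_of_atTop
  refine ⟨N, fun n hn => ?_⟩
  obtain ⟨h0, h1, h2, h3⟩ := hN n hn
  set y : ℝ := (n : ℝ) ^ (-(1 / 200) : ℝ) with hydef
  have hn0 : (0 : ℝ) < n := by exact_mod_cast h3
  have hypos : 0 < y := Real.rpow_pos_of_pos hn0 _
  have hh : 0 < y ^ 2 := by positivity
  have hh1 : y ^ 2 ≤ 1 / 200 := by nlinarith
  have hnh : (n : ℝ) * (y ^ 2) ^ 100 = 1 := by
    rw [← pow_mul, hydef, ← Real.rpow_natCast, ← Real.rpow_mul hn0.le]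
    norm_num
    rw [Real.rpow_neg_one]
    field_simp
  obtain ⟨a, ha, hflat⟩ := exists_flat hh hh1 n hnh
  have herr := err_bound n h3 y rfl
  set E := (y ^ 2) ^ 2 + 9 * √(y ^ 2) * (2 * √(2 * Real.log (4 * ((n + 1 : ℕ) : ℝ) ^ 2)) + 7) with hEdef
  have hEδ : E ≤ δ := by linarith
  have hC := CC_pos hh hh1 n hnh
  refine ⟨a, ha, ?_⟩
  -- values on the circle
  have hval : ∀ z : ℂ, ‖z‖ = 1 →
      |‖∑ k ∈ Finset.range (n + 1), (k : ℂ) * a k * z ^ (k - 1)‖ - CC (y ^ 2) n| ≤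
        CC (y ^ 2) n * E := by
    intro z hz
    obtain ⟨t, ht, hzt⟩ : ∃ t ∈ Set.Ico (0:ℝ) 1, z = ee 1 t := by
      refine ⟨Int.fract (z.arg / (2 * Real.pi)), ⟨Int.fract_nonneg _, Int.fract_lt_one _⟩, ?_⟩
      have h4 : z = ee 1 (z.arg / (2 * Real.pi)) := by
        have h5 := Complex.norm_mul_exp_arg_mul_I z
        rw [hz] at h5
        rw [ee]
        have h6 : 2 * Real.pi * Complex.I * ((1 : ℝ) : ℂ) * ((z.arg / (2 * Real.pi) : ℝ) : ℂ)
            = z.arg * Complex.I := by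
          have : (Real.pi : ℂ) ≠ 0 := by exact_mod_cast Real.pi_ne_zero
          push_cast
          field_simp
        rw [h6]
        simpa using h5.symm
      have h7 := ee_add_int 1 (Int.fract (z.arg / (2 * Real.pi))) ⌊z.arg / (2 * Real.pi)⌋
      rw [Int.fract_add_floor] at h7
      push_cast at h7
      rw [← h7]
      exact h4
    have h5 : ∀ k : ℕ, z ^ k = ee k t := by
      intro k
      rw [hzt, ee, ee, ← Complex.exp_nat_mul]
      congr 1
      push_cast; ring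
    have h6 : ‖∑ k ∈ Finset.range (n + 1), (k : ℂ) * a k * z ^ (k - 1)‖
        = ‖∑ k ∈ Finset.range (n + 1), (k : ℂ) * a k * ee k t‖ := by
      have h7 : ∑ k ∈ Finset.range (n + 1), (k : ℂ) * a k * ee k t
          = z * ∑ k ∈ Finset.range (n + 1), (k : ℂ) * a k * z ^ (k - 1) := by
        rw [Finset.mul_sum]
        refine Finset.sum_congr rfl fun k _ => ?_
        rw [← h5]
        rcases Nat.eq_zero_or_pos k with hk | hk
        · rw [hk]; simp
        · obtain ⟨j, rfl⟩ := Nat.exists_eq_succ_of_ne_zero hk.ne'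
          simp only [Nat.succ_eq_add_one, Nat.add_sub_cancel]
          rw [pow_succ]; ring
      rw [h7, norm_mul, hz, one_mul]
    rw [h6]
    exact hflat t ht
  intro z hz
  have hz0 := hval z hz
  set A := ‖∑ k ∈ Finset.range (n + 1), (k : ℂ) * a k * z ^ (k - 1)‖
  set S := √((n : ℝ) ^ 3 / 3) with hS
  have hCS : CC (y ^ 2) n = (1 - 7 * y ^ 2) * S := by
    have h50 : (n : ℝ) = (1 / (y ^ 2) ^ 50) ^ 2 := by
      have h51 : (n : ℝ) = 1 / (y ^ 2) ^ 100 := by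
        rw [eq_div_iff (by positivity)]; exact hnh
      rw [h51]
      field_simp
    have h52 : (n : ℝ) ^ 3 / 3 = ((n : ℝ) * (1 / (y ^ 2) ^ 50) / √3) ^ 2 := by
      rw [div_pow, mul_pow, ← h50, Real.sq_sqrt (by norm_num)]; ring
    rw [hS, h52, Real.sqrt_sq (by positivity), CC]
    field_simp
  have hS0 : 0 ≤ S := Real.sqrt_nonneg _
  have hC' : CC (y ^ 2) n ≤ S := by rw [hCS]; nlinarith
  have hE0 : E ≤ min ε 1 / 4 := hEδ
  have hm1 : min ε 1 ≤ ε := min_le_left _ _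
  have hE1 : 0 ≤ E := by rw [hEdef]; positivity
  have h10 : |A - S| ≤ CC (y ^ 2) n * E + 7 * y ^ 2 * S := by
    have h11 : A - S = (A - CC (y ^ 2) n) + (-(7 * y ^ 2 * S)) := by rw [hCS]; ring
    rw [h11]
    refine (abs_add_le _ _).trans ?_
    rw [abs_neg, abs_of_nonneg (by positivity : 0 ≤ 7 * y ^ 2 * S)]
    linarith
  have h12 : CC (y ^ 2) n * E ≤ S * (min ε 1 / 4) := by
    apply mul_le_mul hC' hE0 hE1 hS0
  have h13 : 7 * y ^ 2 * S ≤ (min ε 1 / 4) * S := mul_le_mul_of_nonneg_right h0.le hS0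
  nlinarith

end Pool.Agent.Lib.MP_f8d220_an
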